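import Pool.Agent.Lib.MP_e42343_co.Expand

/-!
Systems of blocks of equal length.
-/

namespace Pool.Agent.Lib.MP_e42343_co

open Classical

variable {V K : Type} [Fintype V] [Fintype K] {l : ℕ}

/-- The type of blocks: free vertices and blocks of length `l + 1`. -/
abbrev Blk (φ : K × Fin (l + 1) → V) : Type := {v : V // v ∉ Set.range φ} ⊕ K

/-- first vertex of a block -/
def inn (φ : K × Fin (l + 1) → V) : Blk φ → V
  | .inl v => v.1
  | .inr k => φ (k, 0)

/-- last vertex of a block -/
def out (φ : K × Fin (l + 1) → V) : Blk φ → V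
  | .inl v => v.1
  | .inr k => φ (k, Fin.last l)

lemma inn_inj (φ : K × Fin (l + 1) → V) (hφ : Function.Injective φ) :
    Function.Injective (inn φ) := by
  rintro (v | k) (w | k') h
  · exact congrArg _ (Subtype.ext h)
  · exact absurd ⟨_, h.symm⟩ v.2
  · exact absurd ⟨_, h⟩ w.2
  · have := hφ h
    exact congrArg _ (Prod.ext_iff.1 this).1

lemma out_inj (φ : K × Fin (l + 1) → V) (hφ : Function.Injective φ) :
    Function.Injective (out φ) := by
  rintro (v | k) (w | k') h
  · exact congrArg _ (Subtype.ext h)
  · exact absurd ⟨_, h.symm⟩ v.2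
  · exact absurd ⟨_, h⟩ w.2
  · have := hφ h
    exact congrArg _ (Prod.ext_iff.1 this).1

/-- The possible steps of the expanded cycle. -/
def Step (φ : K × Fin (l + 1) → V) {m : ℕ} (c : ZMod m ≃ Blk φ) (x y : V) : Prop :=
  (∃ k : K, ∃ i : ℕ, ∃ hi : i + 1 < l + 1, x = φ (k, ⟨i, Nat.lt_of_succ_lt hi⟩) ∧
    y = φ (k, ⟨i + 1, hi⟩)) ∨
  (∃ i : ZMod m, x = out φ (c i) ∧ y = inn φ (c (i + 1)))

lemma card_blk (φ : K × Fin (l + 1) → V) (hφ : Function.Injective φ) :
    Fintype.card (Blk φ) + l * Fintype.card K = Fintype.card V := by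
  have h1 : Fintype.card {v : V // v ∉ Set.range φ} + Fintype.card (K × Fin (l + 1)) =
      Fintype.card V := by
    have := Fintype.card_subtype_compl (fun v : V => v ∈ Set.range φ)
    have h2 : Fintype.card {v : V // v ∈ Set.range φ} = Fintype.card (K × Fin (l + 1)) :=
      (Fintype.card_congr (Equiv.ofInjective φ hφ)).symm
    have h3 : Fintype.card {v : V // v ∈ Set.range φ} ≤ Fintype.card V :=
      Fintype.card_subtype_le _
    rw [this, ← h2]
    omega
  rw [Fintype.card_prod, Fintype.card_fin] at h1
  rw [Fintype.card_sum]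
  have : Fintype.card K * (l + 1) = l * Fintype.card K + Fintype.card K := by ring
  omega

theorem block_expand (φ : K × Fin (l + 1) → V) (hφ : Function.Injective φ) (m n : ℕ) [NeZero m]
    [NeZero n] (hn : Fintype.card V = n) (c : ZMod m ≃ Blk φ) :
    ∃ d : ZMod n ≃ V, ∀ t, Step φ c (d t) (d (t + 1)) := by
  set L : Blk φ → List V := fun x => match x with
    | .inl v => [v.1]
    | .inr k => List.ofFn (fun j : Fin (l + 1) => φ (k, j)) with hL
  refine expand m n hn L ?_ ?_ ?_ ?_ c (Step φ c) ?_ ?_
  · rintro (v | k)
    · simp [hL]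
    · intro h
      have := congrArg List.length h
      simp [hL] at this
  · rintro (v | k)
    · simp [hL]
    · simp only [hL]
      rw [List.nodup_ofFn]
      intro j j' h
      exact (Prod.ext_iff.1 (hφ h)).2
  · rintro (v | k) (w | k') hne
    · simp only [hL, List.disjoint_singleton, List.mem_singleton]
      intro h
      exact hne (congrArg _ (Subtype.ext h.symm))
    · simp only [hL]
      rw [List.disjoint_left]
      intro a ha ha'
      rw [List.mem_singleton] at ha
      rw [List.mem_ofFn] at ha'
      obtain ⟨j, hj⟩ := ha'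
      exact v.2 ⟨_, hj.trans ha⟩
    · simp only [hL]
      rw [List.disjoint_left]
      intro a ha ha'
      rw [List.mem_singleton] at ha'
      rw [List.mem_ofFn] at ha
      obtain ⟨j, hj⟩ := ha
      exact w.2 ⟨_, hj.trans ha'⟩
    · simp only [hL]
      rw [List.disjoint_left]
      intro a ha ha'
      rw [List.mem_ofFn] at ha ha'
      obtain ⟨j, hj⟩ := ha
      obtain ⟨j', hj'⟩ := ha'
      exact hne (congrArg _ (Prod.ext_iff.1 (hφ (hj.trans hj'.symm))).1)
  · intro v
    by_cases h : v ∈ Set.range φ
    · obtain ⟨⟨k, j⟩, rfl⟩ := h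
      refine ⟨.inr k, ?_⟩
      simp only [hL]
      rw [List.mem_ofFn]
      exact ⟨j, rfl⟩
    · exact ⟨.inl ⟨v, h⟩, by simp [hL]⟩
  · rintro (v | k)
    · simp [hL]
    · simp only [hL]
      rw [List.isChain_ofFn]
      intro i hi
      exact Or.inl ⟨k, i, hi, rfl, rfl⟩
  · intro i v hv w hw
    refine Or.inr ⟨i, ?_, ?_⟩
    · rcases hc : c i with u | k
      · simp only [hc, hL] at hv
        rw [List.getLast?_singleton] at hv
        exact (Option.some_injective _ hv).symm
      · simp only [hc, hL] at hv
        rw [List.getLast?_eq_getLast_of_ne_nil (by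
          intro h
          have := congrArg List.length h
          simp at this)] at hv
        have := (Option.some_injective _ hv).symm
        rw [this, List.getLast_ofFn]
        rfl
    · rcases hc : c (i + 1) with u | k
      · simp only [hc, hL] at hw
        rw [List.head?_singleton] at hw
        exact (Option.some_injective _ hw).symm
      · simp only [hc, hL] at hw
        rw [List.ofFn_succ, List.head?_cons] at hw
        exact (Option.some_injective _ hw).symm

end Pool.Agent.Lib.MP_e42343_co
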