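import Pool.Agent.Lib.MP_e42343_co.LowerX

/-!
Dense subsets of products contain combinatorial boxes with prescribed small relations avoided.
-/

namespace Pool.Agent.Lib.MP_e42343_co

open Finset Classical

/-- The box property. -/
def BoxProp (N : ℕ) (γ η : ℝ) : Prop :=
  ∀ (V : Type) [Fintype V] [Nonempty V] (G : Finset (Fin N → V)),
    γ * (Fintype.card V : ℝ) ^ N ≤ G.card → ∀ R : Fin N → Finset (V × V),
    (∀ i, ((R i).card : ℝ) ≤ η * (Fintype.card V : ℝ) ^ 2) →
    ∃ a a' : Fin N → V, (∀ i, (a i, a' i) ∉ R i) ∧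
      ∀ S : Fin N → Bool, (fun i => if S i then a i else a' i) ∈ G

lemma BoxProp.mono {N : ℕ} {γ η η' : ℝ} (h : BoxProp N γ η) (h' : η' ≤ η) : BoxProp N γ η' := by
  intro V _ _ G hG R hR
  exact h V G hG R (fun i => (hR i).trans (mul_le_mul_of_nonneg_right h' (by positivity)))

lemma box (N : ℕ) : ∀ γ : ℝ, 0 < γ → ∃ η : ℝ, 0 < η ∧ BoxProp N γ η := by
  induction N with
  | zero =>
    intro γ hγ
    refine ⟨1, one_pos, ?_⟩
    intro V _ _ G hG R _
    have hne : G.Nonempty := by
      rw [← card_pos]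
      have : (0 : ℝ) < G.card := lt_of_lt_of_le (by simpa using hγ) hG
      exact_mod_cast this
    obtain ⟨f, hf⟩ := hne
    refine ⟨f, f, fun i => i.elim0, fun S => ?_⟩
    have : (fun i : Fin 0 => if S i then f i else f i) = f := by
      funext i; exact i.elim0
    rw [this]; exact hf
  | succ N ih =>
    intro γ hγ
    obtain ⟨η', hη', hbox⟩ := ih (γ ^ 2 / 2) (by positivity)
    refine ⟨min (γ ^ 2 / 2) η', lt_min (by positivity) hη', ?_⟩
    intro V _ _ G hG R hR
    set n : ℝ := (Fintype.card V : ℝ) with hn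
    have hn0 : 0 < n := by
      rw [hn]; exact_mod_cast Fintype.card_pos
    -- slices
    set X : (Fin N → V) → Finset V := fun b => univ.filter (fun x => (Fin.cons x b : Fin (N + 1) → V) ∈ G) with hX
    set Gxx : V × V → Finset (Fin N → V) := fun p => univ.filter (fun b =>
      (Fin.cons p.1 b : Fin (N + 1) → V) ∈ G ∧ (Fin.cons p.2 b : Fin (N + 1) → V) ∈ G) with hGxx
    have hsum1 : ∑ b, ((X b).card : ℝ) = G.card := by
      have : ∑ b, (X b).card = G.card := by
        refine (card_prod_fiber' (fun (b : Fin N → V) (x : V) =>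
          (Fin.cons x b : Fin (N + 1) → V) ∈ G) inferInstance _).symm.trans ?_
        refine card_bij (fun p _ => (Fin.cons p.2 p.1 : Fin (N + 1) → V)) ?_ ?_ ?_
        · intro p hp
          exact (mem_filter.1 hp).2
        · rintro ⟨b, x⟩ _ ⟨b', x'⟩ _ h
          have h' := Fin.cons_injective2 h
          exact Prod.ext h'.2 h'.1
        · intro f hf
          refine ⟨(Fin.tail f, f 0), mem_filter.2 ⟨mem_univ _, ?_⟩, Fin.cons_self_tail f⟩
          change (Fin.cons (f 0) (Fin.tail f) : Fin (N + 1) → V) ∈ G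
          rw [Fin.cons_self_tail]
          exact hf
      exact_mod_cast this
    have hsum2 : ∑ p : V × V, ((Gxx p).card : ℝ) = ∑ b, ((X b).card : ℝ) ^ 2 := by
      have h1 : ∑ p : V × V, (Gxx p).card = ∑ b : Fin N → V, (X b ×ˢ X b).card := by
        have e1 : ∑ p : V × V, (Gxx p).card = (univ.filter (fun q : (V × V) × (Fin N → V) =>
            (Fin.cons q.1.1 q.2 : Fin (N + 1) → V) ∈ G ∧
            (Fin.cons q.1.2 q.2 : Fin (N + 1) → V) ∈ G)).card :=
          (card_prod_fiber' (fun (p : V × V) (b : Fin N → V) =>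
            (Fin.cons p.1 b : Fin (N + 1) → V) ∈ G ∧
            (Fin.cons p.2 b : Fin (N + 1) → V) ∈ G) _ _).symm
        have e2 : ∑ b : Fin N → V, (univ.filter (fun p : V × V =>
            (Fin.cons p.1 b : Fin (N + 1) → V) ∈ G ∧
            (Fin.cons p.2 b : Fin (N + 1) → V) ∈ G)).card =
            (univ.filter (fun q : (Fin N → V) × (V × V) =>
            (Fin.cons q.2.1 q.1 : Fin (N + 1) → V) ∈ G ∧
            (Fin.cons q.2.2 q.1 : Fin (N + 1) → V) ∈ G)).card :=
          (card_prod_fiber' (fun (b : Fin N → V) (p : V × V) =>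
            (Fin.cons p.1 b : Fin (N + 1) → V) ∈ G ∧
            (Fin.cons p.2 b : Fin (N + 1) → V) ∈ G) _ _).symm
        have e3 : (univ.filter (fun q : (V × V) × (Fin N → V) =>
            (Fin.cons q.1.1 q.2 : Fin (N + 1) → V) ∈ G ∧
            (Fin.cons q.1.2 q.2 : Fin (N + 1) → V) ∈ G)).card =
            (univ.filter (fun q : (Fin N → V) × (V × V) =>
            (Fin.cons q.2.1 q.1 : Fin (N + 1) → V) ∈ G ∧
            (Fin.cons q.2.2 q.1 : Fin (N + 1) → V) ∈ G)).card := by
          refine card_bij (fun q _ => (q.2, q.1)) ?_ ?_ ?_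
          · intro q hq
            exact mem_filter.2 ⟨mem_univ _, (mem_filter.1 hq).2⟩
          · rintro ⟨a, b⟩ _ ⟨a', b'⟩ _ h
            have h' := Prod.ext_iff.1 h
            exact Prod.ext h'.2 h'.1
          · rintro ⟨b, a⟩ hq
            exact ⟨(a, b), mem_filter.2 ⟨mem_univ _, (mem_filter.1 hq).2⟩, rfl⟩
        rw [e1, e3, ← e2]
        refine Finset.sum_congr rfl (fun b _ => congrArg _ ?_)
        ext p
        simp only [mem_filter, mem_univ, true_and, mem_product, hX]
      calc ∑ p : V × V, ((Gxx p).card : ℝ) = ((∑ p : V × V, (Gxx p).card : ℕ) : ℝ) := by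
            push_cast; rfl
        _ = ((∑ b : Fin N → V, (X b ×ˢ X b).card : ℕ) : ℝ) := by rw [h1]
        _ = ∑ b, ((X b).card : ℝ) ^ 2 := by
            push_cast
            refine Finset.sum_congr rfl (fun b _ => ?_)
            rw [card_product]; push_cast; ring
    have hcs : (G.card : ℝ) ^ 2 ≤ n ^ N * ∑ b, ((X b).card : ℝ) ^ 2 := by
      have := Finset.sum_mul_sq_le_sq_mul_sq (univ : Finset (Fin N → V)) (fun _ => (1 : ℝ))
        (fun b => ((X b).card : ℝ))
      simp only [one_mul, one_pow, Finset.sum_const, card_univ, Fintype.card_fun, Fintype.card_fin,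
        nsmul_eq_mul, mul_one] at this
      rw [hsum1] at this
      push_cast at this
      exact this
    have hlow : γ ^ 2 * n ^ (N + 2) ≤ ∑ b, ((X b).card : ℝ) ^ 2 := by
      have h1 : (γ * n ^ (N + 1)) ^ 2 ≤ (G.card : ℝ) ^ 2 :=
        pow_le_pow_left₀ (by positivity) hG 2
      have h2 : (γ * n ^ (N + 1)) ^ 2 = n ^ N * (γ ^ 2 * n ^ (N + 2)) := by ring
      rw [h2] at h1
      exact le_of_mul_le_mul_left (h1.trans hcs) (by positivity)
    -- a good pair
    obtain ⟨p, hpR, hp⟩ : ∃ p : V × V, p ∉ R 0 ∧ (γ ^ 2 / 2) * n ^ N ≤ (Gxx p).card := by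
      by_contra hcon
      push Not at hcon
      have h1 : ∑ p : V × V, ((Gxx p).card : ℝ) =
          ∑ p ∈ R 0, ((Gxx p).card : ℝ) + ∑ p ∈ (R 0)ᶜ, ((Gxx p).card : ℝ) :=
        (Finset.sum_add_sum_compl _ _).symm
      have h2 : ∑ p ∈ R 0, ((Gxx p).card : ℝ) ≤ (γ ^ 2 / 2) * n ^ 2 * n ^ N := by
        have : ∀ p ∈ R 0, ((Gxx p).card : ℝ) ≤ n ^ N := by
          intro p _
          have := card_le_univ (Gxx p)
          rw [Fintype.card_fun, Fintype.card_fin] at this
          calc ((Gxx p).card : ℝ) ≤ ((Fintype.card V ^ N : ℕ) : ℝ) := by exact_mod_cast this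
            _ = n ^ N := by push_cast; rfl
        refine (Finset.sum_le_card_nsmul _ _ _ this).trans ?_
        rw [nsmul_eq_mul]
        refine mul_le_mul_of_nonneg_right ((hR 0).trans ?_) (by positivity)
        exact mul_le_mul_of_nonneg_right (min_le_left _ _) (by positivity)
      have h3 : ∑ p ∈ (R 0)ᶜ, ((Gxx p).card : ℝ) < (γ ^ 2 / 2) * n ^ N * n ^ 2 := by
        rcases (R 0)ᶜ.eq_empty_or_nonempty with h0 | h0
        · rw [h0, Finset.sum_empty]; positivity
        · calc ∑ p ∈ (R 0)ᶜ, ((Gxx p).card : ℝ) < ∑ _p ∈ (R 0)ᶜ, (γ ^ 2 / 2) * n ^ N :=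
                Finset.sum_lt_sum_of_nonempty h0 (fun p hp => hcon p (mem_compl.1 hp))
            _ = (R 0)ᶜ.card * ((γ ^ 2 / 2) * n ^ N) := by rw [Finset.sum_const, nsmul_eq_mul]
            _ ≤ n ^ 2 * ((γ ^ 2 / 2) * n ^ N) := by
                refine mul_le_mul_of_nonneg_right ?_ (by positivity)
                have := card_le_univ (R 0)ᶜ
                rw [Fintype.card_prod] at this
                calc ((R 0)ᶜ.card : ℝ) ≤ ((Fintype.card V * Fintype.card V : ℕ) : ℝ) := by
                      exact_mod_cast this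
                  _ = n ^ 2 := by push_cast; ring
            _ = _ := by ring
      rw [hsum2] at h1
      have h4 : γ ^ 2 * n ^ (N + 2) = (γ ^ 2 / 2) * n ^ 2 * n ^ N + (γ ^ 2 / 2) * n ^ N * n ^ 2 := by
        ring
      linarith
    obtain ⟨b, b', hb1, hb2⟩ := hbox V (Gxx p) hp (fun i => R i.succ)
      (fun i => (hR i.succ).trans (mul_le_mul_of_nonneg_right (min_le_right _ _) (by positivity)))
    refine ⟨Fin.cons p.1 b, Fin.cons p.2 b', ?_, ?_⟩
    · intro i
      refine Fin.cases ?_ (fun j => ?_) i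
      · rw [Fin.cons_zero, Fin.cons_zero]; exact hpR
      · rw [Fin.cons_succ, Fin.cons_succ]; exact hb1 j
    · intro S
      have h1 := (mem_filter.1 (hb2 (fun i => S i.succ))).2
      by_cases hS : S 0
      · have : (fun i => if S i then (Fin.cons p.1 b : Fin (N + 1) → V) i
            else (Fin.cons p.2 b' : Fin (N + 1) → V) i) =
            Fin.cons p.1 (fun i => if S i.succ then b i else b' i) := by
          funext i
          refine Fin.cases ?_ (fun j => ?_) i
          · rw [if_pos hS, Fin.cons_zero, Fin.cons_zero]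
          · rw [Fin.cons_succ, Fin.cons_succ, Fin.cons_succ]
        rw [this]
        exact h1.1
      · have : (fun i => if S i then (Fin.cons p.1 b : Fin (N + 1) → V) i
            else (Fin.cons p.2 b' : Fin (N + 1) → V) i) =
            Fin.cons p.2 (fun i => if S i.succ then b i else b' i) := by
          funext i
          refine Fin.cases ?_ (fun j => ?_) i
          · rw [if_neg hS, Fin.cons_zero, Fin.cons_zero]
          · rw [Fin.cons_succ, Fin.cons_succ, Fin.cons_succ]
        rw [this]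
        exact h1.2

lemma box_uniform (M : ℕ) (γ : ℝ) (hγ : 0 < γ) :
    ∃ η : ℝ, 0 < η ∧ ∀ N ≤ M, BoxProp N γ η := by
  induction M with
  | zero =>
    obtain ⟨η, h1, h2⟩ := box 0 γ hγ
    refine ⟨η, h1, fun N hN => ?_⟩
    obtain rfl : N = 0 := by omega
    exact h2
  | succ M ih =>
    obtain ⟨η, h1, h2⟩ := ih
    obtain ⟨η', h1', h2'⟩ := box (M + 1) γ hγ
    refine ⟨min η η', lt_min h1 h1', fun N hN => ?_⟩
    rcases Nat.lt_or_ge N (M + 1) with h | h
    · exact (h2 N (by omega)).mono (min_le_left _ _)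
    · obtain rfl : N = M + 1 := by omega
      exact h2'.mono (min_le_right _ _)

end Pool.Agent.Lib.MP_e42343_co
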