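import Pool.Agent.Lib.MP_e42343_co.LLL

/-!
The local lemma for cyclic arrangements.
-/

namespace Pool.Agent.Lib.MP_e42343_co

open Finset Classical

variable {X : Type} [Fintype X]

/-- `x` occurs in the pair -/
def In2 (x : X) (t : X × X) : Prop := t.1 = x ∨ t.2 = x

/-- `x` occurs in the triple -/
def In3 (x : X) (t : X × X × X) : Prop := t.1 = x ∨ t.2.1 = x ∨ t.2.2 = x

/-- `x` occurs in the quadruple -/
def In4 (x : X) (t : X × X × X × X) : Prop := t.1 = x ∨ t.2.1 = x ∨ t.2.2.1 = x ∨ t.2.2.2 = x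

/-- index type of the events -/
abbrev Idx (m : ℕ) (X : Type) : Type :=
  (ZMod m × X × X) ⊕ ((ZMod m × X × X × X) ⊕ ((ZMod m × ZMod m) × X × X × X × X))

/-- the events -/
noncomputable def evt (m : ℕ) : Idx m X → Finset (ZMod m × X)
  | .inl (i, x, y) => {(i, x), (i + 1, y)}
  | .inr (.inl (i, x, y, z)) => {(i, x), (i + 1, y), (i + 2, z)}
  | .inr (.inr ((i, j), x, y, z, w)) => {(i, x), (i + 1, y), (j, z), (j + 1, w)}

/-- validity of the events -/
def valid (m : ℕ) (R2 : Finset (X × X)) (R3 : Finset (X × X × X)) (R4 : Finset (X × X × X × X)) :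
    Idx m X → Prop
  | .inl (_, x, y) => (x, y) ∈ R2 ∧ x ≠ y
  | .inr (.inl (_, x, y, z)) => (x, y, z) ∈ R3 ∧ x ≠ y ∧ x ≠ z ∧ y ≠ z
  | .inr (.inr ((i, j), x, y, z, w)) => (x, y, z, w) ∈ R4 ∧ i ≠ j ∧ i + 1 ≠ j ∧ i ≠ j + 1 ∧
      x ≠ y ∧ x ≠ z ∧ x ≠ w ∧ y ≠ z ∧ y ≠ w ∧ z ≠ w

lemma sum_three {A B C : Type} [Fintype A] [Fintype B] [Fintype C] (S : Finset (A ⊕ (B ⊕ C)))
    (f : A ⊕ (B ⊕ C) → ℝ) (p2 p3 p4 : ℝ)
    (h2 : ∀ a, .inl a ∈ S → f (.inl a) ≤ p2) (h3 : ∀ a, .inr (.inl a) ∈ S → f (.inr (.inl a)) ≤ p3)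
    (h4 : ∀ a, .inr (.inr a) ∈ S → f (.inr (.inr a)) ≤ p4) :
    ∑ j ∈ S, f j ≤ (univ.filter (fun a => (.inl a : A ⊕ (B ⊕ C)) ∈ S)).card * p2 +
      (univ.filter (fun a => (.inr (.inl a) : A ⊕ (B ⊕ C)) ∈ S)).card * p3 +
      (univ.filter (fun a => (.inr (.inr a) : A ⊕ (B ⊕ C)) ∈ S)).card * p4 := by
  have hS : S = (univ.filter (fun a => (.inl a : A ⊕ (B ⊕ C)) ∈ S)).disjSum
      ((univ.filter (fun a => (.inr (.inl a) : A ⊕ (B ⊕ C)) ∈ S)).disjSum
        (univ.filter (fun a => (.inr (.inr a) : A ⊕ (B ⊕ C)) ∈ S))) := by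
    ext j
    rcases j with j | j | j
    · rw [inl_mem_disjSum, mem_filter]; simp
    · rw [inr_mem_disjSum, inl_mem_disjSum, mem_filter]; simp
    · rw [inr_mem_disjSum, inr_mem_disjSum, mem_filter]; simp
  have e : ∑ j ∈ S, f j = ∑ a ∈ univ.filter (fun a => (.inl a : A ⊕ (B ⊕ C)) ∈ S), f (.inl a) +
      (∑ a ∈ univ.filter (fun a => (.inr (.inl a) : A ⊕ (B ⊕ C)) ∈ S), f (.inr (.inl a)) +
      ∑ a ∈ univ.filter (fun a => (.inr (.inr a) : A ⊕ (B ⊕ C)) ∈ S), f (.inr (.inr a))) := by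
    conv_lhs => rw [hS]
    rw [Finset.sum_disjSum, Finset.sum_disjSum]
  rw [e, add_assoc]
  refine add_le_add ?_ (add_le_add ?_ ?_)
  · rw [← nsmul_eq_mul]
    exact Finset.sum_le_card_nsmul _ _ _ (fun a ha => h2 a (mem_filter.1 ha).2)
  · rw [← nsmul_eq_mul]
    exact Finset.sum_le_card_nsmul _ _ _ (fun a ha => h3 a (mem_filter.1 ha).2)
  · rw [← nsmul_eq_mul]
    exact Finset.sum_le_card_nsmul _ _ _ (fun a ha => h4 a (mem_filter.1 ha).2)

lemma sum_three' {A B C : Type} [Fintype A] [Fintype B] [Fintype C] (S : Finset (A ⊕ (B ⊕ C)))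
    (f : A ⊕ (B ⊕ C) → ℝ) (p2 p3 p4 : ℝ) (q2 : 0 ≤ p2) (q3 : 0 ≤ p3) (q4 : 0 ≤ p4)
    (h2 : ∀ a, .inl a ∈ S → f (.inl a) ≤ p2) (h3 : ∀ a, .inr (.inl a) ∈ S → f (.inr (.inl a)) ≤ p3)
    (h4 : ∀ a, .inr (.inr a) ∈ S → f (.inr (.inr a)) ≤ p4)
    (T2 : Finset A) (T3 : Finset B) (T4 : Finset C) (t2 : ∀ a, .inl a ∈ S → a ∈ T2)
    (t3 : ∀ a, .inr (.inl a) ∈ S → a ∈ T3) (t4 : ∀ a, .inr (.inr a) ∈ S → a ∈ T4) :
    ∑ j ∈ S, f j ≤ T2.card * p2 + T3.card * p3 + T4.card * p4 := by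
  refine (sum_three S f p2 p3 p4 h2 h3 h4).trans ?_
  have c2 : ((univ.filter (fun a => (.inl a : A ⊕ (B ⊕ C)) ∈ S)).card : ℝ) ≤ T2.card := by
    exact_mod_cast card_le_card (fun a ha => t2 a (mem_filter.1 ha).2)
  have c3 : ((univ.filter (fun a => (.inr (.inl a) : A ⊕ (B ⊕ C)) ∈ S)).card : ℝ) ≤ T3.card := by
    exact_mod_cast card_le_card (fun a ha => t3 a (mem_filter.1 ha).2)
  have c4 : ((univ.filter (fun a => (.inr (.inr a) : A ⊕ (B ⊕ C)) ∈ S)).card : ℝ) ≤ T4.card := by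
    exact_mod_cast card_le_card (fun a ha => t4 a (mem_filter.1 ha).2)
  exact add_le_add (add_le_add (mul_le_mul_of_nonneg_right c2 q2)
    (mul_le_mul_of_nonneg_right c3 q3)) (mul_le_mul_of_nonneg_right c4 q4)

lemma card2 {P X : Type} [DecidableEq P] [DecidableEq X] {i i' : P} {x y : X} (h : x ≠ y) :
    ({(i, x), (i', y)} : Finset (P × X)).card = 2 := by
  rw [card_insert_of_notMem, card_singleton]
  simp [h]

lemma card3 {P X : Type} [DecidableEq P] [DecidableEq X] {i i' i'' : P} {x y z : X} (h : x ≠ y) (h' : x ≠ z) (h'' : y ≠ z) :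
    ({(i, x), (i', y), (i'', z)} : Finset (P × X)).card = 3 := by
  rw [card_insert_of_notMem, card2 h'']
  simp [h, h']

lemma card4 {P X : Type} [DecidableEq P] [DecidableEq X] {i i' i'' i''' : P} {x y z w : X} (h1 : x ≠ y) (h2 : x ≠ z) (h3 : x ≠ w)
    (h4 : y ≠ z) (h5 : y ≠ w) (h6 : z ≠ w) :
    ({(i, x), (i', y), (i'', z), (i''', w)} : Finset (P × X)).card = 4 := by
  rw [card_insert_of_notMem, card3 h4 h5 h6]
  simp [h1, h2, h3]

lemma pr_le {m : ℕ} (hm : Fintype.card X = m) (hm100 : 100 ≤ m) :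
    pr X 2 ≤ 2 / (m : ℝ) ^ 2 ∧ pr X 3 ≤ 2 / (m : ℝ) ^ 3 ∧ pr X 4 ≤ 2 / (m : ℝ) ^ 4 := by
  have h100 : (100 : ℝ) ≤ m := by exact_mod_cast hm100
  have hm0 : (0 : ℝ) < m := by linarith
  have e1 : ((m - 1 : ℕ) : ℝ) = m - 1 := by rw [Nat.cast_sub (by omega)]; simp
  have e2 : ((m - 2 : ℕ) : ℝ) = m - 2 := by rw [Nat.cast_sub (by omega)]; simp
  have e3 : ((m - 3 : ℕ) : ℝ) = m - 3 := by rw [Nat.cast_sub (by omega)]; simp
  have d2 : ((m.descFactorial 2 : ℕ) : ℝ) = (m - 1) * m := by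
    have : m.descFactorial 2 = (m - 1) * m := by simp [Nat.descFactorial]
    rw [this, Nat.cast_mul, e1]
  have d3 : ((m.descFactorial 3 : ℕ) : ℝ) = (m - 2) * ((m - 1) * m) := by
    have : m.descFactorial 3 = (m - 2) * ((m - 1) * m) := by simp [Nat.descFactorial]
    rw [this, Nat.cast_mul, Nat.cast_mul, e1, e2]
  have d4 : ((m.descFactorial 4 : ℕ) : ℝ) = (m - 3) * ((m - 2) * ((m - 1) * m)) := by
    have : m.descFactorial 4 = (m - 3) * ((m - 2) * ((m - 1) * m)) := by simp [Nat.descFactorial]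
    rw [this, Nat.cast_mul, Nat.cast_mul, Nat.cast_mul, e1, e2, e3]
  have f1 : (9 / 10 : ℝ) * m ≤ m - 1 := by linarith
  have f2 : (9 / 10 : ℝ) * m ≤ m - 2 := by linarith
  have f3 : (9 / 10 : ℝ) * m ≤ m - 3 := by linarith
  have g2 : (9 / 10 : ℝ) * m * m ≤ (m - 1) * m := mul_le_mul_of_nonneg_right f1 hm0.le
  have g3 : (9 / 10 : ℝ) * m * ((9 / 10 : ℝ) * m * m) ≤ (m - 2) * ((m - 1) * m) :=
    mul_le_mul f2 g2 (by positivity) (by linarith)
  have g4 : (9 / 10 : ℝ) * m * ((9 / 10 : ℝ) * m * ((9 / 10 : ℝ) * m * m)) ≤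
      (m - 3) * ((m - 2) * ((m - 1) * m)) :=
    mul_le_mul f3 g3 (by positivity) (by linarith)
  have k2 : 0 < (m : ℝ) ^ 2 := by positivity
  have k3 : 0 < (m : ℝ) ^ 3 := by positivity
  have k4 : 0 < (m : ℝ) ^ 4 := by positivity
  unfold pr
  rw [hm, d2, d3, d4]
  refine ⟨?_, ?_, ?_⟩
  · rw [div_le_div_iff₀ (by nlinarith) k2]; nlinarith
  · rw [div_le_div_iff₀ (lt_of_lt_of_le (by positivity) g3) k3]; nlinarith
  · rw [div_le_div_iff₀ (lt_of_lt_of_le (by positivity) g4) k4]; nlinarith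

lemma card_le_of_cover {α : Type} [Fintype α] (R : Finset α) (Q : X → α → Prop)
    {iQ : ∀ x, DecidablePred (Q x)}
    (hQ : ∀ a ∈ R, ∃ x, Q x a) (C : ℝ) (h : ∀ x, ((R.filter (Q x)).card : ℝ) ≤ C) :
    (R.card : ℝ) ≤ Fintype.card X * C := by
  have h1 : R.card ≤ ∑ x : X, (R.filter (Q x)).card := by
    refine le_trans (card_le_card (t := univ.biUnion (fun x => R.filter (Q x))) ?_)
      card_biUnion_le
    intro a ha
    obtain ⟨x, hx⟩ := hQ a ha
    exact mem_biUnion.2 ⟨x, mem_univ _, mem_filter.2 ⟨ha, hx⟩⟩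
  calc (R.card : ℝ) ≤ ((∑ x : X, (R.filter (Q x)).card : ℕ) : ℝ) := by exact_mod_cast h1
    _ = ∑ x : X, ((R.filter (Q x)).card : ℝ) := by push_cast; rfl
    _ ≤ ∑ _x : X, C := Finset.sum_le_sum (fun x _ => h x)
    _ = _ := by rw [Finset.sum_const, card_univ, nsmul_eq_mul]

theorem cyc_lll (m : ℕ) [NeZero m] (hm : Fintype.card X = m) (hm100 : 100 ≤ m)
    (R2 : Finset (X × X)) (R3 : Finset (X × X × X)) (R4 : Finset (X × X × X × X))
    (h2 : ∀ x, ((R2.filter (In2 x)).card : ℝ) ≤ (m : ℝ) / 1000)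
    (h3 : ∀ x, ((R3.filter (In3 x)).card : ℝ) ≤
      (m : ℝ) ^ 2 / 1000)
    (h4 : ∀ x, ((R4.filter (In4 x)).card : ℝ) ≤
      (m : ℝ) ^ 2 / 1000) :
    ∃ c : ZMod m ≃ X, (∀ i, (c i, c (i + 1)) ∉ R2) ∧ (∀ i, (c i, c (i + 1), c (i + 2)) ∉ R3) ∧
      (∀ i j, i ≠ j → i + 1 ≠ j → i ≠ j + 1 → (c i, c (i + 1), c j, c (j + 1)) ∉ R4) := by
  have h100 : (100 : ℝ) ≤ m := by exact_mod_cast hm100
  have hm0 : (0 : ℝ) < m := by linarith
  have one_ne : (1 : ZMod m) ≠ 0 := by
    intro h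
    have := (ZMod.natCast_eq_zero_iff 1 m).1 (by exact_mod_cast h)
    have := Nat.le_of_dvd (by norm_num) this
    omega
  have two_ne : (2 : ZMod m) ≠ 0 := by
    intro h
    have := (ZMod.natCast_eq_zero_iff 2 m).1 (by exact_mod_cast h)
    have := Nat.le_of_dvd (by norm_num) this
    omega
  have ne1 : ∀ i : ZMod m, i ≠ i + 1 := fun i h => one_ne (by simpa using h.symm)
  have ne2 : ∀ i : ZMod m, i ≠ i + 2 := fun i h => two_ne (by simpa using h.symm)
  have ne12 : ∀ i : ZMod m, i + 1 ≠ i + 2 := by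
    intro i h
    have : (1 : ZMod m) = 2 := add_left_cancel h
    apply one_ne
    have h' : (2 : ZMod m) - 1 = 0 := by rw [← this]; ring
    have h'' : (2 : ZMod m) - 1 = 1 := by norm_num
    rw [← h'', h']
  obtain ⟨p2, p3, p4⟩ := pr_le hm hm100
  have k2 : 0 < (m : ℝ) ^ 2 := by positivity
  have k3 : 0 < (m : ℝ) ^ 3 := by positivity
  have k4 : 0 < (m : ℝ) ^ 4 := by positivity
  set S : Finset (Idx m X) := univ.filter (valid m R2 R3 R4) with hS
  have hc2 : ∀ a, (.inl a : Idx m X) ∈ S → (evt m (.inl a : Idx m X)).card = 2 := by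
    rintro ⟨i, x, y⟩ h
    have h' := (mem_filter.1 h).2
    exact card2 h'.2
  have hc3 : ∀ a, (.inr (.inl a) : Idx m X) ∈ S →
      (evt m (.inr (.inl a) : Idx m X)).card = 3 := by
    rintro ⟨i, x, y, z⟩ h
    obtain ⟨-, a1, a2, a3⟩ := (mem_filter.1 h).2
    exact card3 a1 a2 a3
  have hc4 : ∀ a, (.inr (.inr a) : Idx m X) ∈ S →
      (evt m (.inr (.inr a) : Idx m X)).card = 4 := by
    rintro ⟨⟨i, j⟩, x, y, z, w⟩ h
    obtain ⟨-, -, -, -, a1, a2, a3, a4, a5, a6⟩ := (mem_filter.1 h).2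
    exact card4 a1 a2 a3 a4 a5 a6
  -- sizes of the relations
  have r2 : (R2.card : ℝ) ≤ m * ((m : ℝ) / 1000) := by
    have := card_le_of_cover R2 In2
      (fun a _ => ⟨a.1, Or.inl rfl⟩) _ h2
    rwa [hm] at this
  have r3 : (R3.card : ℝ) ≤ m * ((m : ℝ) ^ 2 / 1000) := by
    have := card_le_of_cover R3 In3
      (fun a _ => ⟨a.1, Or.inl rfl⟩) _ h3
    rwa [hm] at this
  have r4 : (R4.card : ℝ) ≤ m * ((m : ℝ) ^ 2 / 1000) := by
    have := card_le_of_cover R4 In4
      (fun a _ => ⟨a.1, Or.inl rfl⟩) _ h4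
    rwa [hm] at this
  have hZ : Fintype.card (ZMod m) = m := ZMod.card m
  have hA1 : ∀ i ∈ S, ¬ Confl (evt m i) (evt m i) := by
    -- no self conflict
    rintro (⟨i, x, y⟩ | ⟨i, x, y, z⟩ | ⟨⟨i, j⟩, x, y, z, w⟩) hi
    · obtain ⟨-, a1⟩ := (mem_filter.1 hi).2
      have := ne1 i
      rintro ⟨t, ht, t', ht', h⟩
      rw [evt, mem_insert, mem_singleton] at ht ht'
      rcases ht with rfl | rfl <;> rcases ht' with rfl | rfl <;> simp_all
    · obtain ⟨-, a1, a2, a3⟩ := (mem_filter.1 hi).2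
      have b1 := ne1 i
      have b2 := ne2 i
      have b3 := ne12 i
      rintro ⟨t, ht, t', ht', h⟩
      rw [evt, mem_insert, mem_insert, mem_singleton] at ht ht'
      rcases ht with rfl | rfl | rfl <;> rcases ht' with rfl | rfl | rfl <;>
        rcases h with ⟨h, h'⟩ | ⟨h, h'⟩ <;>
        first
          | exact h' rfl | exact h rfl | exact b1 h | exact b2 h | exact b3 h
          | exact b1 h.symm | exact b2 h.symm | exact b3 h.symm
          | exact a1 h' | exact a2 h' | exact a3 h'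
          | exact a1 h'.symm | exact a2 h'.symm | exact a3 h'.symm
    · obtain ⟨-, b1, b2, b3, a1, a2, a3, a4, a5, a6⟩ := (mem_filter.1 hi).2
      have b4 := ne1 i
      have b5 := ne1 j
      have b6 : i + 1 ≠ j + 1 := fun h => b1 (add_right_cancel h)
      rintro ⟨t, ht, t', ht', h⟩
      rw [evt, mem_insert, mem_insert, mem_insert, mem_singleton] at ht ht'
      rcases ht with rfl | rfl | rfl | rfl <;> rcases ht' with rfl | rfl | rfl | rfl <;>
        rcases h with ⟨h, h'⟩ | ⟨h, h'⟩ <;>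
        first
          | exact h' rfl | exact h rfl | exact b1 h | exact b2 h | exact b3 h
          | exact b4 h | exact b5 h | exact b6 h
          | exact b1 h.symm | exact b2 h.symm | exact b3 h.symm
          | exact b4 h.symm | exact b5 h.symm | exact b6 h.symm
          | exact a1 h' | exact a2 h' | exact a3 h' | exact a4 h' | exact a5 h' | exact a6 h'
          | exact a1 h'.symm | exact a2 h'.symm | exact a3 h'.symm
          | exact a4 h'.symm | exact a5 h'.symm | exact a6 h'.symm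
  have hA2 : ∀ i ∈ S, (evt m i).card ≤ 4 := by
    rintro (a | a | a) hi
    · rw [hc2 a hi]; norm_num
    · rw [hc3 a hi]; norm_num
    · rw [hc4 a hi]
  have hA3 : ∀ i ∈ S, (evt m i).Nonempty := by
    rintro (a | a | a) hi
    · rw [← card_pos, hc2 a hi]; norm_num
    · rw [← card_pos, hc3 a hi]; norm_num
    · rw [← card_pos, hc4 a hi]; norm_num
  have hA4 : ∀ x : X, ∑ j ∈ S.filter (fun j => HitV (evt m j) x), pr X (evt m j).card ≤
      1 / 32 := by
    intro x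
    refine (sum_three' _ _ (2 / (m : ℝ) ^ 2) (2 / (m : ℝ) ^ 3) (2 / (m : ℝ) ^ 4)
      (by positivity) (by positivity) (by positivity)
      (fun a ha => by rw [hc2 a (mem_filter.1 ha).1]; exact p2)
      (fun a ha => by rw [hc3 a (mem_filter.1 ha).1]; exact p3)
      (fun a ha => by rw [hc4 a (mem_filter.1 ha).1]; exact p4)
      ((univ : Finset (ZMod m)) ×ˢ (R2.filter (In2 x)))
      ((univ : Finset (ZMod m)) ×ˢ (R3.filter (In3 x)))
      ((univ : Finset (ZMod m × ZMod m)) ×ˢ (R4.filter (In4 x))) ?_ ?_ ?_).trans ?_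
    · rintro ⟨i, y, z⟩ h
      obtain ⟨hv, t, ht, htx⟩ := mem_filter.1 h
      rw [mem_product, mem_filter]
      refine ⟨mem_univ _, (mem_filter.1 hv).2.1, ?_⟩
      rw [evt, mem_insert, mem_singleton] at ht
      rcases ht with rfl | rfl
      · exact Or.inl htx
      · exact Or.inr htx
    · rintro ⟨i, y, z, w⟩ h
      obtain ⟨hv, t, ht, htx⟩ := mem_filter.1 h
      rw [mem_product, mem_filter]
      refine ⟨mem_univ _, (mem_filter.1 hv).2.1, ?_⟩
      rw [evt, mem_insert, mem_insert, mem_singleton] at ht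
      rcases ht with rfl | rfl | rfl
      · exact Or.inl htx
      · exact Or.inr (Or.inl htx)
      · exact Or.inr (Or.inr htx)
    · rintro ⟨⟨i, j⟩, y, z, w, v⟩ h
      obtain ⟨hv, t, ht, htx⟩ := mem_filter.1 h
      rw [mem_product, mem_filter]
      refine ⟨mem_univ _, (mem_filter.1 hv).2.1, ?_⟩
      rw [evt, mem_insert, mem_insert, mem_insert, mem_singleton] at ht
      rcases ht with rfl | rfl | rfl | rfl
      · exact Or.inl htx
      · exact Or.inr (Or.inl htx)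
      · exact Or.inr (Or.inr (Or.inl htx))
      · exact Or.inr (Or.inr (Or.inr htx))
    · rw [card_product, card_product, card_product, card_univ, card_univ, Fintype.card_prod, hZ]
      push_cast
      have c2 := mul_le_mul_of_nonneg_left (h2 x) hm0.le
      have c3 := mul_le_mul_of_nonneg_left (h3 x) hm0.le
      have c4 := mul_le_mul_of_nonneg_left (h4 x) (by positivity : (0 : ℝ) ≤ m * m)
      have d2 := mul_le_mul_of_nonneg_right c2 (by positivity : (0 : ℝ) ≤ 2 / (m : ℝ) ^ 2)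
      have d3 := mul_le_mul_of_nonneg_right c3 (by positivity : (0 : ℝ) ≤ 2 / (m : ℝ) ^ 3)
      have d4 := mul_le_mul_of_nonneg_right c4 (by positivity : (0 : ℝ) ≤ 2 / (m : ℝ) ^ 4)
      have e2 : (m : ℝ) * ((m : ℝ) / 1000) * (2 / (m : ℝ) ^ 2) = 2 / 1000 := by field_simp
      have e3 : (m : ℝ) * ((m : ℝ) ^ 2 / 1000) * (2 / (m : ℝ) ^ 3) = 2 / 1000 := by field_simp
      have e4 : (m * m) * ((m : ℝ) ^ 2 / 1000) * (2 / (m : ℝ) ^ 4) = 2 / 1000 := by field_simp
      rw [e2] at d2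
      rw [e3] at d3
      rw [e4] at d4
      refine (add_le_add (add_le_add d2 d3) d4).trans ?_
      norm_num
  have hA5 : ∀ p : ZMod m, ∑ j ∈ S.filter (fun j => HitP (evt m j) p), pr X (evt m j).card ≤
      1 / 32 := by
    intro p
    refine (sum_three' _ _ (2 / (m : ℝ) ^ 2) (2 / (m : ℝ) ^ 3) (2 / (m : ℝ) ^ 4)
      (by positivity) (by positivity) (by positivity)
      (fun a ha => by rw [hc2 a (mem_filter.1 ha).1]; exact p2)
      (fun a ha => by rw [hc3 a (mem_filter.1 ha).1]; exact p3)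
      (fun a ha => by rw [hc4 a (mem_filter.1 ha).1]; exact p4)
      (({p, p - 1} : Finset (ZMod m)) ×ˢ R2)
      (({p, p - 1, p - 2} : Finset (ZMod m)) ×ˢ R3)
      (((({p, p - 1} : Finset (ZMod m)) ×ˢ (univ : Finset (ZMod m))) ∪
            ((univ : Finset (ZMod m)) ×ˢ ({p, p - 1} : Finset (ZMod m)))) ×ˢ R4)
      ?_ ?_ ?_).trans ?_
    · rintro ⟨i, y, z⟩ h
      obtain ⟨hv, t, ht, htx⟩ := mem_filter.1 h
      rw [mem_product]
      refine ⟨?_, (mem_filter.1 hv).2.1⟩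
      rw [evt, mem_insert, mem_singleton] at ht
      rw [mem_insert, mem_singleton]
      rcases ht with rfl | rfl
      · exact Or.inl htx
      · exact Or.inr (eq_sub_of_add_eq htx)
    · rintro ⟨i, y, z, w⟩ h
      obtain ⟨hv, t, ht, htx⟩ := mem_filter.1 h
      rw [mem_product]
      refine ⟨?_, (mem_filter.1 hv).2.1⟩
      rw [evt, mem_insert, mem_insert, mem_singleton] at ht
      rw [mem_insert, mem_insert, mem_singleton]
      rcases ht with rfl | rfl | rfl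
      · exact Or.inl htx
      · exact Or.inr (Or.inl (eq_sub_of_add_eq htx))
      · exact Or.inr (Or.inr (eq_sub_of_add_eq htx))
    · rintro ⟨⟨i, j⟩, y, z, w, v⟩ h
      obtain ⟨hv, t, ht, htx⟩ := mem_filter.1 h
      rw [mem_product]
      refine ⟨?_, (mem_filter.1 hv).2.1⟩
      rw [evt, mem_insert, mem_insert, mem_insert, mem_singleton] at ht
      rw [mem_union, mem_product, mem_product, mem_insert, mem_singleton, mem_insert,
        mem_singleton]
      rcases ht with rfl | rfl | rfl | rfl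
      · exact Or.inl ⟨Or.inl htx, mem_univ _⟩
      · exact Or.inl ⟨Or.inr (eq_sub_of_add_eq htx), mem_univ _⟩
      · exact Or.inr ⟨mem_univ _, Or.inl htx⟩
      · exact Or.inr ⟨mem_univ _, Or.inr (eq_sub_of_add_eq htx)⟩
    · have s2 : ((({p, p - 1} : Finset (ZMod m)) ×ˢ R2).card : ℝ) ≤
          2 * (m * ((m : ℝ) / 1000)) := by
        have h := Nat.mul_le_mul_right R2.card (card_le_two (a := p) (b := p - 1))
        rw [card_product]
        calc _ ≤ ((2 * R2.card : ℕ) : ℝ) := by exact_mod_cast h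
          _ ≤ _ := by push_cast; exact mul_le_mul_of_nonneg_left r2 (by norm_num)
      have s3 : ((({p, p - 1, p - 2} : Finset (ZMod m)) ×ˢ R3).card : ℝ) ≤
          3 * (m * ((m : ℝ) ^ 2 / 1000)) := by
        have h := Nat.mul_le_mul_right R3.card (card_le_three (a := p) (b := p - 1) (c := p - 2))
        rw [card_product]
        calc _ ≤ ((3 * R3.card : ℕ) : ℝ) := by exact_mod_cast h
          _ ≤ _ := by push_cast; exact mul_le_mul_of_nonneg_left r3 (by norm_num)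
      have s4 : ((((({p, p - 1} : Finset (ZMod m)) ×ˢ (univ : Finset (ZMod m))) ∪
            ((univ : Finset (ZMod m)) ×ˢ ({p, p - 1} : Finset (ZMod m)))) ×ˢ R4).card : ℝ) ≤
          (4 * m) * (m * ((m : ℝ) ^ 2 / 1000)) := by
        have hu : ((({p, p - 1} : Finset (ZMod m)) ×ˢ (univ : Finset (ZMod m))) ∪
              ((univ : Finset (ZMod m)) ×ˢ ({p, p - 1} : Finset (ZMod m)))).card ≤ 4 * m := by
          refine (card_union_le _ _).trans ?_
          rw [card_product, card_product, card_univ, hZ]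
          have h1 : ({p, p - 1} : Finset (ZMod m)).card ≤ 2 := card_le_two
          have h2 := Nat.mul_le_mul_right m h1
          have h3 := Nat.mul_le_mul_left m h1
          omega
        rw [card_product]
        calc _ ≤ ((4 * m * R4.card : ℕ) : ℝ) := by exact_mod_cast Nat.mul_le_mul_right R4.card hu
          _ ≤ _ := by push_cast; exact mul_le_mul_of_nonneg_left r4 (by positivity)
      have d2 := mul_le_mul_of_nonneg_right s2 (by positivity : (0 : ℝ) ≤ 2 / (m : ℝ) ^ 2)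
      have d3 := mul_le_mul_of_nonneg_right s3 (by positivity : (0 : ℝ) ≤ 2 / (m : ℝ) ^ 3)
      have d4 := mul_le_mul_of_nonneg_right s4 (by positivity : (0 : ℝ) ≤ 2 / (m : ℝ) ^ 4)
      have e2 : 2 * ((m : ℝ) * ((m : ℝ) / 1000)) * (2 / (m : ℝ) ^ 2) = 4 / 1000 := by
        field_simp; norm_num
      have e3 : 3 * ((m : ℝ) * ((m : ℝ) ^ 2 / 1000)) * (2 / (m : ℝ) ^ 3) = 6 / 1000 := by
        field_simp; norm_num
      have e4 : (4 * m) * (m * ((m : ℝ) ^ 2 / 1000)) * (2 / (m : ℝ) ^ 4) = 8 / 1000 := by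
        field_simp; norm_num
      rw [e2] at d2
      rw [e3] at d3
      rw [e4] at d4
      refine (add_le_add (add_le_add d2 d3) d4).trans ?_
      norm_num
  obtain ⟨c, hc⟩ := lll' (evt m) S (by rw [hZ, hm]) (by omega) hA1 hA2 hA3 hA4 hA5
  refine ⟨c, ?_, ?_, ?_⟩
  · intro i hi
    refine hc (.inl (i, c i, c (i + 1))) (mem_filter.2 ⟨mem_univ _, hi,
      fun h => ne1 i (c.injective h)⟩) ?_
    intro t ht
    rw [evt, mem_insert, mem_singleton] at ht
    rcases ht with rfl | rfl <;> rfl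
  · intro i hi
    refine hc (.inr (.inl (i, c i, c (i + 1), c (i + 2)))) (mem_filter.2 ⟨mem_univ _, hi,
      fun h => ne1 i (c.injective h), fun h => ne2 i (c.injective h),
      fun h => ne12 i (c.injective h)⟩) ?_
    intro t ht
    rw [evt, mem_insert, mem_insert, mem_singleton] at ht
    rcases ht with rfl | rfl | rfl <;> rfl
  · intro i j hij hij1 hij2 hi
    refine hc (.inr (.inr ((i, j), c i, c (i + 1), c j, c (j + 1)))) (mem_filter.2
      ⟨mem_univ _, hi, hij, hij1, hij2, fun h => ne1 i (c.injective h),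
      fun h => hij (c.injective h), fun h => hij2 (c.injective h),
      fun h => hij1 (c.injective h), fun h => hij (add_right_cancel (c.injective h)),
      fun h => ne1 j (c.injective h)⟩) ?_
    intro t ht
    rw [evt, mem_insert, mem_insert, mem_insert, mem_singleton] at ht
    rcases ht with rfl | rfl | rfl | rfl <;> rfl

end Pool.Agent.Lib.MP_e42343_co
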