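import Pool.Agent.Lib.MP_e42343_co.Block
import Pool.Agent.Lib.MP_e42343_co.Cyc

/-!
Application of the local lemma for the pattern `(3,1,1)`.
-/

namespace Pool.Agent.Lib.MP_e42343_co

open Finset Classical

variable {V K : Type} [Fintype V] [Fintype K]

lemma card_le_of_inj {α β : Type} {s : Finset α} {t : Finset β} (f : α → β)
    (hf : ∀ a ∈ s, f a ∈ t) (hinj : ∀ a ∈ s, ∀ b ∈ s, f a = f b → a = b) {C : ℝ}
    (h : (t.card : ℝ) ≤ C) : (s.card : ℝ) ≤ C := by
  refine le_trans ?_ h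
  exact_mod_cast card_le_card_of_injOn f (fun a ha => hf a ha)
    (fun a ha b hb hab => hinj a ha b hb hab)

lemma card_union4 {α : Type} {s a b c d : Finset α} {A B C D : ℝ} (h : s ⊆ a ∪ (b ∪ (c ∪ d)))
    (ha : (a.card : ℝ) ≤ A) (hb : (b.card : ℝ) ≤ B) (hc : (c.card : ℝ) ≤ C)
    (hd : (d.card : ℝ) ≤ D) : (s.card : ℝ) ≤ A + (B + (C + D)) := by
  have h1 : s.card ≤ a.card + (b.card + (c.card + d.card)) := by
    refine (card_le_card h).trans ((card_union_le _ _).trans ?_)
    refine Nat.add_le_add_left ((card_union_le _ _).trans ?_) _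
    exact Nat.add_le_add_left (card_union_le _ _) _
  have h2 : (s.card : ℝ) ≤ a.card + (b.card + (c.card + d.card)) := by exact_mod_cast h1
  linarith

theorem core_x (n : ℕ) [NeZero n] (hn : Fintype.card V = n) (Bad : V → V → V → Prop)
    (hs1 : ∀ x y z, Bad x y z → Bad y x z) (hs2 : ∀ x y z, Bad x y z → Bad x z y)
    (φ : K × Fin 5 → V) (hφ : Function.Injective φ)
    (ha : ∀ z, (∀ k, z ≠ φ (k, 2)) →
      ((univ.filter (fun p : V × V => Bad z p.1 p.2)).card : ℝ) ≤ (n : ℝ) ^ 2 / 4000)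
    (hb1 : ∀ k, ((univ.filter (fun p : V => Bad (φ (k, 0)) (φ (k, 1)) p)).card : ℝ) ≤
      (n : ℝ) / 4000)
    (hb2 : ∀ k, ((univ.filter (fun p : V => Bad (φ (k, 3)) (φ (k, 4)) p)).card : ℝ) ≤
      (n : ℝ) / 4000)
    (hc : ∀ k, ¬ Bad (φ (k, 0)) (φ (k, 1)) (φ (k, 2)) ∧ ¬ Bad (φ (k, 1)) (φ (k, 2)) (φ (k, 3)) ∧
      ¬ Bad (φ (k, 2)) (φ (k, 3)) (φ (k, 4)))
    (hK : 10000 * Fintype.card K ≤ n) (hn' : 1000 ≤ n) :
    ∃ d : ZMod n ≃ V, ∀ t, ¬ Bad (d t) (d (t + 1)) (d (t + 2)) := by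
  obtain ⟨m, hm⟩ : ∃ m, Fintype.card (Blk φ) = m := ⟨_, rfl⟩
  have hcard := card_blk φ hφ
  rw [hm, hn] at hcard
  have hm0 : NeZero m := ⟨by omega⟩
  have hKr : 10000 * (Fintype.card K : ℝ) ≤ n := by exact_mod_cast hK
  have hmr : (m : ℝ) + 4 * (Fintype.card K : ℝ) = n := by exact_mod_cast hcard
  have hnr : (1000 : ℝ) ≤ n := by exact_mod_cast hn'
  have hmn : (9996 / 10000 : ℝ) * n ≤ m := by linarith
  have hfree : ∀ (v : {v : V // v ∉ Set.range φ}) k j, v.1 ≠ φ (k, j) :=
    fun v k j h => v.2 ⟨_, h.symm⟩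
  have hφne : ∀ k k' j j', j ≠ j' → φ (k, j) ≠ φ (k', j') :=
    fun k k' j j' hj h => hj (Prod.ext_iff.1 (hφ h)).2
  have hinn : ∀ x : Blk φ, ∀ k, inn φ x ≠ φ (k, 2) := by
    rintro (v | k') k
    · exact hfree v k 2
    · exact hφne _ _ _ _ (by decide)
  have hout : ∀ x : Blk φ, ∀ k, out φ x ≠ φ (k, 2) := by
    rintro (v | k') k
    · exact hfree v k 2
    · exact hφne _ _ _ _ (by decide)
  set R2 : Finset (Blk φ × Blk φ) := univ.filter (fun t =>
    (∃ k, t.1 = .inr k ∧ Bad (φ (k, 3)) (φ (k, 4)) (inn φ t.2)) ∨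
    (∃ k, t.2 = .inr k ∧ Bad (φ (k, 0)) (φ (k, 1)) (out φ t.1))) with hR2
  set R3 : Finset (Blk φ × Blk φ × Blk φ) := univ.filter (fun t =>
    Bad (out φ t.1) (inn φ t.2.1) (inn φ t.2.2) ∧ ∃ v, t.2.1 = .inl v) with hR3
  have hA2 : ∀ x, ((R2.filter (In2 x)).card : ℝ) ≤ (m : ℝ) / 1000 := by
    intro x
    refine (card_union4 (a := (univ.filter (fun y : Blk φ => ∃ k, x = .inr k ∧
        Bad (φ (k, 3)) (φ (k, 4)) (inn φ y))).image (fun y => (x, y)))
      (b := (univ : Finset K).image (fun k => (x, (.inr k : Blk φ))))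
      (c := (univ : Finset K).image (fun k => ((.inr k : Blk φ), x)))
      (d := (univ.filter (fun y : Blk φ => ∃ k, x = .inr k ∧
        Bad (φ (k, 0)) (φ (k, 1)) (out φ y))).image (fun y => (y, x)))
      (A := (n : ℝ) / 4000) (B := (n : ℝ) / 10000) (C := (n : ℝ) / 10000) (D := (n : ℝ) / 4000)
      ?_ ?_ ?_ ?_ ?_).trans ?_
    · rintro ⟨y, z⟩ h
      rw [mem_filter] at h
      obtain ⟨h1, h2⟩ := h
      have h1' := (mem_filter.1 h1).2
      simp only [mem_union, mem_image, mem_filter, mem_univ, true_and]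
      rcases h2 with h2 | h2
      · change y = x at h2
        subst h2
        rcases h1' with ⟨k, h3, h4⟩ | ⟨k, h3, h4⟩
        · exact Or.inl ⟨z, ⟨k, h3, h4⟩, rfl⟩
        · change z = .inr k at h3
          exact Or.inr (Or.inl ⟨k, by rw [h3]⟩)
      · change z = x at h2
        subst h2
        rcases h1' with ⟨k, h3, h4⟩ | ⟨k, h3, h4⟩
        · change y = .inr k at h3
          exact Or.inr (Or.inr (Or.inl ⟨k, by rw [h3]⟩))
        · exact Or.inr (Or.inr (Or.inr ⟨y, ⟨k, h3, h4⟩, rfl⟩))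
    · refine le_trans (Nat.cast_le.2 card_image_le) ?_
      rcases x with v | k
      · have : (univ.filter (fun y : Blk φ => ∃ k, (.inl v : Blk φ) = .inr k ∧
            Bad (φ (k, 3)) (φ (k, 4)) (inn φ y))) = ∅ := by
          rw [filter_eq_empty_iff]
          rintro y _ ⟨k, h, _⟩
          exact Sum.inl_ne_inr h
        rw [this, card_empty, Nat.cast_zero]
        positivity
      · refine card_le_of_inj (inn φ) ?_ (fun a _ b _ h => inn_inj φ hφ h) (hb2 k)
        intro a ha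
        obtain ⟨k', h1, h2⟩ := (mem_filter.1 ha).2
        have h1' := Sum.inr_injective h1
        subst h1'
        exact mem_filter.2 ⟨mem_univ _, h2⟩
    · refine le_trans (Nat.cast_le.2 card_image_le) ?_
      rw [card_univ]
      linarith
    · refine le_trans (Nat.cast_le.2 card_image_le) ?_
      rw [card_univ]
      linarith
    · refine le_trans (Nat.cast_le.2 card_image_le) ?_
      rcases x with v | k
      · have : (univ.filter (fun y : Blk φ => ∃ k, (.inl v : Blk φ) = .inr k ∧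
            Bad (φ (k, 0)) (φ (k, 1)) (out φ y))) = ∅ := by
          rw [filter_eq_empty_iff]
          rintro y _ ⟨k, h, _⟩
          exact Sum.inl_ne_inr h
        rw [this, card_empty, Nat.cast_zero]
        positivity
      · refine card_le_of_inj (out φ) ?_ (fun a _ b _ h => out_inj φ hφ h) (hb1 k)
        intro a ha
        obtain ⟨k', h1, h2⟩ := (mem_filter.1 ha).2
        have h1' := Sum.inr_injective h1
        subst h1'
        exact mem_filter.2 ⟨mem_univ _, h2⟩
    · linarith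
  have hA3 : ∀ x, ((R3.filter (In3 x)).card : ℝ) ≤ (m : ℝ) ^ 2 / 1000 := by
    intro x
    have hx1 := ha (out φ x) (hout x)
    have hx2 := ha (inn φ x) (hinn x)
    refine (card_union4 (a := (univ.filter (fun y : Blk φ × Blk φ =>
        Bad (out φ x) (inn φ y.1) (inn φ y.2))).image (fun y => (x, y.1, y.2)))
      (b := (univ.filter (fun y : Blk φ × Blk φ =>
        Bad (inn φ x) (out φ y.1) (inn φ y.2))).image (fun y => (y.1, x, y.2)))
      (c := (univ.filter (fun y : Blk φ × Blk φ =>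
        Bad (inn φ x) (out φ y.1) (inn φ y.2))).image (fun y => (y.1, y.2, x)))
      (d := ∅)
      (A := (n : ℝ) ^ 2 / 4000) (B := (n : ℝ) ^ 2 / 4000) (C := (n : ℝ) ^ 2 / 4000) (D := 0)
      ?_ ?_ ?_ ?_ ?_).trans ?_
    · rintro ⟨y, z, w⟩ h
      rw [mem_filter] at h
      obtain ⟨h1, h2⟩ := h
      have h1' := (mem_filter.1 h1).2.1
      simp only [mem_union, mem_image, mem_filter, mem_univ, true_and]
      rcases h2 with h2 | h2 | h2
      · change y = x at h2
        subst h2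
        exact Or.inl ⟨(z, w), h1', rfl⟩
      · change z = x at h2
        subst h2
        exact Or.inr (Or.inl ⟨(y, w), hs1 _ _ _ h1', rfl⟩)
      · change w = x at h2
        subst h2
        exact Or.inr (Or.inr (Or.inl ⟨(y, z), hs1 _ _ _ (hs2 _ _ _ h1'), rfl⟩))
    · refine le_trans (Nat.cast_le.2 card_image_le) ?_
      refine card_le_of_inj (fun y => (inn φ y.1, inn φ y.2)) ?_ ?_ hx1
      · intro a ha
        exact mem_filter.2 ⟨mem_univ _, (mem_filter.1 ha).2⟩
      · rintro ⟨a, a'⟩ _ ⟨b, b'⟩ _ h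
        have h := Prod.ext_iff.1 h
        exact Prod.ext (inn_inj φ hφ h.1) (inn_inj φ hφ h.2)
    · refine le_trans (Nat.cast_le.2 card_image_le) ?_
      refine card_le_of_inj (fun y => (out φ y.1, inn φ y.2)) ?_ ?_ hx2
      · intro a ha
        exact mem_filter.2 ⟨mem_univ _, (mem_filter.1 ha).2⟩
      · rintro ⟨a, a'⟩ _ ⟨b, b'⟩ _ h
        have h := Prod.ext_iff.1 h
        exact Prod.ext (out_inj φ hφ h.1) (inn_inj φ hφ h.2)
    · refine le_trans (Nat.cast_le.2 card_image_le) ?_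
      refine card_le_of_inj (fun y => (out φ y.1, inn φ y.2)) ?_ ?_ hx2
      · intro a ha
        exact mem_filter.2 ⟨mem_univ _, (mem_filter.1 ha).2⟩
      · rintro ⟨a, a'⟩ _ ⟨b, b'⟩ _ h
        have h := Prod.ext_iff.1 h
        exact Prod.ext (out_inj φ hφ h.1) (inn_inj φ hφ h.2)
    · rw [card_empty]; norm_num
    · nlinarith
  have hA4 : ∀ x, (((∅ : Finset (Blk φ × Blk φ × Blk φ × Blk φ)).filter (In4 x)).card : ℝ) ≤
      (m : ℝ) ^ 2 / 1000 := by
    intro x
    rw [filter_empty, card_empty, Nat.cast_zero]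
    positivity
  have hm100 : 100 ≤ m := by
    have : (100 : ℝ) ≤ m := by linarith
    exact_mod_cast this
  obtain ⟨c, hc2, hc3, -⟩ := cyc_lll m hm hm100 R2 R3 ∅ hA2 hA3 hA4
  obtain ⟨d, hd⟩ := block_expand φ hφ m n hn c
  refine ⟨d, fun t hbad => ?_⟩
  have e2 : t + 2 = t + 1 + 1 := by ring
  rw [e2] at hbad
  rcases hd t with ⟨k, i, hi, h1, h2⟩ | ⟨i, h1, h2⟩ <;>
    rcases hd (t + 1) with ⟨k', i', hi', h3, h4⟩ | ⟨i', h3, h4⟩
  · have h5 := hφ (h2.symm.trans h3)
    obtain ⟨rfl, h7⟩ := Prod.ext_iff.1 h5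
    have h8 : i + 1 = i' := Fin.mk.inj_iff.1 h7
    subst h8
    rw [h1, h2, h4] at hbad
    have hi3 : i = 0 ∨ i = 1 ∨ i = 2 := by omega
    rcases hi3 with rfl | rfl | rfl
    · exact (hc k).1 hbad
    · exact (hc k).2.1 hbad
    · exact (hc k).2.2 hbad
  · rw [h2] at h3
    rcases hci : c i' with v | k'
    · rw [hci] at h3
      exact hfree v _ _ h3.symm
    · rw [hci] at h3
      have h5 := hφ h3
      obtain ⟨rfl, h7⟩ := Prod.ext_iff.1 h5
      have h8 : i + 1 = 4 := Fin.mk.inj_iff.1 h7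
      have h9 : i = 3 := by omega
      subst h9
      rw [h1, h2, h4] at hbad
      refine hc2 i' (mem_filter.2 ⟨mem_univ _, Or.inl ⟨k, hci, hbad⟩⟩)
  · rw [h2] at h3
    rcases hci : c (i + 1) with v | k
    · rw [hci] at h3
      exact hfree v _ _ h3
    · rw [hci] at h3
      have h5 := hφ h3
      obtain ⟨rfl, h7⟩ := Prod.ext_iff.1 h5
      have h8 : 0 = i' := Fin.mk.inj_iff.1 h7
      subst h8
      rw [h1, h2, hci, h4] at hbad
      refine hc2 i (mem_filter.2 ⟨mem_univ _, Or.inr ⟨k, hci, ?_⟩⟩)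
      exact hs2 _ _ _ (hs1 _ _ _ hbad)
  · rw [h2] at h3
    rcases hci : c (i + 1) with v | k
    · rw [hci] at h3
      rcases hci' : c i' with v' | k'
      · rw [hci'] at h3
        have hv : v = v' := Subtype.ext h3
        have hii : i + 1 = i' := c.injective (by rw [hci, hci', hv])
        subst hii
        rw [h1, h2, h4] at hbad
        refine hc3 i (mem_filter.2 ⟨mem_univ _, ?_, v, hci⟩)
        have e3 : i + 2 = i + 1 + 1 := by ring
        change Bad (out φ (c i)) (inn φ (c (i + 1))) (inn φ (c (i + 2)))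
        rw [e3]
        exact hbad
      · rw [hci'] at h3
        exact hfree v _ _ h3
    · rw [hci] at h3
      rcases hci' : c i' with v' | k'
      · rw [hci'] at h3
        exact hfree v' _ _ h3.symm
      · rw [hci'] at h3
        exact hφne k k' _ _ (by decide) h3

end Pool.Agent.Lib.MP_e42343_co
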