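import Pool.Agent.Lib.MP_e42343_co.CoreX

/-!
Application of the local lemma for the pattern `(2,2,1)`.
-/

namespace Pool.Agent.Lib.MP_e42343_co

open Finset Classical

variable {V K : Type} [Fintype V] [Fintype K]

/-- the end vertex with label `s` of a block of length three -/
def endv (φ : K × Fin 3 → V) (p : K × Bool) : V := φ (p.1, if p.2 then 0 else 2)

theorem core_y (n : ℕ) [NeZero n] (hn : Fintype.card V = n) (Bad : V → V → V → V → Prop)
    (hs1 : ∀ x y z w, Bad x y z w → Bad y x z w) (hs2 : ∀ x y z w, Bad x y z w → Bad x z y w)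
    (hs3 : ∀ x y z w, Bad x y z w → Bad x y w z)
    (hd : ∀ x y z w, Bad x y z w → x ≠ y ∧ x ≠ z ∧ x ≠ w ∧ y ≠ z ∧ y ≠ w ∧ z ≠ w)
    (φ : K × Fin 3 → V) (hφ : Function.Injective φ)
    (hA : ∀ z, (∀ k, z ≠ φ (k, 1)) →
      ((univ.filter (fun p : V × V × V => Bad z p.1 p.2.1 p.2.2)).card : ℝ) ≤ (n : ℝ) ^ 2 / 10000)
    (hB : ∀ z, (∀ k, z ≠ φ (k, 1)) →
      ((univ.filter (fun p : (K × Bool) × V =>
        Bad (φ (p.1.1, 1)) (endv φ p.1) z p.2)).card : ℝ) ≤ (n : ℝ) / 4000)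
    (hC : ∀ p p' : K × Bool, p.1 ≠ p'.1 → ¬ Bad (φ (p.1, 1)) (endv φ p) (φ (p'.1, 1)) (endv φ p'))
    (hK : 10000 * Fintype.card K ≤ n) (hn' : 1000 ≤ n) :
    ∃ d : ZMod n ≃ V, ∀ t t', ¬ Bad (d t) (d (t + 1)) (d t') (d (t' + 1)) := by
  obtain ⟨m, hm⟩ : ∃ m, Fintype.card (Blk φ) = m := ⟨_, rfl⟩
  have hcard := card_blk φ hφ
  rw [hm, hn] at hcard
  have hm0 : NeZero m := ⟨by omega⟩
  have hKr : 10000 * (Fintype.card K : ℝ) ≤ n := by exact_mod_cast hK
  have hmr : (m : ℝ) + 2 * (Fintype.card K : ℝ) = n := by exact_mod_cast hcard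
  have hnr : (1000 : ℝ) ≤ n := by exact_mod_cast hn'
  have hK0 : (0 : ℝ) ≤ (Fintype.card K : ℝ) := Nat.cast_nonneg _
  have hmn : (9996 / 10000 : ℝ) * n ≤ m := by linarith
  have hmn' : (m : ℝ) ≤ n := by linarith
  have hfree : ∀ (v : {v : V // v ∉ Set.range φ}) k j, v.1 ≠ φ (k, j) :=
    fun v k j h => v.2 ⟨_, h.symm⟩
  have hφne : ∀ k k' j j', j ≠ j' → φ (k, j) ≠ φ (k', j') :=
    fun k k' j j' hj h => hj (Prod.ext_iff.1 (hφ h)).2
  have hinn : ∀ x : Blk φ, ∀ k, inn φ x ≠ φ (k, 1) := by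
    rintro (v | k') k
    · exact hfree v k 1
    · exact hφne _ _ _ _ (by decide)
  have hout : ∀ x : Blk φ, ∀ k, out φ x ≠ φ (k, 1) := by
    rintro (v | k') k
    · exact hfree v k 1
    · exact hφne _ _ _ _ (by decide)
  -- swapping the two pairs
  have hs4 : ∀ x y z w, Bad x y z w → Bad z w x y := by
    intro x y z w h
    exact hs2 _ _ _ _ (hs3 _ _ _ _ (hs1 _ _ _ _ (hs2 _ _ _ _ h)))
  set R2 : Finset (Blk φ × Blk φ) := univ.filter (fun t =>
    ∃ p : K × Bool, Bad (φ (p.1, 1)) (endv φ p) (out φ t.1) (inn φ t.2)) with hR2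
  set R3 : Finset (Blk φ × Blk φ × Blk φ) := univ.filter (fun t =>
    Bad (out φ t.1) (inn φ t.2.1) (out φ t.2.1) (inn φ t.2.2) ∧ ∃ k, t.2.1 = .inr k) with hR3
  set R4 : Finset (Blk φ × Blk φ × Blk φ × Blk φ) := univ.filter (fun t =>
    Bad (out φ t.1) (inn φ t.2.1) (out φ t.2.2.1) (inn φ t.2.2.2)) with hR4
  have hA2 : ∀ x, ((R2.filter (In2 x)).card : ℝ) ≤ (m : ℝ) / 1000 := by
    intro x
    refine (card_union4 (a := (univ.filter (fun y : Blk φ => ∃ p : K × Bool,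
        Bad (φ (p.1, 1)) (endv φ p) (out φ x) (inn φ y))).image (fun y => (x, y)))
      (b := (univ.filter (fun y : Blk φ => ∃ p : K × Bool,
        Bad (φ (p.1, 1)) (endv φ p) (inn φ x) (out φ y))).image (fun y => (y, x)))
      (c := ∅) (d := ∅)
      (A := (n : ℝ) / 4000) (B := (n : ℝ) / 4000) (C := 0) (D := 0) ?_ ?_ ?_ ?_ ?_).trans ?_
    · rintro ⟨y, z⟩ h
      rw [mem_filter] at h
      obtain ⟨h1, h2⟩ := h
      obtain ⟨p, hp⟩ := (mem_filter.1 h1).2
      simp only [mem_union, mem_image, mem_filter, mem_univ, true_and]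
      rcases h2 with h2 | h2
      · change y = x at h2
        subst h2
        exact Or.inl ⟨z, ⟨p, hp⟩, rfl⟩
      · change z = x at h2
        subst h2
        exact Or.inr (Or.inl ⟨y, ⟨p, hs3 _ _ _ _ hp⟩, rfl⟩)
    · refine le_trans (Nat.cast_le.2 card_image_le) ?_
      refine card_le_of_inj (t := (univ.filter (fun p : (K × Bool) × V =>
        Bad (φ (p.1.1, 1)) (endv φ p.1) (out φ x) p.2)).image Prod.snd) (inn φ) ?_
        (fun a _ b _ h => inn_inj φ hφ h)
        (le_trans (Nat.cast_le.2 card_image_le) (hB (out φ x) (hout x)))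
      intro y hy
      obtain ⟨p, hp⟩ := (mem_filter.1 hy).2
      exact mem_image.2 ⟨(p, inn φ y), mem_filter.2 ⟨mem_univ _, hp⟩, rfl⟩
    · refine le_trans (Nat.cast_le.2 card_image_le) ?_
      refine card_le_of_inj (t := (univ.filter (fun p : (K × Bool) × V =>
        Bad (φ (p.1.1, 1)) (endv φ p.1) (inn φ x) p.2)).image Prod.snd) (out φ) ?_
        (fun a _ b _ h => out_inj φ hφ h)
        (le_trans (Nat.cast_le.2 card_image_le) (hB (inn φ x) (hinn x)))
      intro y hy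
      obtain ⟨p, hp⟩ := (mem_filter.1 hy).2
      exact mem_image.2 ⟨(p, out φ y), mem_filter.2 ⟨mem_univ _, hp⟩, rfl⟩
    · rw [card_empty, Nat.cast_zero]
    · rw [card_empty, Nat.cast_zero]
    · linarith
  have hA3 : ∀ x, ((R3.filter (In3 x)).card : ℝ) ≤ (m : ℝ) ^ 2 / 1000 := by
    intro x
    refine (card_union4
      (a := ((univ : Finset (K × Blk φ))).image (fun y => (x, (.inr y.1 : Blk φ), y.2)))
      (b := ((univ : Finset (K × Blk φ))).image (fun y => (y.2, (.inr y.1 : Blk φ), x)))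
      (c := (univ.filter (fun y : Blk φ × Blk φ => ∃ k, x = .inr k ∧
        Bad (φ (k, 0)) (φ (k, 2)) (out φ y.1) (inn φ y.2))).image (fun y => (y.1, x, y.2)))
      (d := ∅)
      (A := (Fintype.card K : ℝ) * m) (B := (Fintype.card K : ℝ) * m)
      (C := (n : ℝ) ^ 2 / 10000) (D := 0)
      ?_ ?_ ?_ ?_ ?_).trans ?_
    · rintro ⟨y, z, w⟩ h
      rw [mem_filter] at h
      obtain ⟨h1, h2⟩ := h
      obtain ⟨h1', k, hk⟩ := (mem_filter.1 h1).2
      change z = .inr k at hk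
      subst hk
      simp only [mem_union, mem_image, mem_filter, mem_univ, true_and]
      rcases h2 with h2 | h2 | h2
      · change y = x at h2
        subst h2
        exact Or.inl ⟨(k, w), rfl⟩
      · change .inr k = x at h2
        subst h2
        refine Or.inr (Or.inr (Or.inl ⟨(y, w), ⟨k, rfl, ?_⟩, rfl⟩))
        exact hs2 _ _ _ _ (hs1 _ _ _ _ h1')
      · change w = x at h2
        subst h2
        exact Or.inr (Or.inl ⟨(k, y), rfl⟩)
    · refine le_trans (Nat.cast_le.2 card_image_le) ?_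
      rw [card_univ, Fintype.card_prod, hm, Nat.cast_mul]
    · refine le_trans (Nat.cast_le.2 card_image_le) ?_
      rw [card_univ, Fintype.card_prod, hm, Nat.cast_mul]
    · refine le_trans (Nat.cast_le.2 card_image_le) ?_
      rcases x with v | k
      · have : (univ.filter (fun y : Blk φ × Blk φ => ∃ k, (.inl v : Blk φ) = .inr k ∧
            Bad (φ (k, 0)) (φ (k, 2)) (out φ y.1) (inn φ y.2))) = ∅ := by
          rw [filter_eq_empty_iff]
          rintro y _ ⟨k, h, _⟩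
          exact Sum.inl_ne_inr h
        rw [this, card_empty, Nat.cast_zero]
        positivity
      · refine card_le_of_inj (fun y => (φ (k, 2), out φ y.1, inn φ y.2)) ?_ ?_
          (hA (φ (k, 0)) (fun k' => hφne _ _ _ _ (by decide)))
        · intro a ha
          obtain ⟨k', h1, h2⟩ := (mem_filter.1 ha).2
          have h1' := Sum.inr_injective h1
          subst h1'
          exact mem_filter.2 ⟨mem_univ _, h2⟩
        · rintro ⟨a, a'⟩ _ ⟨b, b'⟩ _ h
          have h := Prod.ext_iff.1 (Prod.ext_iff.1 h).2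
          exact Prod.ext (out_inj φ hφ h.1) (inn_inj φ hφ h.2)
    · rw [card_empty, Nat.cast_zero]
    · have h1 : (Fintype.card K : ℝ) * m ≤ ((n : ℝ) / 10000) * n :=
        mul_le_mul (by linarith) hmn' (by positivity) (by positivity)
      nlinarith
  have hA4 : ∀ x, ((R4.filter (In4 x)).card : ℝ) ≤ (m : ℝ) ^ 2 / 1000 := by
    intro x
    have hx1 := hA (out φ x) (hout x)
    have hx2 := hA (inn φ x) (hinn x)
    refine (card_union4
      (a := (univ.filter (fun y : Blk φ × Blk φ × Blk φ =>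
        Bad (out φ x) (inn φ y.1) (out φ y.2.1) (inn φ y.2.2))).image
          (fun y => (x, y.1, y.2.1, y.2.2)))
      (b := (univ.filter (fun y : Blk φ × Blk φ × Blk φ =>
        Bad (inn φ x) (out φ y.1) (out φ y.2.1) (inn φ y.2.2))).image
          (fun y => (y.1, x, y.2.1, y.2.2)))
      (c := (univ.filter (fun y : Blk φ × Blk φ × Blk φ =>
        Bad (out φ x) (inn φ y.1) (out φ y.2.1) (inn φ y.2.2))).image
          (fun y => (y.2.1, y.2.2, x, y.1)))
      (d := (univ.filter (fun y : Blk φ × Blk φ × Blk φ =>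
        Bad (inn φ x) (out φ y.1) (out φ y.2.1) (inn φ y.2.2))).image
          (fun y => (y.2.1, y.2.2, y.1, x)))
      (A := (n : ℝ) ^ 2 / 10000) (B := (n : ℝ) ^ 2 / 10000)
      (C := (n : ℝ) ^ 2 / 10000) (D := (n : ℝ) ^ 2 / 10000)
      ?_ ?_ ?_ ?_ ?_).trans ?_
    · rintro ⟨y, z, w, v⟩ h
      rw [mem_filter] at h
      obtain ⟨h1, h2⟩ := h
      have h1' := (mem_filter.1 h1).2
      simp only [mem_union, mem_image, mem_filter, mem_univ, true_and]
      rcases h2 with h2 | h2 | h2 | h2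
      · change y = x at h2
        subst h2
        exact Or.inl ⟨(z, w, v), h1', rfl⟩
      · change z = x at h2
        subst h2
        exact Or.inr (Or.inl ⟨(y, w, v), hs1 _ _ _ _ h1', rfl⟩)
      · change w = x at h2
        subst h2
        exact Or.inr (Or.inr (Or.inl ⟨(v, y, z), hs4 _ _ _ _ h1', rfl⟩))
      · change v = x at h2
        subst h2
        exact Or.inr (Or.inr (Or.inr ⟨(w, y, z), hs1 _ _ _ _ (hs4 _ _ _ _ h1'), rfl⟩))
    · refine le_trans (Nat.cast_le.2 card_image_le) ?_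
      refine card_le_of_inj (fun y => (inn φ y.1, out φ y.2.1, inn φ y.2.2)) ?_ ?_ hx1
      · intro a ha
        exact mem_filter.2 ⟨mem_univ _, (mem_filter.1 ha).2⟩
      · rintro ⟨a, a', a''⟩ _ ⟨b, b', b''⟩ _ h
        have h1 := Prod.ext_iff.1 h
        have h2 := Prod.ext_iff.1 h1.2
        exact Prod.ext (inn_inj φ hφ h1.1) (Prod.ext (out_inj φ hφ h2.1) (inn_inj φ hφ h2.2))
    · refine le_trans (Nat.cast_le.2 card_image_le) ?_
      refine card_le_of_inj (fun y => (out φ y.1, out φ y.2.1, inn φ y.2.2)) ?_ ?_ hx2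
      · intro a ha
        exact mem_filter.2 ⟨mem_univ _, (mem_filter.1 ha).2⟩
      · rintro ⟨a, a', a''⟩ _ ⟨b, b', b''⟩ _ h
        have h1 := Prod.ext_iff.1 h
        have h2 := Prod.ext_iff.1 h1.2
        exact Prod.ext (out_inj φ hφ h1.1) (Prod.ext (out_inj φ hφ h2.1) (inn_inj φ hφ h2.2))
    · refine le_trans (Nat.cast_le.2 card_image_le) ?_
      refine card_le_of_inj (fun y => (inn φ y.1, out φ y.2.1, inn φ y.2.2)) ?_ ?_ hx1
      · intro a ha
        exact mem_filter.2 ⟨mem_univ _, (mem_filter.1 ha).2⟩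
      · rintro ⟨a, a', a''⟩ _ ⟨b, b', b''⟩ _ h
        have h1 := Prod.ext_iff.1 h
        have h2 := Prod.ext_iff.1 h1.2
        exact Prod.ext (inn_inj φ hφ h1.1) (Prod.ext (out_inj φ hφ h2.1) (inn_inj φ hφ h2.2))
    · refine le_trans (Nat.cast_le.2 card_image_le) ?_
      refine card_le_of_inj (fun y => (out φ y.1, out φ y.2.1, inn φ y.2.2)) ?_ ?_ hx2
      · intro a ha
        exact mem_filter.2 ⟨mem_univ _, (mem_filter.1 ha).2⟩
      · rintro ⟨a, a', a''⟩ _ ⟨b, b', b''⟩ _ h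
        have h1 := Prod.ext_iff.1 h
        have h2 := Prod.ext_iff.1 h1.2
        exact Prod.ext (out_inj φ hφ h1.1) (Prod.ext (out_inj φ hφ h2.1) (inn_inj φ hφ h2.2))
    · nlinarith
  have hm100 : 100 ≤ m := by
    have : (100 : ℝ) ≤ m := by linarith
    exact_mod_cast this
  obtain ⟨c, hc2, hc3, hc4⟩ := cyc_lll m hm hm100 R2 R3 R4 hA2 hA3 hA4
  obtain ⟨d, hdd⟩ := block_expand φ hφ m n hn c
  -- internal edges in terms of endv
  have hint : ∀ x y, (∃ k : K, ∃ i : ℕ, ∃ hi : i + 1 < 2 + 1,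
      x = φ (k, ⟨i, Nat.lt_of_succ_lt hi⟩) ∧ y = φ (k, ⟨i + 1, hi⟩)) →
      ∃ p : K × Bool, (x = φ (p.1, 1) ∧ y = endv φ p) ∨ (x = endv φ p ∧ y = φ (p.1, 1)) := by
    rintro x y ⟨k, i, hi, h1, h2⟩
    have hi2 : i = 0 ∨ i = 1 := by omega
    rcases hi2 with rfl | rfl
    · exact ⟨(k, true), Or.inr ⟨h1, h2⟩⟩
    · exact ⟨(k, false), Or.inl ⟨h1, h2⟩⟩
  have hnorm : ∀ p : K × Bool, ∀ x y z w, (x = φ (p.1, 1) ∧ y = endv φ p) ∨
      (x = endv φ p ∧ y = φ (p.1, 1)) → Bad x y z w → Bad (φ (p.1, 1)) (endv φ p) z w := by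
    rintro p x y z w (⟨h1, h2⟩ | ⟨h1, h2⟩) hb
    · rw [← h1, ← h2]; exact hb
    · rw [← h1, ← h2]; exact hs1 _ _ _ _ hb
  refine ⟨d, fun t t' hbad => ?_⟩
  rcases hdd t with h | ⟨i, h1, h2⟩ <;> rcases hdd t' with h' | ⟨i', h3, h4⟩
  · obtain ⟨p, hp⟩ := hint _ _ h
    obtain ⟨p', hp'⟩ := hint _ _ h'
    have hb1 := hnorm p _ _ _ _ hp hbad
    have hb2 := hnorm p' _ _ _ _ hp' (hs4 _ _ _ _ hb1)
    by_cases hpp : p.1 = p'.1
    · have := (hd _ _ _ _ hb2).2.1
      rw [hpp] at this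
      exact this rfl
    · exact hC p' p (fun h => hpp h.symm) hb2
  · obtain ⟨p, hp⟩ := hint _ _ h
    have hb1 := hnorm p _ _ _ _ hp hbad
    rw [h3, h4] at hb1
    exact hc2 i' (mem_filter.2 ⟨mem_univ _, p, hb1⟩)
  · obtain ⟨p, hp⟩ := hint _ _ h'
    have hb1 := hnorm p _ _ _ _ hp (hs4 _ _ _ _ hbad)
    rw [h1, h2] at hb1
    exact hc2 i (mem_filter.2 ⟨mem_univ _, p, hb1⟩)
  · rw [h1, h2, h3, h4] at hbad
    have hdis := hd _ _ _ _ hbad
    by_cases e1 : i = i'
    · subst e1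
      exact hdis.2.1 rfl
    by_cases e2 : i + 1 = i'
    · subst e2
      rcases hci : c (i + 1) with v | k
      · rw [hci] at hdis
        exact hdis.2.2.2.1 rfl
      · refine hc3 i (mem_filter.2 ⟨mem_univ _, ?_, k, hci⟩)
        have e3 : i + 2 = i + 1 + 1 := by ring
        change Bad (out φ (c i)) (inn φ (c (i + 1))) (out φ (c (i + 1))) (inn φ (c (i + 2)))
        rw [e3]
        exact hbad
    by_cases e3 : i = i' + 1
    · subst e3
      rcases hci : c (i' + 1) with v | k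
      · rw [hci] at hdis
        exact hdis.2.2.1 rfl
      · refine hc3 i' (mem_filter.2 ⟨mem_univ _, ?_, k, hci⟩)
        have e3 : i' + 2 = i' + 1 + 1 := by ring
        change Bad (out φ (c i')) (inn φ (c (i' + 1))) (out φ (c (i' + 1))) (inn φ (c (i' + 2)))
        rw [e3]
        exact hs4 _ _ _ _ hbad
    exact hc4 i i' e1 e2 e3 (mem_filter.2 ⟨mem_univ _, hbad⟩)

end Pool.Agent.Lib.MP_e42343_co
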