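import Mathlib

/-!
Definitions: Hamilton cycles acceptable for interval patterns.
-/

namespace Pool.Agent.Lib.MP_e42343_co

/-- The set `{c_{t+1}, c_{t+2}, …, c_{t+len}}` of `len` consecutive elements of the cyclic
ordering `c`. -/
def interval {n : ℕ} (c : ZMod n ≃ Fin n) (t : ZMod n) (len : ℕ) : Finset (Fin n) :=
  (Finset.Icc 1 len).image (fun j : ℕ => c (t + (j : ZMod n)))

/-- The Hamilton cycle given by the cyclic ordering `c` is `x`-acceptable for `F`: no member of
`F` is a union of intervals of lengths `x_1, …, x_k`. -/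
def Acceptable {n : ℕ} (F : Finset (Finset (Fin n))) (x : List ℕ) (c : ZMod n ≃ Fin n) : Prop :=
  ∀ t : Fin x.length → ZMod n,
    (Finset.univ.biUnion fun i => interval c (t i) (x.get i)) ∉ F

/-- `m(x, n)`: the least size of a family `F` of `r`-subsets of an `n`-set, `r = ∑ x_i`, without
an `x`-acceptable Hamilton cycle. -/
noncomputable def m (x : List ℕ) (n : ℕ) : ℕ :=
  sInf {k : ℕ | ∃ F : Finset (Finset (Fin n)), (∀ A ∈ F, A.card = x.sum) ∧ F.card = k ∧
    ∀ c : ZMod n ≃ Fin n, ¬ Acceptable F x c}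

/-- `m(x, y, n)`: the least size of a family `F` of `r`-subsets of an `n`-set, `r = ∑ x_i`,
without a Hamilton cycle that is both `x`-acceptable and `y`-acceptable. -/
noncomputable def m₂ (x y : List ℕ) (n : ℕ) : ℕ :=
  sInf {k : ℕ | ∃ F : Finset (Finset (Fin n)), (∀ A ∈ F, A.card = x.sum) ∧ F.card = k ∧
    ∀ c : ZMod n ≃ Fin n, ¬ (Acceptable F x c ∧ Acceptable F y c)}

end Pool.Agent.Lib.MP_e42343_co
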