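import Pool.Agent.Lib.MP_e42343_co.KeyIneq

/-!
Density of the good choices in the product space.
-/

namespace Pool.Agent.Lib.MP_e42343_co

open Finset Classical

variable {V : Type} [Fintype V]

/-- membership after inserting the value of `a` -/
def MemS {β : Type} {N : ℕ} (X : Finset (Fin N × (V × β))) (a : Fin N → V) (p : Fin N × β) : Prop :=
  (p.1, (a p.1, p.2)) ∈ X

/-- membership after inserting two values of `a` -/
def MemP {N : ℕ} (X : Finset ((Fin N × Fin N) × (V × V))) (a : Fin N → V) (q : Fin N × Fin N) :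
    Prop := (q, (a q.1, a q.2)) ∈ X

lemma l_single {β : Type} [Fintype β] {N : ℕ} (X : Finset (Fin N × (V × β))) :
    Fintype.card V * (univ.filter (fun q : (Fin N → V) × (Fin N × β) =>
      MemS X q.1 q.2)).card ≤ X.card * Fintype.card V ^ N := by
  have e : Fintype.card V ^ N = (univ : Finset (Fin N → V)).card := by
    rw [card_univ, Fintype.card_fun, Fintype.card_fin]
  have e' : Fintype.card V = (univ : Finset V).card := card_univ.symm
  rw [e]
  conv_lhs => rw [e']
  rw [← card_product, ← card_product]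
  refine card_le_card_of_injOn
    (fun q => ((q.2.2.1, (q.2.1 q.2.2.1, q.2.2.2)), Function.update q.2.1 q.2.2.1 q.1)) ?_ ?_
  · rintro ⟨v, a, i, y⟩ h
    rw [mem_coe, mem_product, mem_filter] at h
    exact mem_coe.2 (mem_product.2 ⟨h.2.2, mem_univ _⟩)
  · rintro ⟨v, a, i, y⟩ _ ⟨v', a', i', y'⟩ _ h
    have h1 := Prod.ext_iff.1 h
    have h2 := Prod.ext_iff.1 h1.1
    have h3 := Prod.ext_iff.1 h2.2
    have hi : i = i' := h2.1
    subst hi
    have hai : a i = a' i := h3.1
    have hy : y = y' := h3.2
    have hu : Function.update a i v = Function.update a' i v' := h1.2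
    have hv : v = v' := by
      have := congrFun hu i
      rwa [Function.update_self, Function.update_self] at this
    have ha : a = a' := by
      funext k
      by_cases hk : k = i
      · subst hk; exact hai
      · have := congrFun hu k
        rwa [Function.update_of_ne hk, Function.update_of_ne hk] at this
    rw [hv, ha, hy]

lemma l_pair {N : ℕ} (X : Finset ((Fin N × Fin N) × (V × V))) (hX : ∀ q ∈ X, q.1.1 ≠ q.1.2) :
    Fintype.card V ^ 2 * (univ.filter (fun q : (Fin N → V) × (Fin N × Fin N) =>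
      MemP X q.1 q.2)).card ≤ X.card * Fintype.card V ^ N := by
  have e : Fintype.card V ^ N = (univ : Finset (Fin N → V)).card := by
    rw [card_univ, Fintype.card_fun, Fintype.card_fin]
  have e' : Fintype.card V ^ 2 = (univ : Finset (V × V)).card := by
    rw [card_univ, Fintype.card_prod, sq]
  rw [e, e', ← card_product, ← card_product]
  refine card_le_card_of_injOn
    (fun q => ((q.2.2, (q.2.1 q.2.2.1, q.2.1 q.2.2.2)),
      Function.update (Function.update q.2.1 q.2.2.1 q.1.1) q.2.2.2 q.1.2)) ?_ ?_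
  · rintro ⟨v, a, i⟩ h
    rw [mem_coe, mem_product, mem_filter] at h
    exact mem_coe.2 (mem_product.2 ⟨h.2.2, mem_univ _⟩)
  · rintro ⟨⟨v1, v2⟩, a, ⟨i, j⟩⟩ hq ⟨⟨v1', v2'⟩, a', ⟨i', j'⟩⟩ _ h
    rw [mem_coe, mem_product, mem_filter] at hq
    have hij : i ≠ j := hX _ hq.2.2
    have h1 := Prod.ext_iff.1 h
    have h2 := Prod.ext_iff.1 h1.1
    have h3 := Prod.ext_iff.1 h2.2
    have h4 := Prod.ext_iff.1 h2.1
    have hi : i = i' := h4.1
    have hj : j = j' := h4.2
    subst hi
    subst hj
    have hai : a i = a' i := h3.1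
    have haj : a j = a' j := h3.2
    have hu : Function.update (Function.update a i v1) j v2 =
      Function.update (Function.update a' i v1') j v2' := h1.2
    have hv2 : v2 = v2' := by
      have := congrFun hu j
      rwa [Function.update_self, Function.update_self] at this
    have hv1 : v1 = v1' := by
      have := congrFun hu i
      rwa [Function.update_of_ne hij, Function.update_of_ne hij, Function.update_self,
        Function.update_self] at this
    have ha : a = a' := by
      funext k
      by_cases hk : k = i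
      · subst hk; exact hai
      · by_cases hk' : k = j
        · subst hk'; exact haj
        · have := congrFun hu k
          rwa [Function.update_of_ne hk', Function.update_of_ne hk', Function.update_of_ne hk,
            Function.update_of_ne hk] at this
    rw [hv1, hv2, ha]

/-- Good choices. -/
noncomputable def goodSet {N : ℕ} (n : ℝ) (X1 : Finset ((Fin N × Fin N) × (V × V)))
    (X2 : Finset (Fin N × (V × V))) (X3 : Finset (Fin N × (V × (V × V))))
    (X4 : Finset (Fin N × (V × Unit))) : Finset (Fin N → V) :=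
  univ.filter (fun a => (∀ q : Fin N × Fin N, ¬ MemP X1 a q) ∧
    ((univ.filter (MemS X2 a)).card : ℝ) ≤ 49 / 100 * n ∧
    ((univ.filter (MemS X3 a)).card : ℝ) ≤ 4000 * n ∧
    (∀ i, ¬ MemS X4 a (i, ())))

lemma single_markov {β : Type} [Fintype β] {N : ℕ} (X : Finset (Fin N × (V × β))) (n C : ℝ)
    (hn : n = Fintype.card V) (hn0 : 0 < n) (hC : 0 < C) :
    ((univ.filter (fun a : Fin N → V => C * n <
      ((univ.filter (MemS X a)).card : ℝ))).card : ℝ) ≤
      X.card / (C * n ^ 2) * n ^ N := by
  have h2 := l_single X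
  have h3 : n * ((univ.filter (fun q : (Fin N → V) × (Fin N × β) =>
    MemS X q.1 q.2)).card : ℝ) ≤ X.card * n ^ N := by
    rw [hn]; exact_mod_cast h2
  have h4 := markov (fun (a : Fin N → V) (p : Fin N × β) => MemS X a p)
    (C * n) (X.card * n ^ N / n) (by positivity) (by
      rw [le_div_iff₀ hn0]
      linarith)
  refine h4.trans (le_of_eq ?_)
  field_simp

theorem density [Nonempty V] {N : ℕ} (n : ℝ) (hn : n = Fintype.card V)
    (X1 : Finset ((Fin N × Fin N) × (V × V)))
    (X2 : Finset (Fin N × (V × V))) (X3 : Finset (Fin N × (V × (V × V))))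
    (X4 : Finset (Fin N × (V × Unit))) (hX1 : ∀ q ∈ X1, q.1.1 ≠ q.1.2)
    (h : (X1.card : ℝ) / n ^ 2 + (X2.card : ℝ) / (49 / 100 * n ^ 2) +
      (X3.card : ℝ) / (4000 * n ^ 2) + (X4.card : ℝ) / n ≤ 98 / 100) :
    (2 / 100) * n ^ N ≤ (goodSet n X1 X2 X3 X4).card := by
  have hn0 : 0 < n := by
    rw [hn]; exact_mod_cast Fintype.card_pos
  set E1 : Finset (Fin N → V) := univ.filter (fun a => ∃ q : Fin N × Fin N, MemP X1 a q) with hE1
  set E2 : Finset (Fin N → V) := univ.filter (fun a => 49 / 100 * n <
    ((univ.filter (MemS X2 a)).card : ℝ)) with hE2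
  set E3 : Finset (Fin N → V) := univ.filter (fun a => 4000 * n <
    ((univ.filter (MemS X3 a)).card : ℝ)) with hE3
  set E4 : Finset (Fin N → V) := univ.filter (fun a => ∃ i, MemS X4 a (i, ())) with hE4
  have hnN : (0 : ℝ) < n ^ N := by positivity
  have b1 : (E1.card : ℝ) ≤ X1.card / n ^ 2 * n ^ N := by
    have h1 : E1.card ≤ (univ.filter (fun q : (Fin N → V) × (Fin N × Fin N) =>
      MemP X1 q.1 q.2)).card := by
      refine le_trans (card_le_card (t := (univ.filter (fun q : (Fin N → V) × (Fin N × Fin N) =>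
        MemP X1 q.1 q.2)).image Prod.fst) ?_) card_image_le
      intro a ha
      obtain ⟨q, hq⟩ := (mem_filter.1 ha).2
      exact mem_image.2 ⟨(a, q), mem_filter.2 ⟨mem_univ _, hq⟩, rfl⟩
    have h2 := (Nat.mul_le_mul_left (Fintype.card V ^ 2) h1).trans (l_pair X1 hX1)
    have h3 : n ^ 2 * E1.card ≤ X1.card * n ^ N := by rw [hn]; exact_mod_cast h2
    rw [div_mul_eq_mul_div, le_div_iff₀ (by positivity)]
    linarith
  have b2 : (E2.card : ℝ) ≤ X2.card / (49 / 100 * n ^ 2) * n ^ N :=
    single_markov X2 n (49 / 100) hn hn0 (by norm_num)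
  have b3 : (E3.card : ℝ) ≤ X3.card / (4000 * n ^ 2) * n ^ N :=
    single_markov X3 n 4000 hn hn0 (by norm_num)
  have b4 : (E4.card : ℝ) ≤ X4.card / n * n ^ N := by
    have h1 : E4.card ≤ (univ.filter (fun q : (Fin N → V) × (Fin N × Unit) =>
      MemS X4 q.1 q.2)).card := by
      refine le_trans (card_le_card (t := (univ.filter (fun q : (Fin N → V) × (Fin N × Unit) =>
        MemS X4 q.1 q.2)).image Prod.fst) ?_) card_image_le
      intro a ha
      obtain ⟨i, hi⟩ := (mem_filter.1 ha).2
      exact mem_image.2 ⟨(a, (i, ())), mem_filter.2 ⟨mem_univ _, hi⟩, rfl⟩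
    have h2 := (Nat.mul_le_mul_left (Fintype.card V) h1).trans (l_single X4)
    have h3 : n * E4.card ≤ X4.card * n ^ N := by rw [hn]; exact_mod_cast h2
    rw [div_mul_eq_mul_div, le_div_iff₀ (by positivity)]
    linarith
  have hcov : (univ : Finset (Fin N → V)) ⊆ goodSet n X1 X2 X3 X4 ∪ (E1 ∪ (E2 ∪ (E3 ∪ E4))) := by
    intro a _
    by_contra hcon
    simp only [mem_union, not_or] at hcon
    obtain ⟨c1, c2, c3, c4, c5⟩ := hcon
    apply c1
    refine mem_filter.2 ⟨mem_univ _, ?_, ?_, ?_, ?_⟩
    · intro q hq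
      exact c2 (mem_filter.2 ⟨mem_univ _, q, hq⟩)
    · by_contra hc
      push Not at hc
      exact c3 (mem_filter.2 ⟨mem_univ _, hc⟩)
    · by_contra hc
      push Not at hc
      exact c4 (mem_filter.2 ⟨mem_univ _, hc⟩)
    · intro i hi
      exact c5 (mem_filter.2 ⟨mem_univ _, i, hi⟩)
  have h1 := (card_le_card hcov).trans ((card_union_le _ _).trans (Nat.add_le_add_left
    ((card_union_le _ _).trans (Nat.add_le_add_left
    ((card_union_le _ _).trans (Nat.add_le_add_left
    (card_union_le _ _) _)) _)) _))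
  rw [card_univ, Fintype.card_fun, Fintype.card_fin] at h1
  have h2 : n ^ N ≤ (goodSet n X1 X2 X3 X4).card + (E1.card + (E2.card + ((E3.card : ℝ) +
      E4.card))) := by
    rw [hn] at h1 ⊢
    exact_mod_cast h1
  have h3 := mul_le_mul_of_nonneg_right h hnN.le
  rw [add_mul, add_mul, add_mul] at h3
  linarith

end Pool.Agent.Lib.MP_e42343_co
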