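import Mathlib

/-!
From a cyclic arrangement of blocks to a cyclic arrangement of vertices.
-/

namespace Pool.Agent.Lib.MP_e42343_co

open Classical

theorem expand {V X : Type} [Fintype V] (m n : ℕ) [NeZero m] [NeZero n]
    (hn : Fintype.card V = n)
    (L : X → List V) (hne : ∀ x, L x ≠ []) (hnd : ∀ x, (L x).Nodup)
    (hdisj : ∀ x y, x ≠ y → List.Disjoint (L x) (L y)) (hcov : ∀ v, ∃ x, v ∈ L x)
    (c : ZMod m ≃ X) (R : V → V → Prop) (h1 : ∀ x, List.IsChain R (L x))
    (h2 : ∀ i, ∀ v ∈ (L (c i)).getLast?, ∀ w ∈ (L (c (i + 1))).head?, R v w) :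
    ∃ d : ZMod n ≃ V, ∀ t, R (d t) (d (t + 1)) := by
  have hm : 0 < m := Nat.pos_of_ne_zero (NeZero.ne m)
  have hn0 : 0 < n := Nat.pos_of_ne_zero (NeZero.ne n)
  set LL : List (List V) := List.ofFn (fun i : Fin m => L (c (i.val : ZMod m))) with hLL
  set l := LL.flatten with hl
  have hnil : [] ∉ LL := by
    rw [hLL, List.mem_ofFn]
    rintro ⟨i, hi⟩
    exact hne _ hi
  have hnodup : l.Nodup := by
    rw [hl, List.nodup_flatten]
    constructor
    · intro k hk
      rw [hLL, List.mem_ofFn] at hk
      obtain ⟨i, rfl⟩ := hk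
      exact hnd _
    · rw [hLL, List.pairwise_ofFn]
      intro i j hij
      refine hdisj _ _ (fun h => ?_)
      have h' : ((i.val : ℕ) : ZMod m) = ((j.val : ℕ) : ZMod m) := c.injective h
      have := congrArg ZMod.val h'
      rw [ZMod.val_natCast_of_lt i.2, ZMod.val_natCast_of_lt j.2] at this
      exact absurd this (Nat.ne_of_lt hij)
  have hmem : ∀ v, v ∈ l := by
    intro v
    obtain ⟨x, hx⟩ := hcov v
    rw [hl, List.mem_flatten]
    refine ⟨L x, ?_, hx⟩
    rw [hLL, List.mem_ofFn]
    refine ⟨⟨(c.symm x).val, ZMod.val_lt _⟩, ?_⟩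
    change L (c (((c.symm x).val : ℕ) : ZMod m)) = L x
    rw [ZMod.natCast_zmod_val, Equiv.apply_symm_apply]
  have hlen : l.length = n := by
    have := Fintype.card_congr (hnodup.getEquivOfForallMemList l hmem)
    rw [Fintype.card_fin, hn] at this
    exact this
  have hchain : List.IsChain R l := by
    rw [hl, List.isChain_flatten hnil]
    constructor
    · intro k hk
      rw [hLL, List.mem_ofFn] at hk
      obtain ⟨i, rfl⟩ := hk
      exact h1 _
    · rw [hLL, List.isChain_ofFn]
      intro i hi v hv w hw
      refine h2 (i : ZMod m) v hv w ?_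
      have : ((i + 1 : ℕ) : ZMod m) = (i : ZMod m) + 1 := by push_cast; rfl
      rw [← this]
      exact hw
  have hlne : l ≠ [] := by
    intro h
    rw [h] at hlen
    simp at hlen
    omega
  have hwrap : R (l.getLast hlne) (l.head hlne) := by
    -- decompose the list of lists
    have hLLne : LL ≠ [] := by
      intro h
      apply hlne
      rw [hl, h]; rfl
    have hlast : l.getLast? = (LL.getLast hLLne).getLast? := by
      have h3 : LL = LL.dropLast ++ [LL.getLast hLLne] := (List.dropLast_append_getLast hLLne).symm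
      rw [hl]
      conv_lhs => rw [h3]
      rw [List.flatten_append, List.flatten_singleton, List.getLast?_append_of_ne_nil]
      intro h
      exact hnil (h ▸ List.getLast_mem hLLne)
    have hhead : l.head? = (LL.head hLLne).head? := by
      have h3 : LL = LL.head hLLne :: LL.tail := (List.cons_head_tail hLLne).symm
      rw [hl]
      conv_lhs => rw [h3]
      rw [List.flatten_cons, List.head?_append_of_ne_nil]
      intro h
      exact hnil (h ▸ List.head_mem hLLne)
    have e1 : LL.getLast hLLne = L (c ((m - 1 : ℕ) : ZMod m)) := by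
      rw [List.getLast_eq_getElem]
      simp only [hLL, List.getElem_ofFn, List.length_ofFn]
    have e2 : LL.head hLLne = L (c 0) := by
      rw [List.head_eq_getElem]
      simp only [hLL, List.getElem_ofFn, Nat.cast_zero]
    have e3 : ((m - 1 : ℕ) : ZMod m) + 1 = 0 := by
      have : ((m - 1 + 1 : ℕ) : ZMod m) = 0 := by
        rw [Nat.sub_add_cancel hm, ZMod.natCast_self]
      rw [← this]
      push_cast
      rfl
    refine h2 ((m - 1 : ℕ) : ZMod m) _ ?_ _ ?_
    · rw [← e1, ← hlast, List.getLast?_eq_getLast_of_ne_nil hlne]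
      rfl
    · rw [e3, ← e2, ← hhead, List.head?_eq_some_head hlne]
      rfl
  have hlt : ∀ t : ZMod n, t.val < l.length := fun t => by rw [hlen]; exact ZMod.val_lt t
  refine ⟨Equiv.ofBijective (fun t : ZMod n => l.get ⟨t.val, hlt t⟩) ?_, ?_⟩
  · rw [Fintype.bijective_iff_injective_and_card]
    constructor
    · intro t t' h
      have := (List.Nodup.get_inj_iff hnodup).1 h
      exact ZMod.val_injective n (Fin.mk.inj_iff.1 this)
    · rw [ZMod.card, hn]
  · intro t
    change R (l.get ⟨t.val, hlt t⟩) (l.get ⟨(t + 1).val, hlt (t + 1)⟩)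
    have hval : (t + 1).val = (t.val + 1) % n := by
      have : t + 1 = ((t.val + 1 : ℕ) : ZMod n) := by
        push_cast
        rw [ZMod.natCast_zmod_val]
      rw [this, ZMod.val_natCast]
    rcases Nat.lt_or_ge (t.val + 1) n with h | h
    · rw [Nat.mod_eq_of_lt h] at hval
      have h5 := List.isChain_iff_getElem.1 hchain t.val (by rw [hlen]; exact h)
      simp only [List.get_eq_getElem, hval]
      exact h5
    · have h6 : t.val + 1 = n := le_antisymm (ZMod.val_lt t) h
      rw [h6, Nat.mod_self] at hval
      have h7 : t.val = l.length - 1 := by rw [hlen]; omega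
      simp only [List.get_eq_getElem, hval, h7]
      rw [List.getLast_eq_getElem, List.head_eq_getElem] at hwrap
      exact hwrap

end Pool.Agent.Lib.MP_e42343_co
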