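import Pool.Agent.Lib.MP_e42343_co.Box

/-!
The key counting inequality for the pattern `(2,2,1)`.
-/

namespace Pool.Agent.Lib.MP_e42343_co

open Finset Classical

variable {V : Type} [Fintype V]

/-- four distinct vertices in a common member of `F` -/
def Bad4 (F : Finset (Finset V)) (x y z w : V) : Prop :=
  (x ≠ y ∧ x ≠ z ∧ x ≠ w ∧ y ≠ z ∧ y ≠ w ∧ z ≠ w) ∧ ∃ A ∈ F, x ∈ A ∧ y ∈ A ∧ z ∈ A ∧ w ∈ A

/-- `y` and `x` are not related by `u`. -/
def NoRel {N : ℕ} (u : Fin N → V → V) (i j : Fin N) (x y : V) : Prop :=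
  y ≠ u i x ∧ x ≠ u i y ∧ y ≠ u j x ∧ x ≠ u j y

lemma pairs_lt {N : ℕ} (I : Finset (Fin N)) :
    2 * ((I ×ˢ I).filter (fun p => p.1 < p.2)).card ≤ I.card * I.card - I.card := by
  rw [← offDiag_card, two_mul]
  have h1 : (((I ×ˢ I).filter (fun p => p.1 < p.2)).image Prod.swap).card =
      ((I ×ˢ I).filter (fun p => p.1 < p.2)).card :=
    card_image_of_injective _ Prod.swap_injective
  have hdisj : Disjoint ((I ×ˢ I).filter (fun p => p.1 < p.2))
      (((I ×ˢ I).filter (fun p => p.1 < p.2)).image Prod.swap) := by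
    rw [disjoint_left]
    rintro ⟨i, j⟩ h h'
    rw [mem_filter] at h
    obtain ⟨⟨a, b⟩, hab, he⟩ := mem_image.1 h'
    rw [mem_filter] at hab
    have h1 : i < j := h.2
    have h2 : a < b := hab.2
    have h3 : b = i := (Prod.ext_iff.1 he).1
    have h4 : a = j := (Prod.ext_iff.1 he).2
    rw [h3, h4] at h2
    exact absurd h1 (not_lt.2 h2.le)
  have h2 := card_union_of_disjoint hdisj
  rw [h1] at h2
  rw [← h2]
  refine card_le_card ?_
  intro p hp
  rw [mem_union] at hp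
  rw [mem_offDiag]
  rcases hp with hp | hp
  · rw [mem_filter, mem_product] at hp
    exact ⟨hp.1.1, hp.1.2, ne_of_lt hp.2⟩
  · obtain ⟨q, hq, rfl⟩ := mem_image.1 hp
    rw [mem_filter, mem_product] at hq
    exact ⟨hq.1.2, hq.1.1, (ne_of_lt hq.2).symm⟩

theorem key_ineq (F : Finset (Finset V)) (h5 : ∀ A ∈ F, A.card = 5) {N : ℕ} (w : Fin N → V)
    (hw : Function.Injective w) (W : Finset V) (hW : ∀ v, v ∈ W ↔ ∃ i, w i = v)
    (u : Fin N → V → V) :
    (univ.filter (fun q : (Fin N × Fin N) × (V × V) => q.1.1 < q.1.2 ∧ q.2.1 ∉ W ∧ q.2.2 ∉ W ∧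
      Bad4 F (w q.1.1) q.2.1 (w q.1.2) q.2.2 ∧ NoRel u q.1.1 q.1.2 q.2.1 q.2.2)).card +
    2 * (univ.filter (fun q : Fin N × (V × V) => q.2.1 ∉ W ∧ u q.1 q.2.1 ∉ W ∧ q.2.2 ∉ W ∧
      Bad4 F (w q.1) q.2.1 (u q.1 q.2.1) q.2.2)).card ≤ 16 * F.card := by
  set PA : Finset V → Finset ((Fin N × Fin N) × (V × V)) := fun A => univ.filter (fun q =>
    q.1.1 < q.1.2 ∧ w q.1.1 ∈ A ∧ w q.1.2 ∈ A ∧ q.2.1 ∈ A ∧ q.2.1 ∉ W ∧ q.2.2 ∈ A ∧ q.2.2 ∉ W ∧
    q.2.1 ≠ q.2.2 ∧ NoRel u q.1.1 q.1.2 q.2.1 q.2.2) with hPA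
  set TA : Finset V → Finset (Fin N × (V × V)) := fun A => univ.filter (fun q =>
    w q.1 ∈ A ∧ q.2.1 ∈ A ∧ q.2.1 ∉ W ∧ u q.1 q.2.1 ∈ A ∧ u q.1 q.2.1 ∉ W ∧ q.2.2 ∈ A ∧
    q.2.2 ∉ W ∧ q.2.1 ≠ u q.1 q.2.1 ∧ q.2.1 ≠ q.2.2 ∧ u q.1 q.2.1 ≠ q.2.2) with hTA
  have hX1 : (univ.filter (fun q : (Fin N × Fin N) × (V × V) => q.1.1 < q.1.2 ∧ q.2.1 ∉ W ∧
      q.2.2 ∉ W ∧ Bad4 F (w q.1.1) q.2.1 (w q.1.2) q.2.2 ∧ NoRel u q.1.1 q.1.2 q.2.1 q.2.2)).card ≤
      ∑ A ∈ F, (PA A).card := by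
    refine (card_le_card (t := F.biUnion PA) ?_).trans card_biUnion_le
    rintro ⟨⟨i, j⟩, ⟨x, y⟩⟩ h
    obtain ⟨h1, h2, h3, ⟨⟨-, -, -, -, h4, -⟩, A, hA, a1, a2, a3, a4⟩, h6⟩ := (mem_filter.1 h).2
    refine mem_biUnion.2 ⟨A, hA, mem_filter.2 ⟨mem_univ _, h1, a1, a3, a2, h2, a4, h3, ?_, h6⟩⟩
    exact h4
  have hX2 : (univ.filter (fun q : Fin N × (V × V) => q.2.1 ∉ W ∧ u q.1 q.2.1 ∉ W ∧ q.2.2 ∉ W ∧
      Bad4 F (w q.1) q.2.1 (u q.1 q.2.1) q.2.2)).card ≤ ∑ A ∈ F, (TA A).card := by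
    refine (card_le_card (t := F.biUnion TA) ?_).trans card_biUnion_le
    rintro ⟨i, ⟨x, y⟩⟩ h
    obtain ⟨h1, h2, h3, ⟨⟨-, -, -, h4, h5, h6⟩, A, hA, a1, a2, a3, a4⟩⟩ := (mem_filter.1 h).2
    exact mem_biUnion.2 ⟨A, hA, mem_filter.2 ⟨mem_univ _, a1, a2, h1, a3, h2, a4, h3, h4, h5, h6⟩⟩
  have hA : ∀ A ∈ F, (PA A).card + 2 * (TA A).card ≤ 16 := by
    intro A hAF
    have hA5 := h5 A hAF
    set I : Finset (Fin N) := univ.filter (fun i => w i ∈ A) with hI
    set G : Finset V := A.filter (fun v => v ∉ W) with hG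
    have hsum : I.card + G.card = 5 := by
      have h1 := card_filter_add_card_filter_not (s := A) (fun v => v ∈ W)
      have h2 : (A.filter (fun v => v ∈ W)).card = I.card := by
        rw [← card_image_of_injective I hw]
        congr 1
        ext v
        rw [mem_filter, mem_image, hW]
        constructor
        · rintro ⟨h, i, rfl⟩
          exact ⟨i, mem_filter.2 ⟨mem_univ _, h⟩, rfl⟩
        · rintro ⟨i, hi, rfl⟩
          exact ⟨(mem_filter.1 hi).2, i, rfl⟩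
      rw [h2, hA5] at h1
      exact h1
    have hT : (TA A).card ≤ (I.card * G.card) * (G.card - 2) := by
      have hsub : TA A ⊆ (I ×ˢ G).biUnion (fun p => if u p.1 p.2 ∈ G ∧ p.2 ≠ u p.1 p.2 then
          ((G.erase p.2).erase (u p.1 p.2)).image (fun y => (p.1, (p.2, y))) else ∅) := by
        rintro ⟨i, ⟨x, y⟩⟩ h
        obtain ⟨a1, a2, a3, a4, a5, a6, a7, a8, a9, a10⟩ := (mem_filter.1 h).2
        have hc : u i x ∈ G ∧ x ≠ u i x := ⟨mem_filter.2 ⟨a4, a5⟩, a8⟩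
        refine mem_biUnion.2 ⟨(i, x), mem_product.2 ⟨mem_filter.2 ⟨mem_univ _, a1⟩,
          mem_filter.2 ⟨a2, a3⟩⟩, ?_⟩
        rw [if_pos hc]
        exact mem_image.2 ⟨y, mem_erase.2 ⟨Ne.symm a10, mem_erase.2 ⟨Ne.symm a9,
          mem_filter.2 ⟨a6, a7⟩⟩⟩, rfl⟩
      refine (card_le_card hsub).trans ?_
      rw [← card_product]
      refine card_biUnion_le_card_mul _ _ _ (fun p hp => ?_)
      by_cases hc : u p.1 p.2 ∈ G ∧ p.2 ≠ u p.1 p.2
      · rw [if_pos hc]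
        refine card_image_le.trans ?_
        rw [card_erase_of_mem (mem_erase.2 ⟨hc.2.symm, hc.1⟩),
          card_erase_of_mem (mem_product.1 hp).2]
        omega
      · rw [if_neg hc, card_empty]
        omega
    have hc2 := pairs_lt I
    set c := ((I ×ˢ I).filter (fun p => p.1 < p.2)).card with hcdef
    have hP : (PA A).card ≤ c * (G.card * G.card - G.card) := by
      rw [hcdef, ← offDiag_card, ← card_product]
      refine card_le_card ?_
      rintro ⟨⟨i, j⟩, ⟨x, y⟩⟩ h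
      obtain ⟨a1, a2, a3, a4, a5, a6, a7, a8, a9⟩ := (mem_filter.1 h).2
      rw [mem_product, mem_filter, mem_product, mem_offDiag]
      exact ⟨⟨⟨mem_filter.2 ⟨mem_univ _, a2⟩, mem_filter.2 ⟨mem_univ _, a3⟩⟩, a1⟩,
        mem_filter.2 ⟨a4, a5⟩, mem_filter.2 ⟨a6, a7⟩, a8⟩
    have hP2 : I.card = 2 → (TA A).Nonempty → (PA A).card ≤ 4 := by
      rintro hI2 ⟨⟨i0, ⟨x0, y0⟩⟩, h0⟩
      obtain ⟨b1, b2, b3, b4, b5, b6, b7, b8, b9, b10⟩ := (mem_filter.1 h0).2
      have hG3 : G.card = 3 := by omega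
      have hsub : PA A ⊆ ((I ×ˢ I).filter (fun p => p.1 < p.2)) ×ˢ
          ((G.offDiag.erase (x0, u i0 x0)).erase (u i0 x0, x0)) := by
        rintro ⟨⟨i, j⟩, ⟨x, y⟩⟩ h
        obtain ⟨a1, a2, a3, a4, a5, a6, a7, a8, a9⟩ := (mem_filter.1 h).2
        have hi0 : i0 = i ∨ i0 = j := by
          have hsub : ({i, j} : Finset (Fin N)) ⊆ I := by
            intro k hk
            rw [mem_insert, mem_singleton] at hk
            rcases hk with rfl | rfl
            · exact mem_filter.2 ⟨mem_univ _, a2⟩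
            · exact mem_filter.2 ⟨mem_univ _, a3⟩
          have hij : i ≠ j := ne_of_lt a1
          have heq := eq_of_subset_of_card_le hsub (by rw [hI2, card_pair hij])
          have : i0 ∈ ({i, j} : Finset (Fin N)) := by
            rw [heq]; exact mem_filter.2 ⟨mem_univ _, b1⟩
          rwa [mem_insert, mem_singleton] at this
        obtain ⟨r1, r2, r3, r4⟩ := a9
        rw [mem_product, mem_filter, mem_product, mem_erase, mem_erase, mem_offDiag]
        refine ⟨⟨⟨mem_filter.2 ⟨mem_univ _, a2⟩, mem_filter.2 ⟨mem_univ _, a3⟩⟩, a1⟩, ?_, ?_,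
          mem_filter.2 ⟨a4, a5⟩, mem_filter.2 ⟨a6, a7⟩, a8⟩
        · intro he
          have e1 : x = u i0 x0 := (Prod.ext_iff.1 he).1
          have e2 : y = x0 := (Prod.ext_iff.1 he).2
          rcases hi0 with rfl | rfl
          · exact r2 (by rw [e1, e2])
          · exact r4 (by rw [e1, e2])
        · intro he
          have e1 : x = x0 := (Prod.ext_iff.1 he).1
          have e2 : y = u i0 x0 := (Prod.ext_iff.1 he).2
          rcases hi0 with rfl | rfl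
          · exact r1 (by rw [e1, e2])
          · exact r3 (by rw [e1, e2])
      have h1 := card_le_card hsub
      have hmem1 : (x0, u i0 x0) ∈ G.offDiag :=
        mem_offDiag.2 ⟨mem_filter.2 ⟨b2, b3⟩, mem_filter.2 ⟨b4, b5⟩, b8⟩
      have hmem2 : (u i0 x0, x0) ∈ G.offDiag.erase (x0, u i0 x0) := by
        refine mem_erase.2 ⟨fun he => b8 (Prod.ext_iff.1 he).2,
          mem_offDiag.2 ⟨mem_filter.2 ⟨b4, b5⟩, mem_filter.2 ⟨b2, b3⟩, Ne.symm b8⟩⟩
      rw [card_product, card_erase_of_mem hmem2, card_erase_of_mem hmem1, offDiag_card, hG3,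
        ← hcdef] at h1
      rw [hI2] at hc2
      omega
    have hs5 : I.card ≤ 5 := by omega
    rcases (TA A).eq_empty_or_nonempty with hT0 | hT0
    · rw [hT0, card_empty]
      have hgg : G.card = 5 - I.card := by omega
      rw [hgg] at hP
      generalize I.card = s at *
      interval_cases s <;> omega
    · have hgg : G.card = 5 - I.card := by omega
      rw [hgg] at hP hT
      have hTpos := card_pos.2 hT0
      generalize I.card = s at *
      interval_cases s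
      · omega
      · omega
      · have := hP2 rfl hT0
        omega
      · omega
      · omega
      · omega
  calc _ ≤ ∑ A ∈ F, (PA A).card + 2 * ∑ A ∈ F, (TA A).card :=
        add_le_add hX1 (Nat.mul_le_mul_left _ hX2)
    _ = ∑ A ∈ F, ((PA A).card + 2 * (TA A).card) := by
        rw [Finset.sum_add_distrib, Finset.mul_sum]
    _ ≤ ∑ _A ∈ F, 16 := Finset.sum_le_sum hA
    _ = 16 * F.card := by rw [Finset.sum_const, smul_eq_mul, mul_comm]

end Pool.Agent.Lib.MP_e42343_co
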