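import Mathlib

/-!
Lopsided Lovasz local lemma for random bijections.
-/

namespace Pool.Agent.Lib.MP_e42343_co

open Finset Classical

variable {P X ι : Type} [Fintype P] [Fintype X]

/-- `σ` extends the partial assignment `E`. -/
def Ext (σ : P ≃ X) (E : Finset (P × X)) : Prop := ∀ t ∈ E, σ t.1 = t.2

/-- Two partial assignments conflict. -/
def Confl (E E' : Finset (P × X)) : Prop :=
  ∃ t ∈ E, ∃ t' ∈ E', (t.1 = t'.1 ∧ t.2 ≠ t'.2) ∨ (t.1 ≠ t'.1 ∧ t.2 = t'.2)

/-- The event `E` involves the value `x`. -/
def HitV (E : Finset (P × X)) (x : X) : Prop := ∃ t ∈ E, t.2 = x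

/-- The event `E` involves the position `p`. -/
def HitP (E : Finset (P × X)) (p : P) : Prop := ∃ t ∈ E, t.1 = p

/-- Number of bijections extending `E` and avoiding all events of `S`. -/
noncomputable def num (ev : ι → Finset (P × X)) (E : Finset (P × X)) (S : Finset ι) : ℕ :=
  (univ.filter (fun σ : P ≃ X => Ext σ E ∧ ∀ i ∈ S, ¬ Ext σ (ev i))).card

lemma num_step (ev : ι → Finset (P × X)) (S : Finset ι) (i : P) (a : X) (E : Finset (P × X))
    (hnot : (i, a) ∉ E) (hE : ¬ Confl (insert (i, a) E) (insert (i, a) E))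
    (hS : ∀ j ∈ S, ¬ Confl (insert (i, a) E) (ev j)) :
    (Fintype.card X - E.card) * num ev (insert (i, a) E) S ≤ num ev E S := by
  set B : Finset X := univ \ E.image Prod.snd with hB
  have hBcard : Fintype.card X - E.card ≤ B.card := by
    rw [hB, card_sdiff_of_subset (subset_univ _), card_univ]
    have := card_image_le (s := E) (f := Prod.snd)
    omega
  refine (Nat.mul_le_mul_right _ hBcard).trans ?_
  unfold num
  rw [← card_product]
  have key : ∀ b ∈ B, ∀ σ : P ≃ X, Ext σ (insert (i, a) E) → (∀ j ∈ S, ¬ Ext σ (ev j)) →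
      Ext (σ.trans (Equiv.swap a b)) E ∧ (∀ j ∈ S, ¬ Ext (σ.trans (Equiv.swap a b)) (ev j)) := by
    intro b hb σ hσ hav
    have hbE : ∀ t ∈ E, t.2 ≠ b := by
      intro t ht h
      rw [hB, mem_sdiff] at hb
      exact hb.2 (mem_image.2 ⟨t, ht, h⟩)
    have haE : ∀ t ∈ E, t.2 ≠ a := by
      intro t ht h
      apply hE
      have hti : t.1 ≠ i := by
        intro h1
        exact hnot (by rw [← h1, ← h]; exact ht)
      exact ⟨t, mem_insert_of_mem ht, (i, a), mem_insert_self _ _, Or.inr ⟨hti, h⟩⟩
    have hia : σ i = a := hσ (i, a) (mem_insert_self _ _)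
    refine ⟨?_, ?_⟩
    · intro t ht
      change Equiv.swap a b (σ t.1) = t.2
      rw [hσ t (mem_insert_of_mem ht), Equiv.swap_apply_of_ne_of_ne (haE t ht) (hbE t ht)]
    · intro j hj hext
      apply hav j hj
      intro t ht
      have h1 : Equiv.swap a b (σ t.1) = t.2 := hext t ht
      have hnc := hS j hj
      by_cases hta : σ t.1 = a
      · -- then t.1 = i
        have hti : t.1 = i := σ.injective (hta.trans hia.symm)
        by_contra hne
        apply hnc
        refine ⟨(i, a), mem_insert_self _ _, t, ht, Or.inl ⟨hti.symm, ?_⟩⟩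
        intro h2
        exact hne (hta.trans h2)
      · by_cases htb : σ t.1 = b
        · exfalso
          rw [htb, Equiv.swap_apply_right] at h1
          apply hnc
          refine ⟨(i, a), mem_insert_self _ _, t, ht, Or.inr ⟨?_, h1⟩⟩
          intro h2
          exact hta (by rw [← h2]; exact hia)
        · rw [Equiv.swap_apply_of_ne_of_ne hta htb] at h1
          exact h1
  refine card_le_card_of_injOn (fun t => t.2.trans (Equiv.swap a t.1)) ?_ ?_
  · rintro ⟨b, σ⟩ h
    rw [mem_coe, mem_product] at h
    have h2 := (mem_filter.1 h.2).2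
    exact mem_coe.2 (mem_filter.2 ⟨mem_univ _, key b h.1 σ h2.1 h2.2⟩)
  · rintro ⟨b, σ⟩ h ⟨b', σ'⟩ h' heq
    rw [mem_coe, mem_product] at h h'
    have hia : σ i = a := (mem_filter.1 h.2).2.1 (i, a) (mem_insert_self _ _)
    have hia' : σ' i = a := (mem_filter.1 h'.2).2.1 (i, a) (mem_insert_self _ _)
    have heq' : σ.trans (Equiv.swap a b) = σ'.trans (Equiv.swap a b') := heq
    have hb : b = b' := by
      have := congrArg (fun τ : P ≃ X => τ i) heq'
      change Equiv.swap a b (σ i) = Equiv.swap a b' (σ' i) at this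
      rwa [hia, hia', Equiv.swap_apply_left, Equiv.swap_apply_left] at this
    subst hb
    have hs : σ = σ' := by
      ext p
      have := congrArg (fun τ : P ≃ X => τ p) heq'
      exact (Equiv.swap a b).injective this
    rw [hs]

/-- Negative dependence. -/
lemma num_le (ev : ι → Finset (P × X)) (S : Finset ι) (E : Finset (P × X))
    (hE : ¬ Confl E E) (hS : ∀ j ∈ S, ¬ Confl E (ev j)) :
    (Fintype.card X).descFactorial E.card * num ev E S ≤ num ev ∅ S := by
  induction E using Finset.induction_on with
  | empty => simp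
  | insert t E ht ih =>
    have hE' : ¬ Confl E E := by
      rintro ⟨t, ht, t', ht', h⟩
      exact hE ⟨t, mem_insert_of_mem ht, t', mem_insert_of_mem ht', h⟩
    have hS' : ∀ j ∈ S, ¬ Confl E (ev j) := by
      rintro j hj ⟨t, ht, t', ht', h⟩
      exact hS j hj ⟨t, mem_insert_of_mem ht, t', ht', h⟩
    have ih' := ih hE' hS'
    obtain ⟨i, a⟩ := t
    have hstep := num_step ev S i a E ht hE hS
    rw [card_insert_of_notMem ht, Nat.descFactorial_succ]
    calc (Fintype.card X - E.card) * (Fintype.card X).descFactorial E.card *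
          num ev (insert (i, a) E) S
        = (Fintype.card X).descFactorial E.card *
          ((Fintype.card X - E.card) * num ev (insert (i, a) E) S) := by ring
      _ ≤ (Fintype.card X).descFactorial E.card * num ev E S := Nat.mul_le_mul_left _ hstep
      _ ≤ _ := ih'

/-- probability of an event -/
noncomputable def pr (X : Type) [Fintype X] (k : ℕ) : ℝ :=
  1 / ((Fintype.card X).descFactorial k : ℝ)

lemma pr_nonneg (k : ℕ) : 0 ≤ pr X k := by unfold pr; positivity

lemma num_le_pr (ev : ι → Finset (P × X)) (S : Finset ι) (E : Finset (P × X))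
    (hE : ¬ Confl E E) (hk : E.card ≤ Fintype.card X) (hS : ∀ j ∈ S, ¬ Confl E (ev j)) :
    (num ev E S : ℝ) ≤ pr X E.card * num ev ∅ S := by
  have h := num_le ev S E hE hS
  have hpos : (0 : ℝ) < ((Fintype.card X).descFactorial E.card : ℝ) := by
    have := Nat.descFactorial_pos.2 hk
    exact_mod_cast this
  unfold pr
  rw [one_div, ← div_eq_inv_mul, le_div_iff₀ hpos, mul_comm]
  exact_mod_cast h

/-- The lopsided local lemma for random bijections. -/
theorem lll (ev : ι → Finset (P × X)) (S : Finset ι) (hcard : Fintype.card P = Fintype.card X)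
    (hE : ∀ i ∈ S, ¬ Confl (ev i) (ev i)) (hk : ∀ i ∈ S, (ev i).card ≤ Fintype.card X)
    (hp : ∀ i ∈ S, pr X (ev i).card ≤ 1 / 4)
    (hsum : ∀ i ∈ S, ∑ j ∈ S.filter (fun j => Confl (ev i) (ev j)), pr X (ev j).card ≤ 1 / 4) :
    ∃ σ : P ≃ X, ∀ i ∈ S, ¬ Ext σ (ev i) := by
  have claim : ∀ n : ℕ, ∀ T ⊆ S, T.card = n → (0 < (num ev ∅ T : ℝ)) ∧
      ∀ i ∈ S, (num ev (ev i) T : ℝ) ≤ 2 * pr X (ev i).card * num ev ∅ T := by
    intro n
    induction n using Nat.strong_induction_on with
    | _ n ih =>
      intro T hT hTn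
      have hpos : 0 < (num ev ∅ T : ℝ) := by
        rcases T.eq_empty_or_nonempty with rfl | ⟨i, hi⟩
        · have : 0 < num ev ∅ (∅ : Finset ι) := by
            refine card_pos.2 ⟨Fintype.equivOfCardEq hcard, ?_⟩
            rw [mem_filter]
            refine ⟨mem_univ _, fun t ht => absurd ht (notMem_empty _),
              fun i hi => absurd hi (notMem_empty _)⟩
          exact_mod_cast this
        · have hlt : (T.erase i).card < n := by rw [← hTn]; exact card_erase_lt_of_mem hi
          obtain ⟨h1, h2⟩ := ih _ hlt (T.erase i) ((erase_subset _ _).trans hT) rfl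
          have h3 := h2 i (hT hi)
          have h4 : (num ev ∅ (T.erase i) : ℝ) ≤ num ev ∅ T + num ev (ev i) (T.erase i) := by
            have : num ev ∅ (T.erase i) ≤ num ev ∅ T + num ev (ev i) (T.erase i) := by
              unfold num
              rw [← card_union_add_card_inter]
              refine le_trans (card_le_card ?_) (Nat.le_add_right _ _)
              intro σ hσ
              have hσ' := (mem_filter.1 hσ).2
              rw [mem_union, mem_filter, mem_filter]
              by_cases hx : Ext σ (ev i)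
              · exact Or.inr ⟨mem_univ _, hx, hσ'.2⟩
              · refine Or.inl ⟨mem_univ _, hσ'.1, fun j hj => ?_⟩
                by_cases hji : j = i
                · rw [hji]; exact hx
                · exact hσ'.2 j (mem_erase.2 ⟨hji, hj⟩)
            exact_mod_cast this
          have h5 := hp i (hT hi)
          nlinarith
      refine ⟨hpos, ?_⟩
      intro i hi
      set T1 := T.filter (fun j => Confl (ev i) (ev j)) with hT1
      set T2 := T.filter (fun j => ¬ Confl (ev i) (ev j)) with hT2
      have hnc : ∀ j ∈ T2, ¬ Confl (ev i) (ev j) := fun j hj => (mem_filter.1 hj).2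
      have h1 : (num ev (ev i) T2 : ℝ) ≤ pr X (ev i).card * num ev ∅ T2 :=
        num_le_pr ev T2 (ev i) (hE i hi) (hk i hi) hnc
      have h2 : (num ev (ev i) T : ℝ) ≤ num ev (ev i) T2 := by
        have : num ev (ev i) T ≤ num ev (ev i) T2 := by
          refine card_le_card (fun σ hσ => ?_)
          have hσ' := (mem_filter.1 hσ).2
          exact mem_filter.2 ⟨mem_univ _, hσ'.1, fun j hj => hσ'.2 j (filter_subset _ _ hj)⟩
        exact_mod_cast this
      have h3 : (num ev ∅ T2 : ℝ) ≤ 2 * num ev ∅ T := by
        rcases T1.eq_empty_or_nonempty with h0 | h0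
        · have : T2 = T := by
            rw [hT2, filter_eq_self]
            intro j hj hc
            have : j ∈ T1 := mem_filter.2 ⟨hj, hc⟩
            rw [h0] at this
            exact notMem_empty _ this
          rw [this]
          linarith
        · have hlt : T2.card < n := by
            have := card_filter_add_card_filter_not (s := T) (fun j => Confl (ev i) (ev j))
            have h0' := card_pos.2 h0
            rw [← hT1] at this
            have : T1.card + T2.card = T.card := this
            omega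
          obtain ⟨_, hb⟩ := ih _ hlt T2 ((filter_subset _ _).trans hT) rfl
          have h4 : (num ev ∅ T2 : ℝ) ≤ num ev ∅ T + ∑ j ∈ T1, (num ev (ev j) T2 : ℝ) := by
            have : num ev ∅ T2 ≤ num ev ∅ T + ∑ j ∈ T1, num ev (ev j) T2 := by
              unfold num
              refine le_trans (card_le_card (t := (univ.filter (fun σ : P ≃ X => Ext σ ∅ ∧
                ∀ i ∈ T, ¬ Ext σ (ev i))) ∪ T1.biUnion (fun j => univ.filter
                (fun σ : P ≃ X => Ext σ (ev j) ∧ ∀ i ∈ T2, ¬ Ext σ (ev i)))) ?_)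
                ((card_union_le _ _).trans (Nat.add_le_add_left card_biUnion_le _))
              intro σ hσ
              have hσ' := (mem_filter.1 hσ).2
              rw [mem_union, mem_biUnion, mem_filter]
              by_cases hx : ∃ j ∈ T1, Ext σ (ev j)
              · obtain ⟨j, hj, hx⟩ := hx
                exact Or.inr ⟨j, hj, mem_filter.2 ⟨mem_univ _, hx, hσ'.2⟩⟩
              · push Not at hx
                refine Or.inl ⟨mem_univ _, hσ'.1, fun j hj => ?_⟩
                by_cases hjc : Confl (ev i) (ev j)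
                · exact hx j (mem_filter.2 ⟨hj, hjc⟩)
                · exact hσ'.2 j (mem_filter.2 ⟨hj, hjc⟩)
            exact_mod_cast this
          have h5 : ∑ j ∈ T1, (num ev (ev j) T2 : ℝ) ≤
              ∑ j ∈ T1, 2 * pr X (ev j).card * num ev ∅ T2 :=
            Finset.sum_le_sum (fun j hj => hb j (hT (filter_subset _ _ hj)))
          have h6 : ∑ j ∈ T1, 2 * pr X (ev j).card * (num ev ∅ T2 : ℝ) =
              2 * (∑ j ∈ T1, pr X (ev j).card) * num ev ∅ T2 := by
            rw [Finset.mul_sum, Finset.sum_mul]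
          have h7 : ∑ j ∈ T1, pr X (ev j).card ≤ 1 / 4 := by
            refine le_trans (Finset.sum_le_sum_of_subset_of_nonneg ?_
              (fun _ _ _ => pr_nonneg _)) (hsum i hi)
            exact filter_subset_filter _ hT
          have h8 : (0 : ℝ) ≤ num ev ∅ T2 := Nat.cast_nonneg _
          nlinarith
      have h9 : 0 ≤ pr X (ev i).card := pr_nonneg _
      calc (num ev (ev i) T : ℝ) ≤ pr X (ev i).card * num ev ∅ T2 := h2.trans h1
        _ ≤ pr X (ev i).card * (2 * num ev ∅ T) := mul_le_mul_of_nonneg_left h3 h9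
        _ = _ := by ring
  obtain ⟨h, _⟩ := claim _ S (Subset.refl _) rfl
  have h' : 0 < num ev ∅ S := by exact_mod_cast h
  obtain ⟨σ, hσ⟩ := card_pos.1 h'
  exact ⟨σ, (mem_filter.1 hσ).2.2⟩

/-- Version with vertex sums and position sums. -/
theorem lll' (ev : ι → Finset (P × X)) (S : Finset ι) (hcard : Fintype.card P = Fintype.card X)
    (h4 : 4 ≤ Fintype.card X)
    (hE : ∀ i ∈ S, ¬ Confl (ev i) (ev i)) (hk : ∀ i ∈ S, (ev i).card ≤ 4)
    (hne : ∀ i ∈ S, (ev i).Nonempty)
    (hv : ∀ x : X, ∑ j ∈ S.filter (fun j => HitV (ev j) x), pr X (ev j).card ≤ 1 / 32)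
    (hpos : ∀ p : P, ∑ j ∈ S.filter (fun j => HitP (ev j) p), pr X (ev j).card ≤ 1 / 32) :
    ∃ σ : P ≃ X, ∀ i ∈ S, ¬ Ext σ (ev i) := by
  refine lll ev S hcard hE (fun i hi => (hk i hi).trans h4) ?_ ?_
  · intro i hi
    obtain ⟨t, ht⟩ := hne i hi
    refine le_trans ?_ ((hv t.2).trans (by norm_num))
    exact Finset.single_le_sum (f := fun j => pr X (ev j).card) (fun _ _ => pr_nonneg _)
      (mem_filter.2 ⟨hi, t, ht, rfl⟩)
  · intro i hi
    have hsub : S.filter (fun j => Confl (ev i) (ev j)) ⊆
        (ev i).biUnion (fun t => S.filter (fun j => HitV (ev j) t.2)) ∪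
        (ev i).biUnion (fun t => S.filter (fun j => HitP (ev j) t.1)) := by
      intro j hj
      rw [mem_filter] at hj
      obtain ⟨hjS, t, ht, t', ht', h⟩ := hj
      rw [mem_union, mem_biUnion, mem_biUnion]
      rcases h with h | h
      · exact Or.inr ⟨t, ht, mem_filter.2 ⟨hjS, t', ht', h.1.symm⟩⟩
      · exact Or.inl ⟨t, ht, mem_filter.2 ⟨hjS, t', ht', h.2.symm⟩⟩
    have hbi : ∀ g : P × X → Finset ι, (∀ t, ∑ j ∈ g t, pr X (ev j).card ≤ 1 / 32) →
        ∑ j ∈ (ev i).biUnion g, pr X (ev j).card ≤ 1 / 8 := by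
      intro g hg
      have h1 : ∑ j ∈ (ev i).biUnion g, pr X (ev j).card ≤
          ∑ t ∈ ev i, ∑ j ∈ g t, pr X (ev j).card := by
        induction (ev i) using Finset.induction_on with
        | empty => simp
        | insert t E ht ih =>
          rw [biUnion_insert, sum_insert ht]
          have : ∑ j ∈ g t ∪ E.biUnion g, pr X (ev j).card +
              ∑ j ∈ g t ∩ E.biUnion g, pr X (ev j).card =
              ∑ j ∈ g t, pr X (ev j).card + ∑ j ∈ E.biUnion g, pr X (ev j).card :=
            Finset.sum_union_inter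
          have h0 : 0 ≤ ∑ j ∈ g t ∩ E.biUnion g, pr X (ev j).card :=
            Finset.sum_nonneg (fun _ _ => pr_nonneg _)
          linarith
      refine h1.trans ((Finset.sum_le_sum (fun t _ => hg t)).trans ?_)
      rw [Finset.sum_const, nsmul_eq_mul]
      have : ((ev i).card : ℝ) ≤ 4 := by exact_mod_cast hk i hi
      linarith
    refine (Finset.sum_le_sum_of_subset_of_nonneg hsub (fun _ _ _ => pr_nonneg _)).trans ?_
    have hu := Finset.sum_union_inter (f := fun j => pr X (ev j).card)
      (s₁ := (ev i).biUnion (fun t => S.filter (fun j => HitV (ev j) t.2)))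
      (s₂ := (ev i).biUnion (fun t => S.filter (fun j => HitP (ev j) t.1)))
    have h0 : 0 ≤ ∑ j ∈ (ev i).biUnion (fun t => S.filter (fun j => HitV (ev j) t.2)) ∩
        (ev i).biUnion (fun t => S.filter (fun j => HitP (ev j) t.1)),
        pr X (ev j).card := Finset.sum_nonneg (fun _ _ => pr_nonneg _)
    have h1 := hbi (fun t => S.filter (fun j => HitV (ev j) t.2)) (fun t => hv t.2)
    have h2 := hbi (fun t => S.filter (fun j => HitP (ev j) t.1)) (fun t => hpos t.1)
    linarith

end Pool.Agent.Lib.MP_e42343_co
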