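import Pool.Agent.Lib.MP_e42343_co.CoreX

/-!
The lower bound for the pattern `(3,1,1)`.
-/

namespace Pool.Agent.Lib.MP_e42343_co

open Finset Classical

/-- Sequential choice. -/
lemma seq_choice {ι α : Type} [Nonempty α] (s : Finset ι) (Q : ι → α → Prop)
    (C : ι → α → ι → α → Prop)
    (hstep : ∀ t ⊆ s, ∀ g : ι → α, (∀ i ∈ t, Q i (g i)) →
      (∀ i ∈ t, ∀ j ∈ t, i ≠ j → C i (g i) j (g j)) → ∀ i ∈ s, i ∉ t →
      ∃ a, Q i a ∧ ∀ j ∈ t, C i a j (g j) ∧ C j (g j) i a) :
    ∃ g : ι → α, (∀ i ∈ s, Q i (g i)) ∧ (∀ i ∈ s, ∀ j ∈ s, i ≠ j → C i (g i) j (g j)) := by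
  have key : ∀ t ⊆ s, ∃ g : ι → α, (∀ i ∈ t, Q i (g i)) ∧
      (∀ i ∈ t, ∀ j ∈ t, i ≠ j → C i (g i) j (g j)) := by
    intro t
    induction t using Finset.induction_on with
    | empty =>
      intro _
      refine ⟨fun _ => Classical.arbitrary α, fun i hi => absurd hi (notMem_empty _),
        fun i hi => absurd hi (notMem_empty _)⟩
    | insert i t hi ih =>
      intro hts
      have hts' : t ⊆ s := (subset_insert _ _).trans hts
      obtain ⟨g, hg1, hg2⟩ := ih hts'
      obtain ⟨a, ha1, ha2⟩ := hstep t hts' g hg1 hg2 i (hts (mem_insert_self _ _)) hi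
      have hne : ∀ j ∈ t, j ≠ i := fun j hj h => hi (h ▸ hj)
      refine ⟨Function.update g i a, ?_, ?_⟩
      · intro j hj
        rcases mem_insert.1 hj with rfl | hj
        · rw [Function.update_self]; exact ha1
        · rw [Function.update_of_ne (hne j hj)]; exact hg1 j hj
      · intro j hj0 j' hj0' hjj
        rcases mem_insert.1 hj0 with h1 | hj
        · subst h1
          rcases mem_insert.1 hj0' with h2 | hj'
          · exact absurd h2.symm hjj
          · rw [Function.update_self, Function.update_of_ne (hne j' hj')]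
            exact (ha2 j' hj').1
        · rcases mem_insert.1 hj0' with h2 | hj'
          · subst h2
            rw [Function.update_self, Function.update_of_ne (hne j hj)]
            exact (ha2 j hj).2
          · rw [Function.update_of_ne (hne j hj), Function.update_of_ne (hne j' hj')]
            exact hg2 j hj j' hj' hjj
  exact key s (Subset.refl _)

lemma card_prod_fiber' {α β : Type} [Fintype α] [Fintype β] (P : α → β → Prop)
    (i1 : DecidablePred (fun a : α × β => P a.1 a.2)) (i2 : ∀ a, DecidablePred (P a)) :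
    (@Finset.filter _ (fun a : α × β => P a.1 a.2) i1 univ).card =
      ∑ a, (@Finset.filter _ (P a) (i2 a) univ).card := by
  rw [card_filter, Fintype.sum_prod_type]
  refine Finset.sum_congr rfl fun a _ => ?_
  rw [card_filter]
  refine Finset.sum_congr rfl fun b _ => ?_
  by_cases h : P a b
  · rw [if_pos h, if_pos h]
  · rw [if_neg h, if_neg h]

lemma card_prod_fiber {α β : Type} [Fintype α] [Fintype β] (P : α → β → Prop)
    {i1 : DecidablePred (fun a : α × β => P a.1 a.2)} :
    (univ.filter (fun a : α × β => P a.1 a.2)).card = ∑ a, (univ.filter (P a)).card :=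
  card_prod_fiber' P i1 _

/-- Markov's inequality. -/
lemma markov {α β : Type} [Fintype α] [Fintype β] (P : α → β → Prop) (T C : ℝ) (hT : 0 < T)
    (hC : ((univ.filter (fun a : α × β => P a.1 a.2)).card : ℝ) ≤ C) :
    ((univ.filter (fun a => T < ((univ.filter (P a)).card : ℝ))).card : ℝ) ≤ C / T := by
  rw [le_div_iff₀ hT, ← nsmul_eq_mul]
  refine le_trans ?_ hC
  rw [card_prod_fiber P, Nat.cast_sum]
  refine le_trans (Finset.card_nsmul_le_sum (univ.filter (fun a =>
    T < ((univ.filter (P a)).card : ℝ))) (fun a => ((univ.filter (P a)).card : ℝ)) T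
    (fun a ha => (mem_filter.1 ha).2.le)) ?_
  exact Finset.sum_le_sum_of_subset_of_nonneg (filter_subset _ _) (fun _ _ _ => Nat.cast_nonneg _)

/-- A graph with more than `4 n` ordered edges contains a path on four vertices. -/
lemma exists_path {V : Type} [Fintype V] (G : V → V → Prop) (hsym : ∀ x y, G x y → G y x)
    (iG : DecidablePred (fun p : V × V => G p.1 p.2))
    (h : 4 * Fintype.card V < (univ.filter (fun p : V × V => G p.1 p.2)).card) :
    ∃ x a b y, G x a ∧ G a b ∧ G b y ∧ x ≠ b ∧ y ≠ a ∧ x ≠ y := by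
  set L := (univ.filter (fun p : V × V => G p.1 p.2 ∧ (univ.filter (G p.1)).card ≤ 2)) with hL
  have hLc : L.card ≤ 2 * Fintype.card V := by
    refine le_trans (le_of_eq (card_prod_fiber (fun x y => G x y ∧
      (univ.filter (G x)).card ≤ 2))) ?_
    calc _ ≤ ∑ _a : V, 2 := by
          refine Finset.sum_le_sum (fun a _ => ?_)
          by_cases ha : (univ.filter (G a)).card ≤ 2
          · refine le_trans (card_le_card ?_) ha
            intro y hy
            simp only [mem_filter] at hy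
            exact mem_filter.2 ⟨mem_univ _, hy.2.1⟩
          · refine le_trans (le_of_eq (card_eq_zero.2
              (eq_empty_of_forall_notMem (fun y hy => ?_)))) (Nat.zero_le _)
            simp only [mem_filter] at hy
            exact ha hy.2.2
      _ = 2 * Fintype.card V := by rw [Finset.sum_const, card_univ, smul_eq_mul, mul_comm]
  set L' := L.image Prod.swap with hL'
  have hLc' : L'.card ≤ 2 * Fintype.card V := card_image_le.trans hLc
  obtain ⟨⟨a, b⟩, hab, hnot⟩ : ∃ p ∈ (univ.filter (fun p : V × V => G p.1 p.2)), p ∉ L ∪ L' := by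
    by_contra hcon
    push Not at hcon
    have := (card_le_card (fun p hp => hcon p hp)).trans (card_union_le L L')
    omega
  have hGab : G a b := (mem_filter.1 hab).2
  rw [mem_union, not_or] at hnot
  have ha : 2 < (univ.filter (G a)).card := by
    by_contra hcon
    push Not at hcon
    exact hnot.1 (mem_filter.2 ⟨mem_univ _, hGab, hcon⟩)
  have hb : 2 < (univ.filter (G b)).card := by
    by_contra hcon
    push Not at hcon
    exact hnot.2 (mem_image.2 ⟨(b, a), mem_filter.2 ⟨mem_univ _, hsym _ _ hGab, hcon⟩, rfl⟩)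
  obtain ⟨x, hx⟩ : ((univ.filter (G a)).erase b).Nonempty := by
    rw [← card_pos]
    have := pred_card_le_card_erase (s := univ.filter (G a)) (a := b)
    omega
  obtain ⟨y, hy⟩ : (((univ.filter (G b)).erase a).erase x).Nonempty := by
    rw [← card_pos]
    have h1 := pred_card_le_card_erase (s := univ.filter (G b)) (a := a)
    have h2 := pred_card_le_card_erase (s := (univ.filter (G b)).erase a) (a := x)
    omega
  rw [mem_erase, mem_filter] at hx
  rw [mem_erase, mem_erase, mem_filter] at hy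
  exact ⟨x, a, b, y, hsym _ _ hx.2.2, hGab, hy.2.2.2, hx.1, hy.2.1, hy.1.symm⟩

variable {V : Type} [Fintype V]

/-- three distinct vertices in a common member of `F` -/
def Bad3 (F : Finset (Finset V)) (x y z : V) : Prop :=
  x ≠ y ∧ x ≠ z ∧ y ≠ z ∧ ∃ A ∈ F, x ∈ A ∧ y ∈ A ∧ z ∈ A

omit [Fintype V] in
lemma bad3_swap1 (F : Finset (Finset V)) (x y z : V) (h : Bad3 F x y z) : Bad3 F y x z := by
  obtain ⟨h1, h2, h3, A, hA, a1, a2, a3⟩ := h
  exact ⟨h1.symm, h3, h2, A, hA, a2, a1, a3⟩

omit [Fintype V] in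
lemma bad3_swap2 (F : Finset (Finset V)) (x y z : V) (h : Bad3 F x y z) : Bad3 F x z y := by
  obtain ⟨h1, h2, h3, A, hA, a1, a2, a3⟩ := h
  exact ⟨h2, h1, h3.symm, A, hA, a1, a3, a2⟩

lemma count3 (F : Finset (Finset V)) (h5 : ∀ A ∈ F, A.card = 5) :
    (univ.filter (fun p : V × (V × V) => Bad3 F p.1 p.2.1 p.2.2)).card ≤ F.card * 125 := by
  refine (card_le_card (t := F.biUnion (fun A => A ×ˢ (A ×ˢ A))) ?_).trans
    (card_biUnion_le_card_mul _ _ _ (fun A hA => ?_))
  · rintro ⟨x, y, z⟩ h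
    obtain ⟨-, -, -, A, hA, a1, a2, a3⟩ := (mem_filter.1 h).2
    exact mem_biUnion.2 ⟨A, hA, mem_product.2 ⟨a1, mem_product.2 ⟨a2, a3⟩⟩⟩
  · rw [card_product, card_product, h5 A hA]

lemma count3' (F : Finset (Finset V)) (h5 : ∀ A ∈ F, A.card = 5) :
    (univ.filter (fun p : (V × V) × V => Bad3 F p.1.1 p.1.2 p.2)).card ≤ F.card * 125 := by
  refine (card_le_card (t := F.biUnion (fun A => (A ×ˢ A) ×ˢ A)) ?_).trans
    (card_biUnion_le_card_mul _ _ _ (fun A hA => ?_))
  · rintro ⟨⟨x, y⟩, z⟩ h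
    obtain ⟨-, -, -, A, hA, a1, a2, a3⟩ := (mem_filter.1 h).2
    exact mem_biUnion.2 ⟨A, hA, mem_product.2 ⟨mem_product.2 ⟨a1, a2⟩, a3⟩⟩
  · rw [card_product, card_product, h5 A hA]

lemma count3v (F : Finset (Finset V)) (h5 : ∀ A ∈ F, A.card = 5) (w : V) :
    (univ.filter (fun p : V × V => Bad3 F w p.1 p.2)).card ≤ F.card * 16 := by
  refine (card_le_card (t := (F.filter (fun A => w ∈ A)).biUnion
    (fun A => (A.erase w) ×ˢ (A.erase w))) ?_).trans
    ((card_biUnion_le_card_mul _ _ 16 (fun A hA => ?_)).trans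
      (Nat.mul_le_mul_right _ (card_le_card (filter_subset _ _))))
  · rintro ⟨y, z⟩ h
    obtain ⟨h1, h2, -, A, hA, a1, a2, a3⟩ := (mem_filter.1 h).2
    exact mem_biUnion.2 ⟨A, mem_filter.2 ⟨hA, a1⟩, mem_product.2
      ⟨mem_erase.2 ⟨Ne.symm h1, a2⟩, mem_erase.2 ⟨Ne.symm h2, a3⟩⟩⟩
  · rw [mem_filter] at hA
    rw [card_product, card_erase_of_mem hA.2, h5 A hA.1]

/-- the vertices of a quadruple -/
noncomputable def toSet (f : V × V × V × V) : Finset V := {f.1, f.2.1, f.2.2.1, f.2.2.2}

omit [Fintype V] in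
lemma card_toSet (f : V × V × V × V) : (toSet f).card ≤ 4 := card_le_four

theorem lower_x (n : ℕ) [NeZero n] (hn : Fintype.card V = n) (hn8 : 10 ^ 9 ≤ n)
    (F : Finset (Finset V)) (h5 : ∀ A ∈ F, A.card = 5) (hF : 17 * F.card ≤ n ^ 2) :
    ∃ d : ZMod n ≃ V, ∀ t, ¬ Bad3 F (d t) (d (t + 1)) (d (t + 2)) := by
  have hVne : Nonempty V := by
    rw [← Fintype.card_pos_iff]
    omega
  have hnr : (10 ^ 9 : ℝ) ≤ n := by exact_mod_cast hn8
  have hn0 : (0 : ℝ) < n := by linarith
  have hFr : 17 * (F.card : ℝ) ≤ (n : ℝ) ^ 2 := by exact_mod_cast hF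
  have hF0 : (0 : ℝ) ≤ F.card := Nat.cast_nonneg _
  -- heavy vertices
  set W := univ.filter (fun z : V => (n : ℝ) ^ 2 / 4000 <
    ((univ.filter (fun p : V × V => Bad3 F z p.1 p.2)).card : ℝ)) with hW
  have hWc : (W.card : ℝ) ≤ 30000 := by
    have h1 : ((univ.filter (fun p : V × (V × V) => Bad3 F p.1 p.2.1 p.2.2)).card : ℝ) ≤
        125 * (n : ℝ) ^ 2 / 17 := by
      have : ((univ.filter (fun p : V × (V × V) => Bad3 F p.1 p.2.1 p.2.2)).card : ℝ) ≤
        F.card * 125 := by exact_mod_cast count3 F h5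
      linarith
    have h2 := markov (fun (z : V) (p : V × V) => Bad3 F z p.1 p.2) ((n : ℝ) ^ 2 / 4000)
      (125 * (n : ℝ) ^ 2 / 17) (by positivity) h1
    refine h2.trans ?_
    rw [div_le_iff₀ (by positivity)]
    nlinarith [sq_nonneg (n : ℝ)]
  have hWn : W.card ≤ 30000 := by exact_mod_cast hWc
  -- dangerous pairs
  set D := univ.filter (fun q : V × V => (n : ℝ) / 4000 <
    ((univ.filter (fun p : V => Bad3 F q.1 q.2 p)).card : ℝ)) with hD
  have hDc : (D.card : ℝ) ≤ 30000 * n := by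
    have h1 : ((univ.filter (fun p : (V × V) × V => Bad3 F p.1.1 p.1.2 p.2)).card : ℝ) ≤
        125 * (n : ℝ) ^ 2 / 17 := by
      have : ((univ.filter (fun p : (V × V) × V => Bad3 F p.1.1 p.1.2 p.2)).card : ℝ) ≤
        F.card * 125 := by exact_mod_cast count3' F h5
      linarith
    have h2 := markov (fun (q : V × V) (p : V) => Bad3 F q.1 q.2 p) ((n : ℝ) / 4000)
      (125 * (n : ℝ) ^ 2 / 17) (by positivity) h1
    refine h2.trans ?_
    rw [div_le_iff₀ (by positivity)]
    nlinarith [sq_nonneg (n : ℝ)]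
  -- finding a path avoiding a given small set
  have hpath : ∀ w : V, ∀ U : Finset V, U.card ≤ 150000 →
      ∃ x a b y : V, x ∉ U ∧ a ∉ U ∧ b ∉ U ∧ y ∉ U ∧ x ≠ a ∧ x ≠ b ∧ x ≠ y ∧ a ≠ b ∧ a ≠ y ∧
        b ≠ y ∧ ¬ Bad3 F w x a ∧ ¬ Bad3 F w a b ∧ ¬ Bad3 F w b y ∧ (x, a) ∉ D ∧ (b, y) ∉ D := by
    intro w U hU
    set G : V → V → Prop := fun a b => a ∉ U ∧ b ∉ U ∧ a ≠ b ∧ ¬ Bad3 F w a b ∧ (a, b) ∉ D ∧
      (b, a) ∉ D with hG
    have hGsym : ∀ x y, G x y → G y x := by
      rintro x y ⟨h1, h2, h3, h4, h5, h6⟩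
      exact ⟨h2, h1, h3.symm, fun h => h4 (bad3_swap2 F _ _ _ h), h6, h5⟩
    have hcount : 4 * Fintype.card V < (univ.filter (fun p : V × V => G p.1 p.2)).card := by
      have hsub : (univ : Finset (V × V)) ⊆ (univ.filter (fun p : V × V => G p.1 p.2)) ∪
          ((U ×ˢ univ) ∪ ((univ ×ˢ U) ∪ ((univ.image (fun v : V => (v, v))) ∪
          ((univ.filter (fun p : V × V => Bad3 F w p.1 p.2)) ∪ (D ∪ D.image Prod.swap))))) := by
        rintro ⟨a, b⟩ -
        by_contra hcon
        simp only [mem_union, not_or] at hcon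
        obtain ⟨c1, c2, c3, c4, c5, c6, c7⟩ := hcon
        apply c1
        refine mem_filter.2 ⟨mem_univ _, ?_, ?_, ?_, ?_, c6, ?_⟩
        · exact fun h => c2 (mem_product.2 ⟨h, mem_univ _⟩)
        · exact fun h => c3 (mem_product.2 ⟨mem_univ _, h⟩)
        · intro h
          apply c4
          change a = b at h
          rw [h]
          exact mem_image.2 ⟨b, mem_univ _, rfl⟩
        · exact fun h => c5 (mem_filter.2 ⟨mem_univ _, h⟩)
        · exact fun h => c7 (mem_image.2 ⟨_, h, rfl⟩)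
      have h1 := card_le_card hsub
      have h2 : ((univ : Finset (V × V)).card : ℝ) ≤
          (univ.filter (fun p : V × V => G p.1 p.2)).card + (150000 * n + (150000 * n + (n +
            (16 * (F.card : ℝ) + (30000 * n + 30000 * n))))) := by
        have u1 : ((U ×ˢ (univ : Finset V)).card : ℝ) ≤ 150000 * n := by
          rw [card_product, card_univ, hn]
          push_cast
          exact mul_le_mul_of_nonneg_right (by exact_mod_cast hU) hn0.le
        have u2 : (((univ : Finset V) ×ˢ U).card : ℝ) ≤ 150000 * n := by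
          rw [card_product, card_univ, hn]
          push_cast
          rw [mul_comm]
          exact mul_le_mul_of_nonneg_right (by exact_mod_cast hU) hn0.le
        have u3 : ((univ.image (fun v : V => (v, v))).card : ℝ) ≤ n := by
          have := card_image_le (s := (univ : Finset V)) (f := fun v : V => (v, v))
          rw [card_univ, hn] at this
          exact_mod_cast this
        have u4 : ((univ.filter (fun p : V × V => Bad3 F w p.1 p.2)).card : ℝ) ≤
            16 * (F.card : ℝ) := by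
          have := count3v F h5 w
          have h : ((univ.filter (fun p : V × V => Bad3 F w p.1 p.2)).card : ℝ) ≤
            (F.card : ℝ) * 16 := by exact_mod_cast this
          linarith
        have u5 : ((D.image Prod.swap).card : ℝ) ≤ 30000 * n :=
          le_trans (Nat.cast_le.2 card_image_le) hDc
        have h3 := h1.trans ((card_union_le _ _).trans (Nat.add_le_add_left
          ((card_union_le _ _).trans (Nat.add_le_add_left
          ((card_union_le _ _).trans (Nat.add_le_add_left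
          ((card_union_le _ _).trans (Nat.add_le_add_left
          ((card_union_le _ _).trans (Nat.add_le_add_left
          (card_union_le _ _) _)) _)) _)) _)) _))
        have h4 : ((univ : Finset (V × V)).card : ℝ) ≤
          (univ.filter (fun p : V × V => G p.1 p.2)).card + ((U ×ˢ (univ : Finset V)).card +
          (((univ : Finset V) ×ˢ U).card + ((univ.image (fun v : V => (v, v))).card +
          ((univ.filter (fun p : V × V => Bad3 F w p.1 p.2)).card +
            (D.card + (D.image Prod.swap).card))))) := by exact_mod_cast h3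
        linarith
      rw [card_univ, Fintype.card_prod, hn] at h2
      have h5 : (4 : ℝ) * n < (univ.filter (fun p : V × V => G p.1 p.2)).card := by
        push_cast at h2
        nlinarith
      rw [hn]
      exact_mod_cast h5
    obtain ⟨x, a, b, y, g1, g2, g3, d1, d2, d3⟩ := exists_path G hGsym _ hcount
    exact ⟨x, a, b, y, g1.1, g1.2.1, g2.2.1, g3.2.1, g1.2.2.1, d1, d3, g2.2.2.1, d2.symm,
      g3.2.2.1, g1.2.2.2.1, g2.2.2.2.1, g3.2.2.2.1, g1.2.2.2.2.1, g3.2.2.2.2.1⟩
  -- choose the paths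
  obtain ⟨g, hg1, hg2⟩ := seq_choice (α := V × V × V × V) W
    (fun w f => Disjoint (toSet f) W ∧ f.1 ≠ f.2.1 ∧ f.1 ≠ f.2.2.1 ∧ f.1 ≠ f.2.2.2 ∧
      f.2.1 ≠ f.2.2.1 ∧ f.2.1 ≠ f.2.2.2 ∧ f.2.2.1 ≠ f.2.2.2 ∧ ¬ Bad3 F w f.1 f.2.1 ∧
      ¬ Bad3 F w f.2.1 f.2.2.1 ∧ ¬ Bad3 F w f.2.2.1 f.2.2.2 ∧ (f.1, f.2.1) ∉ D ∧
      (f.2.2.1, f.2.2.2) ∉ D)
    (fun _ f _ f' => Disjoint (toSet f) (toSet f'))
    (by
      intro t ht g _ _ w _ _
      have hU : (W ∪ t.biUnion (fun j => toSet (g j))).card ≤ 150000 := by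
        have h1 := card_biUnion_le_card_mul t (fun j => toSet (g j)) 4 (fun j _ => card_toSet _)
        have h2 := card_le_card ht
        have h3 := card_union_le W (t.biUnion (fun j => toSet (g j)))
        omega
      obtain ⟨x, a, b, y, h1, h2, h3, h4, h⟩ := hpath w _ hU
      have hd : Disjoint (toSet (x, a, b, y)) (W ∪ t.biUnion (fun j => toSet (g j))) := by
        rw [disjoint_left]
        intro v hv
        simp only [toSet, mem_insert, mem_singleton] at hv
        rcases hv with rfl | rfl | rfl | rfl <;> assumption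
      rw [disjoint_union_right] at hd
      refine ⟨(x, a, b, y), ⟨hd.1, h⟩, fun j hj => ?_⟩
      have := (disjoint_biUnion_right _ _ _).1 hd.2 j hj
      exact ⟨this, this.symm⟩)
  -- the blocks
  set φ : {w // w ∈ W} × Fin 5 → V := fun p =>
    ![(g p.1).1, (g p.1).2.1, p.1.1, (g p.1).2.2.1, (g p.1).2.2.2] p.2 with hφ
  have hmemφ : ∀ k : {w // w ∈ W}, ∀ j : Fin 5, φ (k, j) ∈ toSet (g k) ∨
      (j = 2 ∧ φ (k, j) = k.1) := by
    intro k j
    have e0 : φ (k, 0) = (g k).1 := rfl
    have e1 : φ (k, 1) = (g k).2.1 := rfl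
    have e3 : φ (k, 3) = (g k).2.2.1 := rfl
    have e4 : φ (k, 4) = (g k).2.2.2 := rfl
    fin_cases j
    · left; change φ (k, 0) ∈ _; rw [e0]; simp [toSet]
    · left; change φ (k, 1) ∈ _; rw [e1]; simp [toSet]
    · right; exact ⟨rfl, rfl⟩
    · left; change φ (k, 3) ∈ _; rw [e3]; simp [toSet]
    · left; change φ (k, 4) ∈ _; rw [e4]; simp [toSet]
  have hnotW : ∀ k : {w // w ∈ W}, ∀ v ∈ toSet (g k), v ∉ W := by
    intro k v hv hvW
    exact (disjoint_left.1 (hg1 k.1 k.2).1) hv hvW
  have hφinj : Function.Injective φ := by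
    rintro ⟨k, j⟩ ⟨k', j'⟩ h
    by_cases hk : k = k'
    · subst hk
      obtain ⟨h0, a1, a2, a3, a4, a5, a6, -⟩ := hg1 k.1 k.2
      have b0 : (g k).1 ≠ k.1 := fun h => hnotW k _ (by simp [toSet]) (h ▸ k.2)
      have b1 : (g k).2.1 ≠ k.1 := fun h => hnotW k _ (by simp [toSet]) (h ▸ k.2)
      have b3 : (g k).2.2.1 ≠ k.1 := fun h => hnotW k _ (by simp [toSet]) (h ▸ k.2)
      have b4 : (g k).2.2.2 ≠ k.1 := fun h => hnotW k _ (by simp [toSet]) (h ▸ k.2)
      have e0 : φ (k, 0) = (g k).1 := rfl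
      have e1 : φ (k, 1) = (g k).2.1 := rfl
      have e2 : φ (k, 2) = k.1 := rfl
      have e3 : φ (k, 3) = (g k).2.2.1 := rfl
      have e4 : φ (k, 4) = (g k).2.2.2 := rfl
      fin_cases j <;> fin_cases j' <;>
        first
          | rfl
          | (exfalso
             simp only [Fin.zero_eta, Fin.mk_one, Fin.reduceFinMk, e0, e1, e2, e3, e4] at h
             first
               | exact a1 h | exact a2 h | exact a3 h | exact a4 h | exact a5 h | exact a6 h
               | exact a1 h.symm | exact a2 h.symm | exact a3 h.symm | exact a4 h.symm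
               | exact a5 h.symm | exact a6 h.symm
               | exact b0 h | exact b1 h | exact b3 h | exact b4 h
               | exact b0 h.symm | exact b1 h.symm | exact b3 h.symm | exact b4 h.symm)
    · exfalso
      have hk' : k.1 ≠ k'.1 := fun h => hk (Subtype.ext h)
      rcases hmemφ k j with h1 | ⟨-, h1⟩ <;> rcases hmemφ k' j' with h2 | ⟨-, h2⟩
      · rw [h] at h1
        exact (disjoint_left.1 (hg2 k.1 k.2 k'.1 k'.2 hk')) h1 h2
      · rw [h, h2] at h1
        exact hnotW k _ h1 k'.2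
      · rw [← h, h1] at h2
        exact hnotW k' _ h2 k.2
      · exact hk' (by rw [← h1, ← h2, h])
  have hDnot : ∀ a b : V, (a, b) ∉ D →
      ((univ.filter (fun p : V => Bad3 F a b p)).card : ℝ) ≤ (n : ℝ) / 4000 := by
    intro a b h
    by_contra hcon
    push Not at hcon
    exact h (mem_filter.2 ⟨mem_univ _, hcon⟩)
  refine core_x n hn (Bad3 F) (bad3_swap1 F) (bad3_swap2 F) φ hφinj ?_ ?_ ?_ ?_ ?_ (by omega)
  · intro z hz
    by_contra hcon
    push Not at hcon
    have hzW : z ∈ W := mem_filter.2 ⟨mem_univ _, hcon⟩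
    exact hz ⟨z, hzW⟩ rfl
  · intro k
    exact hDnot _ _ (hg1 k.1 k.2).2.2.2.2.2.2.2.2.2.2.1
  · intro k
    exact hDnot _ _ (hg1 k.1 k.2).2.2.2.2.2.2.2.2.2.2.2
  · intro k
    obtain ⟨-, -, -, -, -, -, -, c1, c2, c3, -⟩ := hg1 k.1 k.2
    refine ⟨fun h => c1 ?_, fun h => c2 ?_, fun h => c3 h⟩
    · exact bad3_swap1 F _ _ _ (bad3_swap2 F _ _ _ h)
    · exact bad3_swap1 F _ _ _ h
  · rw [Fintype.card_coe]
    omega

end Pool.Agent.Lib.MP_e42343_co
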