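import Pool.Agent.Lib.MP_e42343_co.Step1
import Pool.Agent.Lib.MP_e42343_co.CoreY

/-!
The lower bound for the pattern `(2,2,1)`.
-/

namespace Pool.Agent.Lib.MP_e42343_co

open Finset Classical

theorem lower_y : ∃ n₀ : ℕ, ∀ (V : Type) [Fintype V] (n : ℕ) [NeZero n], Fintype.card V = n →
    n₀ ≤ n → ∀ F : Finset (Finset V), (∀ A ∈ F, A.card = 5) → 17 * F.card ≤ n ^ 2 →
    ∃ d : ZMod n ≃ V, ∀ t t', ¬ Bad4 F (d t) (d (t + 1)) (d t') (d (t' + 1)) := by
  obtain ⟨n1, hstep1⟩ := step1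
  refine ⟨max n1 (10 ^ 30), ?_⟩
  intro V _ n _ hn hn0 F h5 hF
  have hn30 : (10 ^ 30 : ℝ) ≤ n := by exact_mod_cast (le_max_right _ _).trans hn0
  have hn1 : n1 ≤ n := (le_max_left _ _).trans hn0
  have hnpos : (0 : ℝ) < n := by linarith [show (0 : ℝ) < 10 ^ 30 by norm_num]
  have hFr : 17 * (F.card : ℝ) ≤ (n : ℝ) ^ 2 := by exact_mod_cast hF
  have hVne : Nonempty V := by
    rw [← Fintype.card_pos_iff, hn]
    exact_mod_cast hnpos
  -- heavy vertices
  set W := univ.filter (fun z : V => (n : ℝ) ^ 2 / 10 ^ 16 <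
    ((univ.filter (fun p : V × V × V => Bad4 F z p.1 p.2.1 p.2.2)).card : ℝ)) with hW
  have hWc : (W.card : ℝ) ≤ 4 * 10 ^ 17 := by
    have h1 : ((univ.filter (fun p : V × (V × V × V) =>
        Bad4 F p.1 p.2.1 p.2.2.1 p.2.2.2)).card : ℝ) ≤ 37 * (n : ℝ) ^ 2 := by
      have : ((univ.filter (fun p : V × (V × V × V) =>
        Bad4 F p.1 p.2.1 p.2.2.1 p.2.2.2)).card : ℝ) ≤ F.card * 625 := by
          exact_mod_cast count4 F h5
      linarith
    have h2 := markov (fun (z : V) (p : V × V × V) => Bad4 F z p.1 p.2.1 p.2.2)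
      ((n : ℝ) ^ 2 / 10 ^ 16) (37 * (n : ℝ) ^ 2) (by positivity) h1
    refine h2.trans ?_
    rw [div_le_iff₀ (by positivity)]
    nlinarith [sq_nonneg (n : ℝ)]
  obtain ⟨N, hN⟩ : ∃ N, W.card = N := ⟨_, rfl⟩
  have hN' : N ≤ 4 * 10 ^ 17 := by
    rw [hN] at hWc
    exact_mod_cast hWc
  have hNr : (N : ℝ) ≤ 4 * 10 ^ 17 := by exact_mod_cast hN'
  have hN0 : (0 : ℝ) ≤ N := Nat.cast_nonneg _
  set w : Fin N → V := fun i => ((W.equivFinOfCardEq hN).symm i).1 with hw
  have hwinj : Function.Injective w := by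
    intro i j h
    exact (W.equivFinOfCardEq hN).symm.injective (Subtype.ext h)
  have hwW : ∀ v, v ∈ W ↔ ∃ i, w i = v := by
    intro v
    constructor
    · intro hv
      exact ⟨W.equivFinOfCardEq hN ⟨v, hv⟩, by simp [hw]⟩
    · rintro ⟨i, rfl⟩
      exact ((W.equivFinOfCardEq hN).symm i).2
  obtain ⟨b, hb1, hb2, hb3, hb4, hb5, hb6⟩ := hstep1 V n hn hn1 F h5 hF N hN' w hwinj W hwW
  -- the dangerous vertices
  set E : V → ℕ := fun z => (univ.filter (fun q : (Fin N × Bool) × V =>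
    Bad4 F (w q.1.1) (b q.1) z q.2)).card with hE
  set D := univ.filter (fun z : V => (n : ℝ) / 8000 < (E z : ℝ)) with hD
  have hDc : (D.card : ℝ) ≤ 64 * 10 ^ 6 := by
    have h1 : ((univ.filter (fun p : V × ((Fin N × Bool) × V) =>
        Bad4 F (w p.2.1.1) (b p.2.1) p.1 p.2.2)).card : ℝ) ≤ 8000 * n := by
      refine le_trans ?_ hb4
      have : (univ.filter (fun p : V × ((Fin N × Bool) × V) =>
        Bad4 F (w p.2.1.1) (b p.2.1) p.1 p.2.2)).card ≤
        (univ.filter (fun q : (Fin N × Bool) × (V × V) =>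
        Bad4 F (w q.1.1) (b q.1) q.2.1 q.2.2)).card := by
        refine card_le_card_of_injOn (fun p => (p.2.1, (p.1, p.2.2))) ?_ ?_
        · intro p hp
          exact mem_coe.2 (mem_filter.2 ⟨mem_univ _, (mem_filter.1 hp).2⟩)
        · rintro ⟨x, p, y⟩ _ ⟨x', p', y'⟩ _ h
          have h1 := Prod.ext_iff.1 h
          have h2 := Prod.ext_iff.1 h1.2
          exact Prod.ext h2.1 (Prod.ext h1.1 h2.2)
      exact_mod_cast this
    have h2 := markov (fun (z : V) (p : (Fin N × Bool) × V) =>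
      Bad4 F (w p.1.1) (b p.1) z p.2) ((n : ℝ) / 8000) (8000 * (n : ℝ)) (by positivity) h1
    refine h2.trans (le_of_eq ?_)
    field_simp
    norm_num
  have hbD : ∀ p, b p ∉ D := by
    intro q hq
    have h1 : (n : ℝ) / 8000 < (E (b q) : ℝ) := (mem_filter.1 hq).2
    have h2 : (E (b q) : ℝ) ≤ (N * 2 : ℕ) * ((n : ℝ) / 10 ^ 23) := by
      have h3 : E (b q) = ∑ p : Fin N × Bool, cod F (w p.1) (b p) (b q) :=
        card_prod_fiber' (fun (p : Fin N × Bool) (y : V) => Bad4 F (w p.1) (b p) (b q) y) _ _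
      rw [h3]
      push_cast
      refine (Finset.sum_le_card_nsmul _ _ _ (fun p _ => hb6 p q)).trans (le_of_eq ?_)
      rw [card_univ, Fintype.card_prod, Fintype.card_fin, Fintype.card_bool, nsmul_eq_mul]
      push_cast
      ring
    push_cast at h2
    have h4 : (N : ℝ) * 2 * ((n : ℝ) / 10 ^ 23) ≤ (4 * 10 ^ 17) * 2 * (n / 10 ^ 23) := by
      have : (0 : ℝ) ≤ n / 10 ^ 23 := by positivity
      nlinarith
    have h5 : (4 * 10 ^ 17) * 2 * ((n : ℝ) / 10 ^ 23) ≤ n / 8000 := by
      have e : (4 * 10 ^ 17) * 2 * ((n : ℝ) / 10 ^ 23) = n * (8 / 10 ^ 6) := by ring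
      rw [e]
      linarith
    linarith
  set L := D \ W with hL
  have hLc : (L.card : ℝ) ≤ 64 * 10 ^ 6 :=
    le_trans (by exact_mod_cast card_le_card sdiff_subset) hDc
  have hdegL : ∀ u, u ∉ W → ((univ.filter (fun p : V × V × V => Bad4 F u p.1 p.2.1 p.2.2)).card
      : ℝ) ≤ (n : ℝ) ^ 2 / 10 ^ 16 := by
    intro u hu
    by_contra hcon
    push Not at hcon
    exact hu (mem_filter.2 ⟨mem_univ _, hcon⟩)
  set B := univ.image b with hB
  have hBc : (B.card : ℝ) ≤ 2 * N := by
    have h1 : B.card ≤ N * 2 := by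
      refine card_image_le.trans (le_of_eq ?_)
      rw [card_univ, Fintype.card_prod, Fintype.card_fin, Fintype.card_bool]
    have h2 : (B.card : ℝ) ≤ N * 2 := by exact_mod_cast h1
    linarith
  -- choose the neighbours of the dangerous vertices
  obtain ⟨g, hg1, hg2⟩ := seq_choice (α := V × V) L
    (fun u f => f.1 ≠ f.2 ∧ ∀ c, c = f.1 ∨ c = f.2 → c ∉ W ∧ c ∉ L ∧ c ∉ B ∧
      (∀ p, ¬ Bad4 F (w p.1) (b p) u c) ∧ ∀ y, (cod F u c y : ℝ) ≤ n / 10 ^ 13)
    (fun u f v f' => ∀ c d, (c = f.1 ∨ c = f.2) → (d = f'.1 ∨ d = f'.2) → c ≠ d ∧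
      ¬ Bad4 F u c v d)
    (by
      intro t ht g hgt _ u hu hut
      have huW : u ∉ W := (mem_sdiff.1 hu).2
      -- forbidden set
      set S1 := univ.filter (fun y => ∃ p, Bad4 F (w p.1) (b p) u y) with hS1
      set S2 := (univ.filter (fun p : V × V => (n : ℝ) / 10 ^ 13 < (cod F u p.1 p.2 : ℝ))).image
        Prod.fst with hS2
      set S3 := t.biUnion (fun v => {(g v).1, (g v).2} ∪
        (univ.filter (Bad4 F v (g v).1 u) ∪ univ.filter (Bad4 F v (g v).2 u))) with hS3
      have c1 : (S1.card : ℝ) ≤ 98 / 100 * n + N := hb5 u huW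
      have c2 : (S2.card : ℝ) ≤ n / 1000 := by
        refine le_trans (Nat.cast_le.2 card_image_le) ?_
        have h1 : ((univ.filter (fun p : (V × V) × V => Bad4 F u p.1.1 p.1.2 p.2)).card : ℝ) ≤
            (n : ℝ) ^ 2 / 10 ^ 16 := by
          refine le_trans ?_ (hdegL u huW)
          have : (univ.filter (fun p : (V × V) × V => Bad4 F u p.1.1 p.1.2 p.2)).card ≤
              (univ.filter (fun p : V × V × V => Bad4 F u p.1 p.2.1 p.2.2)).card := by
            refine card_le_card_of_injOn (fun p => (p.1.1, p.1.2, p.2)) ?_ ?_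
            · intro p hp
              exact mem_coe.2 (mem_filter.2 ⟨mem_univ _, (mem_filter.1 hp).2⟩)
            · rintro ⟨⟨x, p⟩, y⟩ _ ⟨⟨x', p'⟩, y'⟩ _ h
              have h1 := Prod.ext_iff.1 h
              have h2 := Prod.ext_iff.1 h1.2
              exact Prod.ext (Prod.ext h1.1 h2.1) h2.2
          exact_mod_cast this
        have h2 := markov (fun (p : V × V) (t : V) => Bad4 F u p.1 p.2 t) ((n : ℝ) / 10 ^ 13)
          ((n : ℝ) ^ 2 / 10 ^ 16) (by positivity) h1
        refine h2.trans (le_of_eq ?_)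
        field_simp
        norm_num
      have c3 : (S3.card : ℝ) ≤ (64 * 10 ^ 6) * (2 + 2 * (n / 10 ^ 13)) := by
        have h1 : (S3.card : ℝ) ≤ ∑ v ∈ t, (2 + 2 * ((n : ℝ) / 10 ^ 13)) := by
          have h2 := card_biUnion_le (s := t) (t := fun v => ({(g v).1, (g v).2} ∪
            (univ.filter (Bad4 F v (g v).1 u) ∪ univ.filter (Bad4 F v (g v).2 u)) : Finset V))
          have h3 := Nat.cast_le (α := ℝ).2 h2
          refine h3.trans ?_
          push_cast
          refine Finset.sum_le_sum (fun v hv => ?_)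
          have h4 := (card_union_le ({(g v).1, (g v).2} : Finset V)
            (univ.filter (Bad4 F v (g v).1 u) ∪ univ.filter (Bad4 F v (g v).2 u))).trans
            (add_le_add card_le_two (card_union_le _ _))
          have h5 := Nat.cast_le (α := ℝ).2 h4
          refine h5.trans ?_
          push_cast
          have h6 := (hgt v hv).2 (g v).1 (Or.inl rfl)
          have h7 := (hgt v hv).2 (g v).2 (Or.inr rfl)
          have h8 := h6.2.2.2.2 u
          have h9 := h7.2.2.2.2 u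
          unfold cod at h8 h9
          linarith
        rw [Finset.sum_const, nsmul_eq_mul] at h1
        refine h1.trans (mul_le_mul_of_nonneg_right ?_ (by positivity))
        exact le_trans (by exact_mod_cast card_le_card ht) hLc
      set Fb := W ∪ (L ∪ (B ∪ (S1 ∪ (S2 ∪ S3)))) with hFb
      have cF : (Fb.card : ℝ) < n - 1 := by
        have h1 := (card_union_le W (L ∪ (B ∪ (S1 ∪ (S2 ∪ S3))))).trans (Nat.add_le_add_left
          ((card_union_le _ _).trans (Nat.add_le_add_left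
          ((card_union_le _ _).trans (Nat.add_le_add_left
          ((card_union_le _ _).trans (Nat.add_le_add_left
          (card_union_le _ _) _)) _)) _)) _)
        have h2 := Nat.cast_le (α := ℝ).2 h1
        push_cast at h2
        refine lt_of_le_of_lt h2 ?_
        have h3 : (64 * 10 ^ 6 : ℝ) * (2 + 2 * (n / 10 ^ 13)) = 128 * 10 ^ 6 + n * (128 / 10 ^ 7) := by
          ring
        rw [h3] at c3
        rw [hN]
        linarith
      have hFbn : Fb.card + 1 < n := by
        have : (Fb.card : ℝ) + 1 < n := by linarith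
        exact_mod_cast this
      obtain ⟨c, hc⟩ : ∃ c, c ∉ Fb := by
        by_contra hcon
        push Not at hcon
        have := card_le_card (fun x (_ : x ∈ (univ : Finset V)) => hcon x)
        rw [card_univ, hn] at this
        omega
      obtain ⟨c', hc'⟩ : ∃ c', c' ∉ insert c Fb := by
        by_contra hcon
        push Not at hcon
        have := card_le_card (fun x (_ : x ∈ (univ : Finset V)) => hcon x)
        have h2 := card_insert_le c Fb
        rw [card_univ, hn] at this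
        omega
      rw [mem_insert, not_or] at hc'
      have hcc : ∀ x, x ∉ Fb → x ∉ W ∧ x ∉ L ∧ x ∉ B ∧
          (∀ p, ¬ Bad4 F (w p.1) (b p) u x) ∧ (∀ y, (cod F u x y : ℝ) ≤ n / 10 ^ 13) ∧
          ∀ v ∈ t, ∀ d, (d = (g v).1 ∨ d = (g v).2) → x ≠ d ∧ ¬ Bad4 F v d u x := by
        intro x hx
        simp only [hFb, mem_union, not_or] at hx
        obtain ⟨x1, x2, x3, x4, x5, x6⟩ := hx
        refine ⟨x1, x2, x3, ?_, ?_, ?_⟩
        · intro p hp
          exact x4 (mem_filter.2 ⟨mem_univ _, p, hp⟩)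
        · intro y
          by_contra hcon
          push Not at hcon
          exact x5 (mem_image.2 ⟨(x, y), mem_filter.2 ⟨mem_univ _, hcon⟩, rfl⟩)
        · intro v hv d hd
          have h1 : x ∉ ({(g v).1, (g v).2} ∪
            (univ.filter (Bad4 F v (g v).1 u) ∪ univ.filter (Bad4 F v (g v).2 u)) : Finset V) :=
            fun h => x6 (mem_biUnion.2 ⟨v, hv, h⟩)
          simp only [mem_union, not_or, mem_insert, mem_singleton] at h1
          obtain ⟨⟨y1, y2⟩, y3, y4⟩ := h1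
          rcases hd with rfl | rfl
          · exact ⟨y1, fun h => y3 (mem_filter.2 ⟨mem_univ _, h⟩)⟩
          · exact ⟨y2, fun h => y4 (mem_filter.2 ⟨mem_univ _, h⟩)⟩
      refine ⟨(c, c'), ⟨fun h => hc'.1 h.symm, ?_⟩, ?_⟩
      · rintro x (rfl | rfl)
        · obtain ⟨z1, z2, z3, z4, z5, -⟩ := hcc _ hc
          exact ⟨z1, z2, z3, z4, z5⟩
        · obtain ⟨z1, z2, z3, z4, z5, -⟩ := hcc _ hc'.2
          exact ⟨z1, z2, z3, z4, z5⟩
      · intro v hv
        constructor
        · rintro x d hx hd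
          have hxF : x ∉ Fb := by
            rcases hx with rfl | rfl
            · exact hc
            · exact hc'.2
          obtain ⟨-, -, -, -, -, z6⟩ := hcc x hxF
          obtain ⟨z7, z8⟩ := z6 v hv d hd
          exact ⟨z7, fun h => z8 (bad4_s4 h)⟩
        · rintro d x hd hx
          have hxF : x ∉ Fb := by
            rcases hx with rfl | rfl
            · exact hc
            · exact hc'.2
          obtain ⟨-, -, -, -, -, z6⟩ := hcc x hxF
          obtain ⟨z7, z8⟩ := z6 v hv d hd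
          exact ⟨z7.symm, z8⟩)
  -- the blocks
  set φ : (Fin N ⊕ {u // u ∈ L}) × Fin 3 → V := fun p =>
    match p.1 with
    | .inl i => ![b (i, true), w i, b (i, false)] p.2
    | .inr u => ![(g u.1).1, u.1, (g u.1).2] p.2 with hφ
  have p0 : ∀ i, φ (.inl i, 0) = b (i, true) := fun _ => rfl
  have p1 : ∀ i, φ (.inl i, 1) = w i := fun _ => rfl
  have p2 : ∀ i, φ (.inl i, 2) = b (i, false) := fun _ => rfl
  have q0 : ∀ u, φ (.inr u, 0) = (g u.1).1 := fun _ => rfl
  have q1 : ∀ u, φ (.inr u, 1) = u.1 := fun _ => rfl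
  have q2 : ∀ u, φ (.inr u, 2) = (g u.1).2 := fun _ => rfl
  have hendl : ∀ i s, endv φ (.inl i, s) = b (i, s) := by
    intro i s
    rcases s
    · exact p2 i
    · exact p0 i
  have hendr : ∀ u s, endv φ (.inr u, s) = (g u.1).1 ∨ endv φ (.inr u, s) = (g u.1).2 := by
    intro u s
    rcases s
    · exact Or.inr (q2 u)
    · exact Or.inl (q0 u)
  have hwW' : ∀ i, w i ∈ W := fun i => (hwW _).2 ⟨i, rfl⟩
  have hLW : ∀ u ∈ L, u ∉ W := fun u hu => (mem_sdiff.1 hu).2
  have hbL : ∀ p, b p ∉ L := fun p h => hbD p (mem_sdiff.1 h).1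
  have hbB : ∀ p, b p ∈ B := fun p => mem_image.2 ⟨p, mem_univ _, rfl⟩
  have hg := fun u (hu : u ∈ L) => (hg1 u hu).2
  have hφinj : Function.Injective φ := by
    rintro ⟨k, j⟩ ⟨k', j'⟩ h
    rcases k with i | u <;> rcases k' with i' | u'
    · fin_cases j <;> fin_cases j' <;>
        simp only [Fin.zero_eta, Fin.mk_one, Fin.reduceFinMk, p0, p1, p2] at h
      · have h' : i = i' := (Prod.ext_iff.1 (hb1 h)).1
        rw [h']
      · exact absurd (h ▸ hwW' i') (hb2 _)
      · have h' : true = false := (Prod.ext_iff.1 (hb1 h)).2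
        exact absurd h' (by decide)
      · exact absurd (h ▸ hwW' i) (hb2 _)
      · rw [hwinj h]
      · exact absurd (h ▸ hwW' i) (hb2 _)
      · have h' : false = true := (Prod.ext_iff.1 (hb1 h)).2
        exact absurd h' (by decide)
      · exact absurd (h ▸ hwW' i') (hb2 _)
      · have h' : i = i' := (Prod.ext_iff.1 (hb1 h)).1
        rw [h']
    · exfalso
      have hu'1 := hg u'.1 u'.2 _ (Or.inl rfl)
      have hu'2 := hg u'.1 u'.2 _ (Or.inr rfl)
      fin_cases j <;> fin_cases j' <;>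
        simp only [Fin.zero_eta, Fin.mk_one, Fin.reduceFinMk, p0, p1, p2, q0, q1, q2] at h
      · exact hu'1.2.2.1 (h ▸ hbB _)
      · exact hbL _ (h ▸ u'.2)
      · exact hu'2.2.2.1 (h ▸ hbB _)
      · exact hu'1.1 (h ▸ hwW' i)
      · exact hLW _ u'.2 (h ▸ hwW' i)
      · exact hu'2.1 (h ▸ hwW' i)
      · exact hu'1.2.2.1 (h ▸ hbB _)
      · exact hbL _ (h ▸ u'.2)
      · exact hu'2.2.2.1 (h ▸ hbB _)
    · exfalso
      have hu1 := hg u.1 u.2 _ (Or.inl rfl)
      have hu2 := hg u.1 u.2 _ (Or.inr rfl)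
      fin_cases j <;> fin_cases j' <;>
        simp only [Fin.zero_eta, Fin.mk_one, Fin.reduceFinMk, p0, p1, p2, q0, q1, q2] at h
      · exact hu1.2.2.1 (h ▸ hbB _)
      · exact hu1.1 (h ▸ hwW' i')
      · exact hu1.2.2.1 (h ▸ hbB _)
      · exact hbL _ (h ▸ u.2)
      · exact hLW _ u.2 (h ▸ hwW' i')
      · exact hbL _ (h ▸ u.2)
      · exact hu2.2.2.1 (h ▸ hbB _)
      · exact hu2.1 (h ▸ hwW' i')
      · exact hu2.2.2.1 (h ▸ hbB _)
    · by_cases huu : u = u'
      · subst huu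
        have hne := (hg1 u.1 u.2).1
        have hu1 := hg u.1 u.2 _ (Or.inl rfl)
        have hu2 := hg u.1 u.2 _ (Or.inr rfl)
        fin_cases j <;> fin_cases j' <;>
          simp only [Fin.zero_eta, Fin.mk_one, Fin.reduceFinMk, q0, q1, q2] at h
        · rfl
        · exact absurd (by rw [h]; exact u.2) hu1.2.1
        · exact absurd h hne
        · exact absurd (by rw [← h]; exact u.2) hu1.2.1
        · rfl
        · exact absurd (by rw [← h]; exact u.2) hu2.2.1
        · exact absurd h.symm hne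
        · exact absurd (by rw [h]; exact u.2) hu2.2.1
        · rfl
      · exfalso
        have huu' : u.1 ≠ u'.1 := fun h => huu (Subtype.ext h)
        have hc := hg2 u.1 u.2 u'.1 u'.2 huu'
        have hu1 := hg u.1 u.2 _ (Or.inl rfl)
        have hu2 := hg u.1 u.2 _ (Or.inr rfl)
        have hu'1 := hg u'.1 u'.2 _ (Or.inl rfl)
        have hu'2 := hg u'.1 u'.2 _ (Or.inr rfl)
        fin_cases j <;> fin_cases j' <;>
          simp only [Fin.zero_eta, Fin.mk_one, Fin.reduceFinMk, q0, q1, q2] at h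
        · exact (hc _ _ (Or.inl rfl) (Or.inl rfl)).1 h
        · exact hu1.2.1 (h ▸ u'.2)
        · exact (hc _ _ (Or.inl rfl) (Or.inr rfl)).1 h
        · exact hu'1.2.1 (h ▸ u.2)
        · exact huu' h
        · exact hu'2.2.1 (h ▸ u.2)
        · exact (hc _ _ (Or.inr rfl) (Or.inl rfl)).1 h
        · exact hu2.2.1 (h ▸ u'.2)
        · exact (hc _ _ (Or.inr rfl) (Or.inr rfl)).1 h
  have hcent : ∀ z, (∀ k, z ≠ φ (k, 1)) → z ∉ W ∧ z ∉ L := by
    intro z hz
    constructor
    · intro h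
      obtain ⟨i, hi⟩ := (hwW z).1 h
      exact hz (.inl i) (hi.symm.trans (p1 i).symm)
    · intro h
      exact hz (.inr ⟨z, h⟩) (q1 ⟨z, h⟩).symm
  have hKc : (Fintype.card (Fin N ⊕ {u // u ∈ L}) : ℝ) ≤ 4 * 10 ^ 17 + 64 * 10 ^ 6 := by
    rw [Fintype.card_sum, Fintype.card_fin, Fintype.card_coe]
    push_cast
    linarith
  refine core_y n hn (Bad4 F) (fun _ _ _ _ h => bad4_s1 h) (fun _ _ _ _ h => bad4_s2 h)
    (fun _ _ _ _ h => bad4_s3 h) (fun _ _ _ _ h => h.1) φ hφinj ?_ ?_ ?_ ?_ ?_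
  · intro z hz
    refine (hdegL z (hcent z hz).1).trans ?_
    have : (0 : ℝ) ≤ (n : ℝ) ^ 2 := by positivity
    linarith
  · intro z hz
    obtain ⟨hzW, hzL⟩ := hcent z hz
    have hEz : (E z : ℝ) ≤ n / 8000 := by
      by_contra hcon
      push Not at hcon
      exact hzL (mem_sdiff.2 ⟨mem_filter.2 ⟨mem_univ _, hcon⟩, hzW⟩)
    have hsub : (univ.filter (fun p : ((Fin N ⊕ {u // u ∈ L}) × Bool) × V =>
        Bad4 F (φ (p.1.1, 1)) (endv φ p.1) z p.2)) ⊆
        (univ.filter (fun q : (Fin N × Bool) × V => Bad4 F (w q.1.1) (b q.1) z q.2)).image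
          (fun q => (((.inl q.1.1 : Fin N ⊕ {u // u ∈ L}), q.1.2), q.2)) ∪
        (univ : Finset ({u // u ∈ L} × Bool)).biUnion (fun us =>
          (univ.filter (Bad4 F us.1.1 (endv φ (.inr us.1, us.2)) z)).image
          (fun y => (((.inr us.1 : Fin N ⊕ {u // u ∈ L}), us.2), y))) := by
      rintro ⟨⟨k, s⟩, y⟩ h
      have h1 := (mem_filter.1 h).2
      rw [mem_union]
      rcases k with i | u
      · left
        refine mem_image.2 ⟨((i, s), y), mem_filter.2 ⟨mem_univ _, ?_⟩, rfl⟩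
        have h2 : Bad4 F (φ (.inl i, 1)) (endv φ (.inl i, s)) z y := h1
        rw [hendl, p1] at h2
        exact h2
      · right
        exact mem_biUnion.2 ⟨(u, s), mem_univ _, mem_image.2 ⟨y, mem_filter.2 ⟨mem_univ _, h1⟩,
          rfl⟩⟩
    have h1 := (card_le_card hsub).trans ((card_union_le _ _).trans
      (add_le_add card_image_le card_biUnion_le))
    have h2 := Nat.cast_le (α := ℝ).2 h1
    refine h2.trans ?_
    push_cast
    have h3 : ∑ us : {u // u ∈ L} × Bool,
        ((((univ.filter (Bad4 F us.1.1 (endv φ (.inr us.1, us.2)) z)).image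
          (fun y => (((.inr us.1 : Fin N ⊕ {u // u ∈ L}), us.2), y))).card : ℕ) : ℝ) ≤
        (L.card * 2 : ℕ) * ((n : ℝ) / 10 ^ 13) := by
      have h4 : ∀ us : {u // u ∈ L} × Bool,
          ((((univ.filter (Bad4 F us.1.1 (endv φ (.inr us.1, us.2)) z)).image
          (fun y => (((.inr us.1 : Fin N ⊕ {u // u ∈ L}), us.2), y))).card : ℕ) : ℝ) ≤
          (n : ℝ) / 10 ^ 13 := by
        intro us
        refine le_trans (Nat.cast_le.2 card_image_le) ?_
        have h5 := (hg us.1.1 us.1.2 _ (hendr us.1 us.2)).2.2.2.2 z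
        exact h5
      refine (Finset.sum_le_card_nsmul _ _ _ (fun us _ => h4 us)).trans (le_of_eq ?_)
      rw [card_univ, Fintype.card_prod, Fintype.card_coe, Fintype.card_bool, nsmul_eq_mul]
    have h6 : ((L.card * 2 : ℕ) : ℝ) * ((n : ℝ) / 10 ^ 13) ≤
        (64 * 10 ^ 6 * 2) * ((n : ℝ) / 10 ^ 13) := by
      refine mul_le_mul_of_nonneg_right ?_ (by positivity)
      push_cast
      linarith
    have h7 : (64 * 10 ^ 6 * 2) * ((n : ℝ) / 10 ^ 13) = n * (128 / 10 ^ 7) := by ring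
    rw [h7] at h6
    have hEz' : ((univ.filter (fun q : (Fin N × Bool) × V =>
      Bad4 F (w q.1.1) (b q.1) z q.2)).card : ℝ) ≤ n / 8000 := hEz
    linarith
  · rintro ⟨k, s⟩ ⟨k', s'⟩ hkk h
    rcases k with i | u <;> rcases k' with i' | u'
    · rw [hendl, hendl] at h
      exact hb3 (i, s) (i', s') (fun hh => hkk (congrArg Sum.inl hh)) h
    · rw [hendl] at h
      exact (hg u'.1 u'.2 _ (hendr u' s')).2.2.2.1 (i, s) h
    · rw [hendl] at h
      exact (hg u.1 u.2 _ (hendr u s)).2.2.2.1 (i', s') (bad4_s4 h)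
    · have huu' : u.1 ≠ u'.1 := fun hh => hkk (congrArg Sum.inr (Subtype.ext hh))
      exact (hg2 u.1 u.2 u'.1 u'.2 huu' _ _ (hendr u s) (hendr u' s')).2 h
  · have : 10000 * (Fintype.card (Fin N ⊕ {u // u ∈ L}) : ℝ) ≤ n := by linarith
    exact_mod_cast this
  · have : (1000 : ℝ) ≤ n := by linarith
    exact_mod_cast this

end Pool.Agent.Lib.MP_e42343_co
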