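import Pool.Agent.Lib.MP_e42343_co.Unions
import Pool.Agent.Lib.MP_e42343_co.LowerX
import Pool.Agent.Lib.MP_e42343_co.LowerY

/-!
Lower bounds for `m (3,1,1) n` and `m (2,2,1) n`.
-/

namespace Pool.Agent.Lib.MP_e42343_co

open Finset Classical

variable {n : ℕ}

/-- The family of all five-sets has no `(3,1,1)`-acceptable cycle. -/
lemma set311_nonempty (hn : 5 ≤ n) :
    {k : ℕ | ∃ F : Finset (Finset (Fin n)), (∀ A ∈ F, A.card = ([3, 1, 1] : List ℕ).sum) ∧
      F.card = k ∧ ∀ c : ZMod n ≃ Fin n, ¬ Acceptable F [3, 1, 1] c}.Nonempty := by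
  refine ⟨_, powersetCard 5 univ, ?_, rfl, ?_⟩
  · intro A hA
    rw [(mem_powersetCard.mp hA).2]
    rfl
  · intro c
    obtain ⟨A, hA1, hA2⟩ := exists_superset_card_eq (n := 5)
      (s := ({c 0, c (0 + 1), c (0 + 2)} : Finset (Fin n)))
      (by have : ({c 0, c (0 + 1), c (0 + 2)} : Finset (Fin n)).card ≤ 3 := card_le_three
          omega) (by rw [Fintype.card_fin]; exact hn)
    apply not_acc311 c (by omega) _ A (by simp [hA2]) hA2 0
    refine ⟨hA1 (by simp), hA1 (by simp), hA1 (by simp)⟩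

/-- The family of all five-sets has no `(2,2,1)`-acceptable cycle. -/
lemma set221_nonempty (hn : 5 ≤ n) :
    {k : ℕ | ∃ F : Finset (Finset (Fin n)), (∀ A ∈ F, A.card = ([2, 2, 1] : List ℕ).sum) ∧
      F.card = k ∧ ∀ c : ZMod n ≃ Fin n, ¬ Acceptable F [2, 2, 1] c}.Nonempty := by
  refine ⟨_, powersetCard 5 univ, ?_, rfl, ?_⟩
  · intro A hA
    rw [(mem_powersetCard.mp hA).2]
    rfl
  · intro c
    obtain ⟨A, hA1, hA2⟩ := exists_superset_card_eq (n := 5)
      (s := ({c 0, c (0 + 1), c 2, c (2 + 1)} : Finset (Fin n)))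
      (by have : ({c 0, c (0 + 1), c 2, c (2 + 1)} : Finset (Fin n)).card ≤ 4 := card_le_four
          omega) (by rw [Fintype.card_fin]; exact hn)
    have key : ∀ a b : ℕ, a < b → b < n → (a : ZMod n) ≠ (b : ZMod n) := by
      intro a b hab hb h
      rw [ZMod.natCast_eq_natCast_iff'] at h
      rw [Nat.mod_eq_of_lt (by omega), Nat.mod_eq_of_lt hb] at h
      omega
    have k01 := key 0 1 (by omega) (by omega)
    have k02 := key 0 2 (by omega) (by omega)
    have k03 := key 0 3 (by omega) (by omega)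
    have k12 := key 1 2 (by omega) (by omega)
    have k13 := key 1 3 (by omega) (by omega)
    have k23 := key 2 3 (by omega) (by omega)
    push_cast at k01 k02 k03 k12 k13 k23
    have e3 : (2 : ZMod n) + 1 = 3 := by ring
    apply not_acc221 c _ A (by simp [hA2]) hA2 0 2
    · rw [e3, zero_add]
      exact ⟨c.injective.ne k01, c.injective.ne k02, c.injective.ne k03, c.injective.ne k12,
        c.injective.ne k13, c.injective.ne k23⟩
    · exact ⟨hA1 (by simp), hA1 (by simp), hA1 (by simp), hA1 (by simp)⟩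

theorem lower311 (n : ℕ) (hn : 10 ^ 9 ≤ n) : n ^ 2 < 17 * m [3, 1, 1] n := by
  have : NeZero n := ⟨by omega⟩
  obtain ⟨F, h5, hcard, hacc⟩ := Nat.sInf_mem (set311_nonempty (n := n) (by omega))
  have hm : F.card = m [3, 1, 1] n := hcard
  rw [← hm]
  by_contra hcon
  push Not at hcon
  have h5' : ∀ A ∈ F, A.card = 5 := fun A hA => (h5 A hA).trans rfl
  obtain ⟨d, hd⟩ := lower_x n (Fintype.card_fin n) hn F h5' hcon
  apply hacc d
  apply acc311_of
  intro t hA
  obtain ⟨h1, h2, h3⟩ := three_distinct d (by omega) t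
  exact hd t ⟨h1, h2, h3, hA⟩

theorem lower221 : ∃ n₀ : ℕ, ∀ n ≥ n₀, n ^ 2 < 17 * m [2, 2, 1] n := by
  obtain ⟨n₀, hn₀⟩ := lower_y
  refine ⟨max n₀ 5, fun n hn => ?_⟩
  have hn5 : 5 ≤ n := (le_max_right _ _).trans hn
  have : NeZero n := ⟨by omega⟩
  obtain ⟨F, h5, hcard, hacc⟩ := Nat.sInf_mem (set221_nonempty (n := n) hn5)
  have hm : F.card = m [2, 2, 1] n := hcard
  rw [← hm]
  by_contra hcon
  push Not at hcon
  have h5' : ∀ A ∈ F, A.card = 5 := fun A hA => (h5 A hA).trans rfl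
  obtain ⟨d, hd⟩ := hn₀ (Fin n) n (Fintype.card_fin n) ((le_max_left _ _).trans hn) F h5' hcon
  apply hacc d
  apply acc221_of d F h5'
  intro t t' hA
  exact hd t t' hA

end Pool.Agent.Lib.MP_e42343_co
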