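import Pool.Agent.Lib.MP_e42343_co.Density

/-!
Choice of the neighbours of the heavy vertices.
-/

namespace Pool.Agent.Lib.MP_e42343_co

open Finset Classical

section
variable {V : Type} [Fintype V]

omit [Fintype V] in
lemma bad4_s1 {F : Finset (Finset V)} {x y z w : V} (h : Bad4 F x y z w) : Bad4 F y x z w := by
  obtain ⟨⟨h1, h2, h3, h4, h5, h6⟩, A, hA, a1, a2, a3, a4⟩ := h
  exact ⟨⟨h1.symm, h4, h5, h2, h3, h6⟩, A, hA, a2, a1, a3, a4⟩

omit [Fintype V] in
lemma bad4_s2 {F : Finset (Finset V)} {x y z w : V} (h : Bad4 F x y z w) : Bad4 F x z y w := by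
  obtain ⟨⟨h1, h2, h3, h4, h5, h6⟩, A, hA, a1, a2, a3, a4⟩ := h
  exact ⟨⟨h2, h1, h3, h4.symm, h6, h5⟩, A, hA, a1, a3, a2, a4⟩

omit [Fintype V] in
lemma bad4_s3 {F : Finset (Finset V)} {x y z w : V} (h : Bad4 F x y z w) : Bad4 F x y w z := by
  obtain ⟨⟨h1, h2, h3, h4, h5, h6⟩, A, hA, a1, a2, a3, a4⟩ := h
  exact ⟨⟨h1, h3, h2, h5, h4, h6.symm⟩, A, hA, a1, a2, a4, a3⟩

omit [Fintype V] in
lemma bad4_s4 {F : Finset (Finset V)} {x y z w : V} (h : Bad4 F x y z w) : Bad4 F z w x y :=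
  bad4_s2 (bad4_s3 (bad4_s1 (bad4_s2 h)))

/-- codegree of a triple -/
noncomputable def cod (F : Finset (Finset V)) (x y z : V) : ℕ := (univ.filter (Bad4 F x y z)).card

lemma count4 (F : Finset (Finset V)) (h5 : ∀ A ∈ F, A.card = 5) :
    (univ.filter (fun p : V × (V × (V × V)) => Bad4 F p.1 p.2.1 p.2.2.1 p.2.2.2)).card ≤
      F.card * 625 := by
  refine (card_le_card (t := F.biUnion (fun A => A ×ˢ (A ×ˢ (A ×ˢ A)))) ?_).trans
    (card_biUnion_le_card_mul _ _ _ (fun A hA => ?_))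
  · rintro ⟨x, y, z, w⟩ h
    obtain ⟨-, A, hA, a1, a2, a3, a4⟩ := (mem_filter.1 h).2
    exact mem_biUnion.2 ⟨A, hA, mem_product.2 ⟨a1, mem_product.2 ⟨a2, mem_product.2 ⟨a3, a4⟩⟩⟩⟩
  · rw [card_product, card_product, card_product, h5 A hA]

lemma count4v (F : Finset (Finset V)) (h5 : ∀ A ∈ F, A.card = 5) (w : V) :
    (univ.filter (fun p : (V × V) × V => Bad4 F w p.1.1 p.1.2 p.2)).card ≤ F.card * 125 := by
  refine (card_le_card (t := F.biUnion (fun A => (A ×ˢ A) ×ˢ A)) ?_).trans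
    (card_biUnion_le_card_mul _ _ _ (fun A hA => ?_))
  · rintro ⟨⟨x, y⟩, z⟩ h
    obtain ⟨-, A, hA, a1, a2, a3, a4⟩ := (mem_filter.1 h).2
    exact mem_biUnion.2 ⟨A, hA, mem_product.2 ⟨mem_product.2 ⟨a2, a3⟩, a4⟩⟩
  · rw [card_product, card_product, h5 A hA]

/-- few pairs have large codegree with a given vertex -/
lemma few_pairs (F : Finset (Finset V)) (h5 : ∀ A ∈ F, A.card = 5) (w : V) (n T : ℝ)
    (hF : 17 * (F.card : ℝ) ≤ n ^ 2) (hT : 0 < T) :
    ((univ.filter (fun p : V × V => T < (cod F w p.1 p.2 : ℝ))).card : ℝ) ≤ 8 * n ^ 2 / T := by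
  have h1 := markov (fun (p : V × V) (t : V) => Bad4 F w p.1 p.2 t) T (8 * n ^ 2) hT (by
    have h2 : ((univ.filter (fun p : (V × V) × V => Bad4 F w p.1.1 p.1.2 p.2)).card : ℝ) ≤
      F.card * 125 := by exact_mod_cast count4v F h5 w
    linarith)
  exact h1

end

theorem step1 : ∃ n₀ : ℕ, ∀ (V : Type) [Fintype V] (n : ℕ), Fintype.card V = n → n₀ ≤ n →
    ∀ F : Finset (Finset V), (∀ A ∈ F, A.card = 5) → 17 * F.card ≤ n ^ 2 →
    ∀ N : ℕ, N ≤ 4 * 10 ^ 17 → ∀ w : Fin N → V, Function.Injective w →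
    ∀ W : Finset V, (∀ v, v ∈ W ↔ ∃ i, w i = v) →
    ∃ b : Fin N × Bool → V, Function.Injective b ∧ (∀ p, b p ∉ W) ∧
      (∀ p q, p.1 ≠ q.1 → ¬ Bad4 F (w p.1) (b p) (w q.1) (b q)) ∧
      ((univ.filter (fun q : (Fin N × Bool) × (V × V) =>
        Bad4 F (w q.1.1) (b q.1) q.2.1 q.2.2)).card : ℝ) ≤ 8000 * n ∧
      (∀ u, u ∉ W → ((univ.filter (fun y => ∃ p, Bad4 F (w p.1) (b p) u y)).card : ℝ) ≤
        98 / 100 * n + N) ∧
      (∀ p q, (cod F (w p.1) (b p) (b q) : ℝ) ≤ n / 10 ^ 23) := by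
  obtain ⟨η, hη, hbox⟩ := box_uniform (4 * 10 ^ 17) (2 / 100) (by norm_num)
  obtain ⟨n1, hn1⟩ := exists_nat_gt (10 ^ 30 / η)
  refine ⟨max n1 (10 ^ 70), ?_⟩
  intro V _ n hn hn0 F h5 hF N hN w hw W hW
  have hn70 : (10 ^ 70 : ℝ) ≤ n := by exact_mod_cast (le_max_right _ _).trans hn0
  have hnη : (10 ^ 30 : ℝ) ≤ η * n := by
    have h1 : (n1 : ℝ) ≤ n := by exact_mod_cast (le_max_left _ _).trans hn0
    have h2 : 10 ^ 30 / η ≤ (n : ℝ) := (hn1.le).trans h1
    rw [div_le_iff₀ hη] at h2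
    linarith
  have hnpos : (0 : ℝ) < n := by linarith [show (0 : ℝ) < 10 ^ 70 by norm_num]
  have hVne : Nonempty V := by
    rw [← Fintype.card_pos_iff, hn]
    exact_mod_cast hnpos
  have hFr : 17 * (F.card : ℝ) ≤ (n : ℝ) ^ 2 := by exact_mod_cast hF
  have hNr : (N : ℝ) ≤ 4 * 10 ^ 17 := by exact_mod_cast hN
  have hN0 : (0 : ℝ) ≤ N := Nat.cast_nonneg _
  have hWcard : W.card = N := by
    have : W = univ.image w := by
      ext v
      rw [hW, mem_image]
      constructor
      · rintro ⟨i, hi⟩; exact ⟨i, mem_univ _, hi⟩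
      · rintro ⟨i, -, hi⟩; exact ⟨i, hi⟩
    rw [this, card_image_of_injective _ hw, card_univ, Fintype.card_fin]
  -- maximisers
  set m : Fin N → V → V → ℕ := fun i x v =>
    (univ.filter (fun y => v ∉ W ∧ y ∉ W ∧ Bad4 F (w i) x v y)).card with hm
  have hmax : ∀ i x, ∃ u, ∀ v, m i x v ≤ m i x u := by
    intro i x
    obtain ⟨u, -, hu⟩ := exists_max_image univ (m i x) ⟨Classical.arbitrary V, mem_univ _⟩
    exact ⟨u, fun v => hu v (mem_univ _)⟩
  choose u hu using hmax
  set A1 := (univ.filter (fun q : (Fin N × Fin N) × (V × V) => q.1.1 < q.1.2 ∧ q.2.1 ∉ W ∧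
    q.2.2 ∉ W ∧ Bad4 F (w q.1.1) q.2.1 (w q.1.2) q.2.2 ∧ NoRel u q.1.1 q.1.2 q.2.1 q.2.2))
    with hA1
  set X2 := (univ.filter (fun q : Fin N × (V × V) => q.2.1 ∉ W ∧ u q.1 q.2.1 ∉ W ∧ q.2.2 ∉ W ∧
      Bad4 F (w q.1) q.2.1 (u q.1 q.2.1) q.2.2)) with hX2
  have hkey : A1.card + 2 * X2.card ≤ 16 * F.card := key_ineq F h5 w hw W hW u
  set T : ℝ := (n : ℝ) / 10 ^ 23 with hT
  have hTpos : 0 < T := by positivity
  set Z := (univ.filter (fun q : (Fin N × Fin N) × (V × V) => q.1.1 ≠ q.1.2 ∧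
    (q.2.1 = q.2.2 ∨ ¬ NoRel u q.1.1 q.1.2 q.2.1 q.2.2 ∨
      T < (cod F (w q.1.1) q.2.1 q.2.2 : ℝ)))) with hZ
  set X3 := (univ.filter (fun q : Fin N × (V × (V × V)) =>
    Bad4 F (w q.1) q.2.1 q.2.2.1 q.2.2.2)) with hX3
  set X4 := (univ.filter (fun q : Fin N × (V × Unit) => q.2.1 ∈ W)) with hX4
  -- sizes
  have cX3 : (X3.card : ℝ) ≤ 37 * n ^ 2 := by
    have h1 : X3.card ≤ F.card * 625 := by
      refine le_trans ?_ (count4 F h5)
      refine card_le_card_of_injOn (fun q => (w q.1, q.2)) ?_ ?_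
      · intro q hq
        exact mem_coe.2 (mem_filter.2 ⟨mem_univ _, (mem_filter.1 hq).2⟩)
      · rintro ⟨i, q⟩ _ ⟨i', q'⟩ _ h
        have h := Prod.ext_iff.1 h
        exact Prod.ext (hw h.1) h.2
    have h2 : (X3.card : ℝ) ≤ F.card * 625 := by exact_mod_cast h1
    linarith
  have cX4 : (X4.card : ℝ) ≤ N * N := by
    have h1 : X4.card ≤ ((univ : Finset (Fin N)) ×ˢ (W ×ˢ (univ : Finset Unit))).card := by
      refine card_le_card ?_
      rintro ⟨i, x, z⟩ h
      exact mem_product.2 ⟨mem_univ _, mem_product.2 ⟨(mem_filter.1 h).2, mem_univ _⟩⟩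
    rw [card_product, card_product, card_univ, card_univ, hWcard, Fintype.card_fin] at h1
    have h2 : X4.card ≤ N * N := by simpa using h1
    exact_mod_cast h2
  have cZ : (Z.card : ℝ) ≤ N * N * (10 ^ 25 * n) := by
    -- for each pair of indices
    have hsub : Z ⊆ ((univ : Finset (Fin N × Fin N))).biUnion (fun ij =>
        ((((univ.image (fun v : V => (v, v))) ∪ ((univ.image (fun v : V => (v, u ij.1 v))) ∪
        ((univ.image (fun v : V => (u ij.1 v, v))) ∪ ((univ.image (fun v : V => (v, u ij.2 v))) ∪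
        ((univ.image (fun v : V => (u ij.2 v, v))) ∪
        (univ.filter (fun p : V × V => T < (cod F (w ij.1) p.1 p.2 : ℝ))))))))).image
        (fun p => (ij, p)))) := by
      rintro ⟨⟨i, j⟩, ⟨x, y⟩⟩ h
      obtain ⟨h1, h2⟩ := (mem_filter.1 h).2
      refine mem_biUnion.2 ⟨(i, j), mem_univ _, mem_image.2 ⟨(x, y), ?_, rfl⟩⟩
      simp only [mem_union, mem_image, mem_univ, true_and, mem_filter]
      rcases h2 with h2 | h2 | h2
      · left
        change x = y at h2
        exact ⟨x, by rw [h2]⟩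
      · unfold NoRel at h2
        by_contra hcon
        simp only [not_or, not_exists] at hcon
        obtain ⟨c1, c2, c3, c4, c5, c6⟩ := hcon
        apply h2
        exact ⟨fun h => c2 x (Prod.ext rfl h.symm), fun h => c3 y (Prod.ext h.symm rfl),
          fun h => c4 x (Prod.ext rfl h.symm), fun h => c5 y (Prod.ext h.symm rfl)⟩
      · exact Or.inr (Or.inr (Or.inr (Or.inr (Or.inr h2))))
    have hbd : ∀ ij : Fin N × Fin N, (((((univ.image (fun v : V => (v, v))) ∪
        ((univ.image (fun v : V => (v, u ij.1 v))) ∪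
        ((univ.image (fun v : V => (u ij.1 v, v))) ∪ ((univ.image (fun v : V => (v, u ij.2 v))) ∪
        ((univ.image (fun v : V => (u ij.2 v, v))) ∪
        (univ.filter (fun p : V × V => T < (cod F (w ij.1) p.1 p.2 : ℝ))))))))).image
        (fun p => (ij, p))).card : ℝ) ≤ 10 ^ 25 * n := by
      intro ij
      have him : ∀ f : V → V × V, ((univ.image f).card : ℝ) ≤ n := by
        intro f
        have := card_image_le (s := (univ : Finset V)) (f := f)
        rw [card_univ, hn] at this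
        exact_mod_cast this
      have hfp := few_pairs F h5 (w ij.1) n T hFr hTpos
      have hfp' : 8 * (n : ℝ) ^ 2 / T = 8 * 10 ^ 23 * n := by
        rw [hT]; field_simp
      rw [hfp'] at hfp
      refine le_trans (Nat.cast_le.2 card_image_le) ?_
      have h3 := ((card_union_le (univ.image (fun v : V => (v, v)))
        ((univ.image (fun v : V => (v, u ij.1 v))) ∪
        ((univ.image (fun v : V => (u ij.1 v, v))) ∪ ((univ.image (fun v : V => (v, u ij.2 v))) ∪
        ((univ.image (fun v : V => (u ij.2 v, v))) ∪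
        (univ.filter (fun p : V × V => T < (cod F (w ij.1) p.1 p.2 : ℝ)))))))).trans
        (Nat.add_le_add_left
        ((card_union_le _ _).trans (Nat.add_le_add_left
        ((card_union_le _ _).trans (Nat.add_le_add_left
        ((card_union_le _ _).trans (Nat.add_le_add_left
        (card_union_le _ _) _)) _)) _)) _))
      have h4 := Nat.cast_le (α := ℝ).2 h3
      refine h4.trans ?_
      push_cast
      have e1 := him (fun v : V => (v, v))
      have e2 := him (fun v : V => (v, u ij.1 v))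
      have e3 := him (fun v : V => (u ij.1 v, v))
      have e4 := him (fun v : V => (v, u ij.2 v))
      have e5 := him (fun v : V => (u ij.2 v, v))
      have : (0 : ℝ) < n := hnpos
      linarith
    have h1 : (Z.card : ℝ) ≤ ∑ ij : Fin N × Fin N, (10 ^ 25 * (n : ℝ)) := by
      have h2 := (card_le_card hsub).trans card_biUnion_le
      have h3 : (Z.card : ℝ) ≤ _ := Nat.cast_le (α := ℝ).2 h2
      refine h3.trans ?_
      push_cast
      exact Finset.sum_le_sum (fun ij _ => hbd ij)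
    rw [Finset.sum_const, card_univ, Fintype.card_prod, Fintype.card_fin, nsmul_eq_mul] at h1
    push_cast at h1
    exact h1
  -- density
  have hX1ne : ∀ q ∈ A1 ∪ Z, q.1.1 ≠ q.1.2 := by
    intro q hq
    rcases mem_union.1 hq with h | h
    · exact ne_of_lt (mem_filter.1 h).2.1
    · exact (mem_filter.1 h).2.1
  have hdens := density (N := N) (n : ℝ) (by rw [hn]) (A1 ∪ Z) X2 X3 X4 hX1ne (by
    have h1 : ((A1 ∪ Z).card : ℝ) ≤ A1.card + Z.card := by exact_mod_cast card_union_le A1 Z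
    have h2 : (A1.card : ℝ) + 2 * X2.card ≤ 16 * F.card := by exact_mod_cast hkey
    have hn2 : (0 : ℝ) < (n : ℝ) ^ 2 := by positivity
    have hA0 : (0 : ℝ) ≤ A1.card := Nat.cast_nonneg _
    have hX20 : (0 : ℝ) ≤ X2.card := Nat.cast_nonneg _
    have e1 : ((A1 ∪ Z).card : ℝ) / n ^ 2 + (X2.card : ℝ) / (49 / 100 * n ^ 2) ≤
        16 / (17 * (98 / 100)) + 1 / 1000 := by
      have h3 : (Z.card : ℝ) ≤ 1 / 1000 * n ^ 2 := by
        refine cZ.trans ?_
        have h4 : (N : ℝ) * N ≤ (4 * 10 ^ 17) * (4 * 10 ^ 17) :=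
          mul_le_mul hNr hNr hN0 (by positivity)
        calc (N : ℝ) * N * (10 ^ 25 * n) ≤ (4 * 10 ^ 17) * (4 * 10 ^ 17) * (10 ^ 25 * n) :=
              mul_le_mul_of_nonneg_right h4 (by positivity)
          _ = 16 * 10 ^ 59 * n := by ring
          _ ≤ 1 / 1000 * n ^ 2 := by nlinarith
      rw [div_add_div _ _ (by positivity) (by positivity), div_le_iff₀ (by positivity)]
      have h5 : ((A1 ∪ Z).card : ℝ) ≤ A1.card + 1 / 1000 * n ^ 2 := by linarith
      have h6 : ((A1 ∪ Z).card : ℝ) * (49 / 100 * n ^ 2) + n ^ 2 * X2.card ≤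
          n ^ 2 * ((49 / 100) * (A1.card + 1 / 1000 * n ^ 2) + X2.card) := by nlinarith
      refine h6.trans ?_
      have h7 : (49 / 100) * ((A1.card : ℝ) + 1 / 1000 * n ^ 2) + X2.card ≤
          n ^ 2 * ((49 / 100) * (16 / (17 * (98 / 100)) + 1 / 1000)) := by
        have : (49 / 100 : ℝ) * (16 / (17 * (98 / 100))) = 8 / 17 := by norm_num
        nlinarith
      calc (n : ℝ) ^ 2 * ((49 / 100) * (A1.card + 1 / 1000 * n ^ 2) + X2.card) ≤
            n ^ 2 * (n ^ 2 * ((49 / 100) * (16 / (17 * (98 / 100)) + 1 / 1000))) :=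
            mul_le_mul_of_nonneg_left h7 hn2.le
        _ = _ := by ring
    have e3 : (X3.card : ℝ) / (4000 * n ^ 2) ≤ 37 / 4000 := by
      rw [div_le_div_iff₀ (by positivity) (by norm_num)]
      nlinarith
    have e4 : (X4.card : ℝ) / n ≤ 1 / 1000 := by
      rw [div_le_iff₀ hnpos]
      refine cX4.trans ?_
      have h4 : (N : ℝ) * N ≤ (4 * 10 ^ 17) * (4 * 10 ^ 17) :=
        mul_le_mul hNr hNr hN0 (by positivity)
      linarith
    have e5 : (16 / (17 * (98 / 100)) + 1 / 1000 + 37 / 4000 + 1 / 1000 : ℝ) ≤ 98 / 100 := by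
      norm_num
    linarith)
  -- the box
  obtain ⟨a, a', hR, hmix⟩ := hbox N hN V (goodSet (n : ℝ) (A1 ∪ Z) X2 X3 X4) (by
      rw [hn]; exact hdens)
    (fun i => (univ.image (fun v : V => (v, v))) ∪
      ((univ.filter (fun p : V × V => T < (cod F (w i) p.1 p.2 : ℝ))) ∪
      (univ.filter (fun p : V × V => T < (cod F (w i) p.1 p.2 : ℝ))).image Prod.swap))
    (by
      intro i
      have hfp := few_pairs F h5 (w i) n T hFr hTpos
      have hfp' : 8 * (n : ℝ) ^ 2 / T = 8 * 10 ^ 23 * n := by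
        rw [hT]; field_simp
      rw [hfp'] at hfp
      have h3 := (card_union_le (univ.image (fun v : V => (v, v)))
        ((univ.filter (fun p : V × V => T < (cod F (w i) p.1 p.2 : ℝ))) ∪
        (univ.filter (fun p : V × V => T < (cod F (w i) p.1 p.2 : ℝ))).image Prod.swap)).trans
        (Nat.add_le_add_left (card_union_le _ _) _)
      have h4 := Nat.cast_le (α := ℝ).2 h3
      refine h4.trans ?_
      push_cast
      have e1 : ((univ.image (fun v : V => (v, v))).card : ℝ) ≤ n := by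
        have := card_image_le (s := (univ : Finset V)) (f := (fun v : V => (v, v)))
        rw [card_univ, hn] at this
        exact_mod_cast this
      have e2 : (((univ.filter (fun p : V × V => T < (cod F (w i) p.1 p.2 : ℝ))).image
          Prod.swap).card : ℝ) ≤ 8 * 10 ^ 23 * n := (Nat.cast_le.2 card_image_le).trans hfp
      rw [hn]
      have e3 : (10 ^ 30 : ℝ) * n ≤ η * n ^ 2 := by nlinarith
      linarith)
  -- facts about good choices
  have hgood : ∀ S : Fin N → Bool, ∀ i j, i ≠ j →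
      let f : Fin N → V := fun i => if S i then a i else a' i
      f i ≠ f j ∧ f i ∉ W ∧ ¬ Bad4 F (w i) (f i) (w j) (f j) ∧
      (cod F (w i) (f i) (f j) : ℝ) ≤ T := by
    intro S i j hij f
    have hf := (mem_filter.1 (hmix S)).2
    obtain ⟨g1, g2, g3, g4⟩ := hf
    have k1 : ∀ i j, i ≠ j → f i ≠ f j ∧ NoRel u i j (f i) (f j) ∧
        (cod F (w i) (f i) (f j) : ℝ) ≤ T := by
      intro i j hij
      have h1 := g1 (i, j)
      refine ⟨?_, ?_, ?_⟩
      · intro h
        exact h1 (mem_union_right _ (mem_filter.2 ⟨mem_univ _, hij, Or.inl h⟩))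
      · by_contra h
        exact h1 (mem_union_right _ (mem_filter.2 ⟨mem_univ _, hij, Or.inr (Or.inl h)⟩))
      · by_contra h
        push Not at h
        exact h1 (mem_union_right _ (mem_filter.2 ⟨mem_univ _, hij, Or.inr (Or.inr h)⟩))
    have k2 : ∀ i, f i ∉ W := fun i h => g4 i (mem_filter.2 ⟨mem_univ _, h⟩)
    have k3 : ∀ i j, i < j → ¬ Bad4 F (w i) (f i) (w j) (f j) := by
      intro i j hij h
      exact g1 (i, j) (mem_union_left _ (mem_filter.2 ⟨mem_univ _, hij, k2 i, k2 j, h,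
        (k1 i j (ne_of_lt hij)).2.1⟩))
    refine ⟨(k1 i j hij).1, k2 i, ?_, (k1 i j hij).2.2⟩
    rcases lt_or_gt_of_ne hij with h | h
    · exact k3 i j h
    · exact fun hb => k3 j i h (bad4_s4 hb)
  have hnotW : ∀ S : Fin N → Bool, ∀ i, (if S i then a i else a' i) ∉ W := by
    intro S i h
    exact (mem_filter.1 (hmix S)).2.2.2.2 i (mem_filter.2 ⟨mem_univ _, h⟩)
  set b : Fin N × Bool → V := fun p => if p.2 then a p.1 else a' p.1 with hb
  -- a mixture through two given choices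
  have hmx : ∀ p q : Fin N × Bool, p.1 ≠ q.1 → ∃ S : Fin N → Bool,
      b p = (if S p.1 then a p.1 else a' p.1) ∧ b q = (if S q.1 then a q.1 else a' q.1) := by
    intro p q hpq
    refine ⟨fun k => if k = p.1 then p.2 else q.2, ?_, ?_⟩
    · simp only [if_true, hb]
    · simp only [if_neg (Ne.symm hpq), hb]
  have hb1 : ∀ p, b p ∉ W := by
    intro p
    exact hnotW (fun _ => p.2) p.1
  have hsame : ∀ i, a i ≠ a' i ∧ (cod F (w i) (a i) (a' i) : ℝ) ≤ T ∧
      (cod F (w i) (a' i) (a i) : ℝ) ≤ T := by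
    intro i
    have h1 := hR i
    simp only [mem_union, not_or] at h1
    obtain ⟨c1, c2, c3⟩ := h1
    refine ⟨?_, ?_, ?_⟩
    · intro h
      exact c1 (mem_image.2 ⟨a i, mem_univ _, Prod.ext rfl h⟩)
    · by_contra h
      push Not at h
      exact c2 (mem_filter.2 ⟨mem_univ _, h⟩)
    · by_contra h
      push Not at h
      exact c3 (mem_image.2 ⟨(a' i, a i), mem_filter.2 ⟨mem_univ _, h⟩, rfl⟩)
  refine ⟨b, ?_, hb1, ?_, ?_, ?_, ?_⟩
  · -- injectivity
    rintro ⟨i, s⟩ ⟨j, t⟩ h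
    by_cases hij : i = j
    · subst hij
      rcases s <;> rcases t
      · rfl
      · exact absurd h.symm (hsame i).1
      · exact absurd h (hsame i).1
      · rfl
    · exfalso
      obtain ⟨S, h1, h2⟩ := hmx (i, s) (j, t) hij
      exact (hgood S i j hij).1 (h1.symm.trans (h.trans h2))
  · intro p q hpq
    obtain ⟨S, h1, h2⟩ := hmx p q hpq
    rw [h1, h2]
    exact (hgood S p.1 q.1 hpq).2.2.1
  · -- total codegree
    have ht : ((univ.filter (MemS X3 a)).card : ℝ) ≤ 4000 * n := by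
      have := (mem_filter.1 (hmix (fun _ => true))).2.2.2.1
      simpa using this
    have hf : ((univ.filter (MemS X3 a')).card : ℝ) ≤ 4000 * n := by
      have := (mem_filter.1 (hmix (fun _ => false))).2.2.2.1
      simpa using this
    have hsub : (univ.filter (fun q : (Fin N × Bool) × (V × V) =>
        Bad4 F (w q.1.1) (b q.1) q.2.1 q.2.2)) ⊆
        (univ.filter (MemS X3 a)).image (fun q => ((q.1, true), q.2)) ∪
        (univ.filter (MemS X3 a')).image (fun q => ((q.1, false), q.2)) := by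
      rintro ⟨⟨i, s⟩, q⟩ h
      have h1 := (mem_filter.1 h).2
      rw [mem_union, mem_image, mem_image]
      rcases s
      · exact Or.inr ⟨(i, q), mem_filter.2 ⟨mem_univ _, mem_filter.2 ⟨mem_univ _, h1⟩⟩, rfl⟩
      · exact Or.inl ⟨(i, q), mem_filter.2 ⟨mem_univ _, mem_filter.2 ⟨mem_univ _, h1⟩⟩, rfl⟩
    have h1 := (card_le_card hsub).trans ((card_union_le _ _).trans
      (add_le_add card_image_le card_image_le))
    have h2 := Nat.cast_le (α := ℝ).2 h1
    push_cast at h2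
    linarith
  · -- forbidden neighbours
    intro v hv
    have ht : ((univ.filter (MemS X2 a)).card : ℝ) ≤ 49 / 100 * n := by
      have := (mem_filter.1 (hmix (fun _ => true))).2.2.1
      simpa using this
    have hf : ((univ.filter (MemS X2 a')).card : ℝ) ≤ 49 / 100 * n := by
      have := (mem_filter.1 (hmix (fun _ => false))).2.2.1
      simpa using this
    have hbound : ∀ f : Fin N → V, (∀ i, f i ∉ W) →
        (univ.filter (fun y => ∃ i, y ∉ W ∧ Bad4 F (w i) (f i) v y)).card ≤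
        (univ.filter (MemS X2 f)).card := by
      intro f hfW
      have h1 : (univ.filter (fun y => ∃ i, y ∉ W ∧ Bad4 F (w i) (f i) v y)).card ≤
          ∑ i, m i (f i) v := by
        refine le_trans (card_le_card (t := univ.biUnion (fun i =>
          univ.filter (fun y => v ∉ W ∧ y ∉ W ∧ Bad4 F (w i) (f i) v y))) ?_) card_biUnion_le
        intro y hy
        obtain ⟨i, h2, h3⟩ := (mem_filter.1 hy).2
        exact mem_biUnion.2 ⟨i, mem_univ _, mem_filter.2 ⟨mem_univ _, hv, h2, h3⟩⟩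
      have h2 : ∑ i, m i (f i) (u i (f i)) ≤ (univ.filter (MemS X2 f)).card := by
        have h3 : ∑ i, m i (f i) (u i (f i)) = (univ.filter (fun p : Fin N × V =>
            u p.1 (f p.1) ∉ W ∧ p.2 ∉ W ∧ Bad4 F (w p.1) (f p.1) (u p.1 (f p.1)) p.2)).card :=
          (card_prod_fiber' (fun (i : Fin N) (y : V) =>
            u i (f i) ∉ W ∧ y ∉ W ∧ Bad4 F (w i) (f i) (u i (f i)) y) _ _).symm
        rw [h3]
        refine card_le_card ?_
        rintro ⟨i, y⟩ h
        obtain ⟨h4, h5, h6⟩ := (mem_filter.1 h).2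
        exact mem_filter.2 ⟨mem_univ _, mem_filter.2 ⟨mem_univ _, hfW i, h4, h5, h6⟩⟩
      exact h1.trans ((Finset.sum_le_sum (fun i _ => hu i (f i) v)).trans h2)
    have haW : ∀ i, a i ∉ W := fun i => by simpa using hnotW (fun _ => true) i
    have haW' : ∀ i, a' i ∉ W := fun i => by simpa using hnotW (fun _ => false) i
    have hsub : (univ.filter (fun y => ∃ p, Bad4 F (w p.1) (b p) v y)) ⊆
        W ∪ ((univ.filter (fun y => ∃ i, y ∉ W ∧ Bad4 F (w i) (a i) v y)) ∪
        (univ.filter (fun y => ∃ i, y ∉ W ∧ Bad4 F (w i) (a' i) v y))) := by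
      intro y hy
      obtain ⟨⟨i, s⟩, h1⟩ := (mem_filter.1 hy).2
      by_cases hyW : y ∈ W
      · exact mem_union_left _ hyW
      · refine mem_union_right _ ?_
        rw [mem_union]
        rcases s
        · exact Or.inr (mem_filter.2 ⟨mem_univ _, i, hyW, h1⟩)
        · exact Or.inl (mem_filter.2 ⟨mem_univ _, i, hyW, h1⟩)
    have h1 := (card_le_card hsub).trans ((card_union_le _ _).trans
      (Nat.add_le_add_left (card_union_le _ _) _))
    have h2 := h1.trans (Nat.add_le_add_left (add_le_add (hbound a haW) (hbound a' haW')) _)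
    rw [hWcard] at h2
    have h3 := Nat.cast_le (α := ℝ).2 h2
    push_cast at h3
    linarith
  · rintro ⟨i, s⟩ ⟨j, t⟩
    by_cases hij : i = j
    · subst hij
      have hz : ∀ v, cod F (w i) v v = 0 := by
        intro v
        unfold cod
        rw [card_eq_zero, filter_eq_empty_iff]
        rintro y _ ⟨⟨-, -, -, h, -, -⟩, -⟩
        exact h rfl
      rcases s <;> rcases t
      · rw [hz]; simpa using hTpos.le
      · exact (hsame i).2.2
      · exact (hsame i).2.1
      · rw [hz]; simpa using hTpos.le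
    · obtain ⟨S, h1, h2⟩ := hmx (i, s) (j, t) hij
      rw [h1, h2]
      exact (hgood S i j hij).2.2.2

end Pool.Agent.Lib.MP_e42343_co
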