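import Pool.Agent.Lib.MP_e42343_co.Defs

/-!
Unions of intervals for the patterns `(3,1,1)` and `(2,2,1)`.
-/

namespace Pool.Agent.Lib.MP_e42343_co

open Finset Classical

variable {n : ℕ}

lemma interval_one (c : ZMod n ≃ Fin n) (t : ZMod n) : interval c t 1 = {c (t + 1)} := by
  unfold interval
  ext a
  simp

lemma interval_two (c : ZMod n ≃ Fin n) (t : ZMod n) :
    interval c t 2 = {c (t + 1), c (t + 2)} := by
  unfold interval
  have : Finset.Icc 1 2 = ({1, 2} : Finset ℕ) := by decide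
  rw [this, image_insert, image_singleton]
  push_cast
  rfl

lemma interval_three (c : ZMod n ≃ Fin n) (t : ZMod n) :
    interval c t 3 = {c (t + 1), c (t + 2), c (t + 3)} := by
  unfold interval
  have : Finset.Icc 1 3 = ({1, 2, 3} : Finset ℕ) := by decide
  rw [this, image_insert, image_insert, image_singleton]
  push_cast
  rfl

lemma union311 (c : ZMod n ≃ Fin n) (t : Fin [3, 1, 1].length → ZMod n) :
    (Finset.univ.biUnion fun i => interval c (t i) ([3, 1, 1].get i)) =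
      {c (t 0 + 1), c (t 0 + 2), c (t 0 + 3)} ∪ ({c (t 1 + 1)} ∪ {c (t 2 + 1)}) := by
  rw [← interval_three, ← interval_one, ← interval_one]
  ext a
  simp only [mem_biUnion, mem_univ, true_and, mem_union]
  constructor
  · rintro ⟨i, hi⟩
    match i, hi with
    | ⟨0, _⟩, hi => exact Or.inl hi
    | ⟨1, _⟩, hi => exact Or.inr (Or.inl hi)
    | ⟨2, _⟩, hi => exact Or.inr (Or.inr hi)
  · rintro (h | h | h)
    · exact ⟨⟨0, by simp⟩, h⟩
    · exact ⟨⟨1, by simp⟩, h⟩
    · exact ⟨⟨2, by simp⟩, h⟩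

lemma union221 (c : ZMod n ≃ Fin n) (t : Fin [2, 2, 1].length → ZMod n) :
    (Finset.univ.biUnion fun i => interval c (t i) ([2, 2, 1].get i)) =
      {c (t 0 + 1), c (t 0 + 2)} ∪ ({c (t 1 + 1), c (t 1 + 2)} ∪ {c (t 2 + 1)}) := by
  rw [← interval_two, ← interval_two, ← interval_one]
  ext a
  simp only [mem_biUnion, mem_univ, true_and, mem_union]
  constructor
  · rintro ⟨i, hi⟩
    match i, hi with
    | ⟨0, _⟩, hi => exact Or.inl hi
    | ⟨1, _⟩, hi => exact Or.inr (Or.inl hi)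
    | ⟨2, _⟩, hi => exact Or.inr (Or.inr hi)
  · rintro (h | h | h)
    · exact ⟨⟨0, by simp⟩, h⟩
    · exact ⟨⟨1, by simp⟩, h⟩
    · exact ⟨⟨2, by simp⟩, h⟩

lemma one_ne_zero' (hn : 3 ≤ n) : (1 : ZMod n) ≠ 0 := by
  have h := (ZMod.natCast_eq_zero_iff 1 n).not.mpr (by
    intro h
    have := Nat.le_of_dvd (by norm_num) h
    omega)
  simpa using h

lemma two_ne_zero' (hn : 3 ≤ n) : (2 : ZMod n) ≠ 0 := by
  have h := (ZMod.natCast_eq_zero_iff 2 n).not.mpr (by
    intro h
    have := Nat.le_of_dvd (by norm_num) h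
    omega)
  simpa using h

lemma three_distinct (c : ZMod n ≃ Fin n) (hn : 3 ≤ n) (t : ZMod n) :
    c t ≠ c (t + 1) ∧ c t ≠ c (t + 2) ∧ c (t + 1) ≠ c (t + 2) := by
  refine ⟨fun h => ?_, fun h => ?_, fun h => ?_⟩
  · have h1 := c.injective h
    exact one_ne_zero' hn (by simpa using h1.symm)
  · have h1 := c.injective h
    exact two_ne_zero' hn (by simpa using h1.symm)
  · have h1 := c.injective h
    apply one_ne_zero' hn
    have h2 : (1 : ZMod n) = 2 := by simpa using h1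
    have h3 : (1 : ZMod n) = 2 - 1 := by ring
    rw [h3, ← h2]
    ring

/-- A five-set containing three consecutive elements is a `(3,1,1)`-union. -/
lemma not_acc311 (c : ZMod n ≃ Fin n) (hn : 3 ≤ n) (F : Finset (Finset (Fin n)))
    (A : Finset (Fin n)) (hA : A ∈ F) (hA5 : A.card = 5) (t : ZMod n)
    (h : c t ∈ A ∧ c (t + 1) ∈ A ∧ c (t + 2) ∈ A) : ¬ Acceptable F [3, 1, 1] c := by
  have hsub : ({c t, c (t + 1), c (t + 2)} : Finset (Fin n)) ⊆ A := by
    intro a ha
    simp only [mem_insert, mem_singleton] at ha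
    rcases ha with rfl | rfl | rfl
    · exact h.1
    · exact h.2.1
    · exact h.2.2
  obtain ⟨h1, h2, h3⟩ := three_distinct c hn t
  have hle : (A \ {c t, c (t + 1), c (t + 2)}).card = 2 := by
    rw [card_sdiff_of_subset hsub, hA5, card_eq_three.mpr ⟨_, _, _, h1, h2, h3, rfl⟩]
  obtain ⟨p, q, -, hpq⟩ := card_eq_two.mp hle
  intro hacc
  let tt : Fin [3, 1, 1].length → ZMod n := ![t - 1, c.symm p - 1, c.symm q - 1]
  have h0 : tt 0 = t - 1 := rfl
  have h1' : tt 1 = c.symm p - 1 := rfl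
  have h2' : tt 2 = c.symm q - 1 := rfl
  apply hacc tt
  rw [union311, h0, h1', h2']
  have e1 : t - 1 + 1 = t := by ring
  have e2 : t - 1 + 2 = t + 1 := by ring
  have e3 : t - 1 + 3 = t + 2 := by ring
  have e4 : c.symm p - 1 + 1 = c.symm p := by ring
  have e5 : c.symm q - 1 + 1 = c.symm q := by ring
  rw [e1, e2, e3, e4, e5, c.apply_symm_apply, c.apply_symm_apply]
  have hU : ({c t, c (t + 1), c (t + 2)} ∪ ({p} ∪ {q}) : Finset (Fin n)) = A := by
    have : ({p} ∪ {q} : Finset (Fin n)) = {p, q} := rfl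
    rw [this, ← hpq, union_sdiff_of_subset hsub]
  rw [hU]
  exact hA

/-- A five-set containing two disjoint edges is a `(2,2,1)`-union. -/
lemma not_acc221 (c : ZMod n ≃ Fin n) (F : Finset (Finset (Fin n)))
    (A : Finset (Fin n)) (hA : A ∈ F) (hA5 : A.card = 5) (t t' : ZMod n)
    (hd : c t ≠ c (t + 1) ∧ c t ≠ c t' ∧ c t ≠ c (t' + 1) ∧ c (t + 1) ≠ c t' ∧
      c (t + 1) ≠ c (t' + 1) ∧ c t' ≠ c (t' + 1))
    (h : c t ∈ A ∧ c (t + 1) ∈ A ∧ c t' ∈ A ∧ c (t' + 1) ∈ A) :
    ¬ Acceptable F [2, 2, 1] c := by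
  have hsub : ({c t, c (t + 1), c t', c (t' + 1)} : Finset (Fin n)) ⊆ A := by
    intro a ha
    simp only [mem_insert, mem_singleton] at ha
    rcases ha with rfl | rfl | rfl | rfl
    · exact h.1
    · exact h.2.1
    · exact h.2.2.1
    · exact h.2.2.2
  have hle : (A \ {c t, c (t + 1), c t', c (t' + 1)}).card = 1 := by
    rw [card_sdiff_of_subset hsub, hA5, card_insert_of_notMem, card_insert_of_notMem,
      card_insert_of_notMem, card_singleton]
    · simp only [mem_singleton]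
      exact hd.2.2.2.2.2
    · simp only [mem_insert, mem_singleton, not_or]
      exact ⟨hd.2.2.2.1, hd.2.2.2.2.1⟩
    · simp only [mem_insert, mem_singleton, not_or]
      exact ⟨hd.1, hd.2.1, hd.2.2.1⟩
  obtain ⟨p, hp⟩ := card_eq_one.mp hle
  intro hacc
  let tt : Fin [2, 2, 1].length → ZMod n := ![t - 1, t' - 1, c.symm p - 1]
  have h0 : tt 0 = t - 1 := rfl
  have h1' : tt 1 = t' - 1 := rfl
  have h2' : tt 2 = c.symm p - 1 := rfl
  apply hacc tt
  rw [union221, h0, h1', h2']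
  have e1 : t - 1 + 1 = t := by ring
  have e2 : t - 1 + 2 = t + 1 := by ring
  have e3 : t' - 1 + 1 = t' := by ring
  have e4 : t' - 1 + 2 = t' + 1 := by ring
  have e5 : c.symm p - 1 + 1 = c.symm p := by ring
  rw [e1, e2, e3, e4, e5, c.apply_symm_apply]
  have hU : ({c t, c (t + 1)} ∪ ({c t', c (t' + 1)} ∪ {p}) : Finset (Fin n)) = A := by
    have : ({c t, c (t + 1)} ∪ ({c t', c (t' + 1)} ∪ {p}) : Finset (Fin n)) =
        {c t, c (t + 1), c t', c (t' + 1)} ∪ {p} := by
      ext a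
      simp only [mem_union, mem_insert, mem_singleton]
      tauto
    rw [this, ← hp, union_sdiff_of_subset hsub]
  rw [hU]
  exact hA

lemma acc311_of (c : ZMod n ≃ Fin n) (F : Finset (Finset (Fin n)))
    (h : ∀ t, ¬ ∃ A ∈ F, c t ∈ A ∧ c (t + 1) ∈ A ∧ c (t + 2) ∈ A) :
    Acceptable F [3, 1, 1] c := by
  intro tt hF
  rw [union311] at hF
  apply h (tt 0 + 1)
  have e1 : tt 0 + 1 + 1 = tt 0 + 2 := by ring
  have e2 : tt 0 + 1 + 2 = tt 0 + 3 := by ring
  rw [e1, e2]
  exact ⟨_, hF, by simp, by simp, by simp⟩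

lemma five_distinct {α : Type*} [DecidableEq α] (x y z w u : α)
    (h : ({x, y} ∪ ({z, w} ∪ {u}) : Finset α).card = 5) :
    x ≠ y ∧ x ≠ z ∧ x ≠ w ∧ y ≠ z ∧ y ≠ w ∧ z ≠ w := by
  have key : ∀ a b c d : α, ({x, y} ∪ ({z, w} ∪ {u}) : Finset α) ⊆ {a, b, c, d} → False := by
    intro a b c d hsub
    have h1 := card_le_card hsub
    have h2 : ({a, b, c, d} : Finset α).card ≤ 4 := card_le_four
    omega
  refine ⟨?_, ?_, ?_, ?_, ?_, ?_⟩
  · rintro rfl
    exact key x z w u (by intro a; simp only [mem_union, mem_insert, mem_singleton]; tauto)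
  · rintro rfl
    exact key x y w u (by intro a; simp only [mem_union, mem_insert, mem_singleton]; tauto)
  · rintro rfl
    exact key x y z u (by intro a; simp only [mem_union, mem_insert, mem_singleton]; tauto)
  · rintro rfl
    exact key x y w u (by intro a; simp only [mem_union, mem_insert, mem_singleton]; tauto)
  · rintro rfl
    exact key x y z u (by intro a; simp only [mem_union, mem_insert, mem_singleton]; tauto)
  · rintro rfl
    exact key x y z u (by intro a; simp only [mem_union, mem_insert, mem_singleton]; tauto)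

lemma acc221_of (c : ZMod n ≃ Fin n) (F : Finset (Finset (Fin n)))
    (h5 : ∀ A ∈ F, A.card = 5)
    (h : ∀ t t', ¬ ((c t ≠ c (t + 1) ∧ c t ≠ c t' ∧ c t ≠ c (t' + 1) ∧ c (t + 1) ≠ c t' ∧
      c (t + 1) ≠ c (t' + 1) ∧ c t' ≠ c (t' + 1)) ∧
      ∃ A ∈ F, c t ∈ A ∧ c (t + 1) ∈ A ∧ c t' ∈ A ∧ c (t' + 1) ∈ A)) :
    Acceptable F [2, 2, 1] c := by
  intro tt hF
  rw [union221] at hF
  have hd := five_distinct _ _ _ _ _ (h5 _ hF)
  apply h (tt 0 + 1) (tt 1 + 1)
  have e1 : tt 0 + 1 + 1 = tt 0 + 2 := by ring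
  have e2 : tt 1 + 1 + 1 = tt 1 + 2 := by ring
  rw [e1, e2]
  exact ⟨hd, _, hF, by simp, by simp, by simp, by simp⟩

end Pool.Agent.Lib.MP_e42343_co
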