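import Pool.Agent.Lib.MP_e42343_co.Unions

/-!
The construction: `m₂ (3,1,1) (2,2,1) n ≤ n² / 18` for `n = 3^(k+1) + 2`.
-/

namespace Pool.Agent.Lib.MP_e42343_co

open Finset Classical

/-- Two special positions `p`, `q`, every other position is coloured by one of three parts, and
the special vertices together with two vertices of one part always lie in a member of `F`.
Then a member of `F` contains three consecutive vertices or two disjoint edges. -/
lemma cyc_upper {n : ℕ} (hn : 3 ≤ n) {V : Type} (F : Finset (Finset V)) (d : ZMod n ≃ V)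
    (p q : ZMod n) (hpq : p ≠ q) (part : ZMod n → Fin 3)
    (h2 : ∀ s s', s ≠ p → s ≠ q → s' ≠ p → s' ≠ q → part s = part s' →
      ∃ A ∈ F, d p ∈ A ∧ d q ∈ A ∧ d s ∈ A ∧ d s' ∈ A) :
    (∃ t, ∃ A ∈ F, d t ∈ A ∧ d (t + 1) ∈ A ∧ d (t + 2) ∈ A) ∨
    (∃ t t', (d t ≠ d (t + 1) ∧ d t ≠ d t' ∧ d t ≠ d (t' + 1) ∧ d (t + 1) ≠ d t' ∧
      d (t + 1) ≠ d (t' + 1) ∧ d t' ≠ d (t' + 1)) ∧
      ∃ A ∈ F, d t ∈ A ∧ d (t + 1) ∈ A ∧ d t' ∈ A ∧ d (t' + 1) ∈ A) := by
  have h10 := one_ne_zero' hn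
  have h20 := two_ne_zero' hn
  have hp1 : p + 1 ≠ p := by simpa using h10
  have hq1 : q + 1 ≠ q := by simpa using h10
  have hp2 : p + 2 ≠ p := by simpa using h20
  have hq2 : q + 2 ≠ q := by simpa using h20
  have hp1' : p - 1 ≠ p := by simpa using h10
  have hq1' : q - 1 ≠ q := by simpa using h10
  have hp12 : p + 2 ≠ p + 1 := by
    intro h
    apply h10
    have : (1 : ZMod n) = (p + 2) - (p + 1) := by ring
    rw [this, h, sub_self]
  have hq12 : q + 2 ≠ q + 1 := by
    intro h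
    apply h10
    have : (1 : ZMod n) = (q + 2) - (q + 1) := by ring
    rw [this, h, sub_self]
  -- adjacent special vertices
  by_cases c1 : q = p + 1
  · left
    obtain ⟨A, hA, a1, a2, a3, -⟩ := h2 (p + 2) (p + 2) hp2 (by rw [c1]; exact hp12) hp2
      (by rw [c1]; exact hp12) rfl
    exact ⟨p, A, hA, a1, c1 ▸ a2, a3⟩
  by_cases c2 : p = q + 1
  · left
    obtain ⟨A, hA, a1, a2, a3, -⟩ := h2 (q + 2) (q + 2) (by rw [c2]; exact hq12) hq2
      (by rw [c2]; exact hq12) hq2 rfl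
    exact ⟨q, A, hA, a2, c2 ▸ a1, a3⟩
  by_cases c3 : q = p + 2
  · left
    obtain ⟨A, hA, a1, a2, a3, -⟩ := h2 (p + 1) (p + 1) hp1 (fun h => c1 h.symm) hp1
      (fun h => c1 h.symm) rfl
    exact ⟨p, A, hA, a1, a3, c3 ▸ a2⟩
  by_cases c4 : p = q + 2
  · left
    obtain ⟨A, hA, a1, a2, a3, -⟩ := h2 (q + 1) (q + 1) (fun h => c2 h.symm) hq1
      (fun h => c2 h.symm) hq1 rfl
    exact ⟨q, A, hA, a2, a3, c4 ▸ a1⟩
  have d1 : p + 1 ≠ q := fun h => c1 h.symm
  have d2 : q + 1 ≠ p := fun h => c2 h.symm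
  have d3 : p - 1 ≠ q := fun h => c2 (by rw [← h]; ring)
  have d4 : q - 1 ≠ p := fun h => c1 (by rw [← h]; ring)
  -- four neighbours are distinct
  have e1 : p - 1 ≠ q - 1 := fun h => hpq (by simpa using h)
  have e2 : p + 1 ≠ q + 1 := fun h => hpq (by simpa using h)
  have e3 : p + 1 ≠ q - 1 := fun h => c3 (by
    have : q = (q - 1) + 1 := by ring
    rw [this, ← h]; ring)
  have e4 : p - 1 ≠ q + 1 := fun h => c4 (by
    have : p = (p - 1) + 1 := by ring
    rw [this, h]; ring)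
  by_cases b1 : part (p - 1) = part (p + 1)
  · left
    obtain ⟨A, hA, a1, a2, a3, a4⟩ := h2 (p - 1) (p + 1) hp1' d3 hp1 d1 b1
    refine ⟨p - 1, A, hA, a3, ?_, ?_⟩
    · rw [sub_add_cancel]; exact a1
    · rw [show p - 1 + 2 = p + 1 by ring]; exact a4
  by_cases b2 : part (q - 1) = part (q + 1)
  · left
    obtain ⟨A, hA, a1, a2, a3, a4⟩ := h2 (q - 1) (q + 1) d4 hq1' d2 hq1 b2
    refine ⟨q - 1, A, hA, a3, ?_, ?_⟩
    · rw [sub_add_cancel]; exact a2
    · rw [show q - 1 + 2 = q + 1 by ring]; exact a4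
  right
  have hcase : part (p - 1) = part (q - 1) ∨ part (p - 1) = part (q + 1) ∨
      part (p + 1) = part (q - 1) ∨ part (p + 1) = part (q + 1) := by
    revert b1 b2
    generalize part (p - 1) = x1
    generalize part (p + 1) = x2
    generalize part (q - 1) = x3
    generalize part (q + 1) = x4
    revert x1 x2 x3 x4
    decide
  have inj := d.injective
  rcases hcase with h | h | h | h
  · obtain ⟨A, hA, a1, a2, a3, a4⟩ := h2 (p - 1) (q - 1) hp1' d3 d4 hq1' h
    refine ⟨p - 1, q - 1, ?_, A, hA, ?_⟩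
    · rw [sub_add_cancel, sub_add_cancel]
      exact ⟨inj.ne hp1', inj.ne e1, inj.ne d3, inj.ne d4.symm, inj.ne hpq, inj.ne hq1'⟩
    · rw [sub_add_cancel, sub_add_cancel]
      exact ⟨a3, a1, a4, a2⟩
  · obtain ⟨A, hA, a1, a2, a3, a4⟩ := h2 (p - 1) (q + 1) hp1' d3 d2 hq1 h
    refine ⟨p - 1, q, ?_, A, hA, ?_⟩
    · rw [sub_add_cancel]
      exact ⟨inj.ne hp1', inj.ne d3, inj.ne e4, inj.ne hpq, inj.ne d2.symm, inj.ne hq1.symm⟩
    · rw [sub_add_cancel]
      exact ⟨a3, a1, a2, a4⟩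
  · obtain ⟨A, hA, a1, a2, a3, a4⟩ := h2 (p + 1) (q - 1) hp1 d1 d4 hq1' h
    refine ⟨p, q - 1, ?_, A, hA, ?_⟩
    · rw [sub_add_cancel]
      exact ⟨inj.ne hp1.symm, inj.ne d4.symm, inj.ne hpq, inj.ne e3, inj.ne d1, inj.ne hq1'⟩
    · rw [sub_add_cancel]
      exact ⟨a1, a3, a4, a2⟩
  · obtain ⟨A, hA, a1, a2, a3, a4⟩ := h2 (p + 1) (q + 1) hp1 d1 d2 hq1 h
    refine ⟨p, q, ?_, A, hA, ?_⟩
    · exact ⟨inj.ne hp1.symm, inj.ne hpq, inj.ne d2.symm, inj.ne d1, inj.ne e2, inj.ne hq1.symm⟩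
    · exact ⟨a1, a3, a2, a4⟩

/-- The point set of the construction. -/
abbrev Pt (k : ℕ) : Type := Bool ⊕ (Fin 3 × (Fin k → ZMod 3))

/-- The member of the family with parameters `(i, (x, y))`. -/
noncomputable def mem5 (k : ℕ) (a : Fin 3 × ((Fin k → ZMod 3) × (Fin k → ZMod 3))) :
    Finset (Pt k) :=
  {Sum.inl true, Sum.inl false, Sum.inr (a.1, a.2.1), Sum.inr (a.1, a.2.2),
    Sum.inr (a.1, - a.2.1 - a.2.2)}

/-- The parameters. -/
noncomputable def par (k : ℕ) : Finset (Fin 3 × ((Fin k → ZMod 3) × (Fin k → ZMod 3))) :=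
  univ.filter fun a => a.2.1 ≠ a.2.2

/-- The family. -/
noncomputable def fam (k : ℕ) : Finset (Finset (Pt k)) := (par k).image (mem5 k)

lemma char3 {k : ℕ} (x : Fin k → ZMod 3) : x + x + x = 0 := by
  funext i
  simp only [Pi.add_apply, Pi.zero_apply]
  generalize x i = a
  revert a
  decide

lemma third_ne1 {k : ℕ} (x y : Fin k → ZMod 3) (h : x ≠ y) : - x - y ≠ x := by
  intro h1
  apply h
  have h2 := char3 x
  have h3 : y = - x - x := by
    have : y = - x - (- x - y) := by abel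
    rw [this, h1]
  rw [h3]
  have : x = - x - x + (x + x + x) := by abel
  nth_rewrite 1 [this]
  rw [h2, add_zero]

lemma third_ne2 {k : ℕ} (x y : Fin k → ZMod 3) (h : x ≠ y) : - x - y ≠ y := by
  have := third_ne1 y x h.symm
  rwa [show - y - x = - x - y by abel] at this

lemma card_mem5 {k : ℕ} (a : Fin 3 × ((Fin k → ZMod 3) × (Fin k → ZMod 3))) (h : a ∈ par k) :
    (mem5 k a).card = 5 := by
  have hxy : a.2.1 ≠ a.2.2 := (mem_filter.mp h).2
  have h1 := third_ne1 _ _ hxy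
  have h2 := third_ne2 _ _ hxy
  unfold mem5
  rw [card_insert_of_notMem, card_insert_of_notMem, card_insert_of_notMem, card_insert_of_notMem,
    card_singleton]
  · simp only [mem_singleton, Sum.inr.injEq, Prod.mk.injEq, true_and]
    exact h2.symm
  · simp only [mem_insert, mem_singleton, Sum.inr.injEq, Prod.mk.injEq, true_and, not_or]
    exact ⟨hxy, h1.symm⟩
  · simp
  · simp

lemma fam_card5 {k : ℕ} (A : Finset (Pt k)) (hA : A ∈ fam k) : A.card = 5 := by
  obtain ⟨a, ha, rfl⟩ := mem_image.mp hA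
  exact card_mem5 a ha

lemma fam_cover {k : ℕ} (i : Fin 3) (x y : Fin k → ZMod 3) (h : x ≠ y) :
    ∃ A ∈ fam k, Sum.inl true ∈ A ∧ Sum.inl false ∈ A ∧ Sum.inr (i, x) ∈ A ∧
      Sum.inr (i, y) ∈ A := by
  refine ⟨mem5 k (i, (x, y)), mem_image_of_mem _ ?_, ?_⟩
  · simpa [par] using h
  · unfold mem5
    simp

lemma fam_cover' {k : ℕ} (hk : 0 < k) (i : Fin 3) (x y : Fin k → ZMod 3) :
    ∃ A ∈ fam k, Sum.inl true ∈ A ∧ Sum.inl false ∈ A ∧ Sum.inr (i, x) ∈ A ∧
      Sum.inr (i, y) ∈ A := by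
  by_cases h : x = y
  · subst h
    have : x ≠ x + 1 := by
      intro h
      have h1 := congrFun h ⟨0, hk⟩
      simp at h1
    obtain ⟨A, hA, a1, a2, a3, -⟩ := fam_cover i x (x + 1) this
    exact ⟨A, hA, a1, a2, a3, a3⟩
  · exact fam_cover i x y h

lemma card_par (k : ℕ) : (par k).card ≤ 3 * (3 ^ k * 3 ^ k) := by
  unfold par
  refine (card_le_univ _).trans ?_
  simp [Fintype.card_prod, ZMod.card]

/-- Every member has at least six parameters. -/
lemma six_fibre (k : ℕ) : 6 * (fam k).card ≤ (par k).card := by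
  unfold fam
  apply mul_card_image_le_card
  intro A hA
  obtain ⟨a, ha, rfl⟩ := mem_image.mp hA
  obtain ⟨i, x, y⟩ := a
  have hxy : x ≠ y := (mem_filter.mp ha).2
  have h1 := third_ne1 _ _ hxy
  have h2 := third_ne2 _ _ hxy
  obtain ⟨z, hz⟩ : ∃ z, z = - x - y := ⟨_, rfl⟩
  rw [← hz] at h1 h2
  have hy' : y = - x - z := by rw [hz]; abel
  have hx' : x = - y - z := by rw [hz]; abel
  have hsub : ({(i, (x, y)), (i, (y, x)), (i, (x, z)), (i, (z, x)), (i, (y, z)), (i, (z, y))} :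
      Finset (Fin 3 × ((Fin k → ZMod 3) × (Fin k → ZMod 3)))) ⊆
      (par k).filter (fun a' => mem5 k a' = mem5 k (i, (x, y))) := by
    have hm : ∀ a b c : Fin k → ZMod 3, a ≠ b → c = - a - b →
        ({a, b, c} : Finset (Fin k → ZMod 3)) = {x, y, z} →
        (i, (a, b)) ∈ (par k).filter (fun a' => mem5 k a' = mem5 k (i, (x, y))) := by
      intro a b c hab hc hset
      refine mem_filter.mpr ⟨by simpa [par] using hab, ?_⟩
      unfold mem5
      simp only
      rw [← hc, ← hz]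
      have h3 : ∀ a b c : Fin k → ZMod 3, ({Sum.inl true, Sum.inl false, Sum.inr (i, a),
          Sum.inr (i, b), Sum.inr (i, c)} : Finset (Pt k)) =
          {Sum.inl true, Sum.inl false} ∪ ({a, b, c} : Finset (Fin k → ZMod 3)).image
            (fun u => Sum.inr (i, u)) := by
        intro a b c
        rw [image_insert, image_insert, image_singleton]
        rfl
      rw [h3, h3, hset]
    intro w hw
    simp only [mem_insert, mem_singleton] at hw
    rcases hw with rfl | rfl | rfl | rfl | rfl | rfl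
    · exact hm x y z hxy hz rfl
    · exact hm y x z hxy.symm (by rw [hz]; abel) (by ext u; simp only [mem_insert, mem_singleton]; tauto)
    · exact hm x z y h1.symm hy' (by ext u; simp only [mem_insert, mem_singleton]; tauto)
    · exact hm z x y h1 (by rw [hy']; abel) (by ext u; simp only [mem_insert, mem_singleton]; tauto)
    · exact hm y z x h2.symm hx' (by ext u; simp only [mem_insert, mem_singleton]; tauto)
    · exact hm z y x h2 (by rw [hx']; abel) (by ext u; simp only [mem_insert, mem_singleton]; tauto)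
  refine le_trans (le_of_eq ?_) (card_le_card hsub)
  symm
  rw [card_insert_of_notMem, card_insert_of_notMem, card_insert_of_notMem, card_insert_of_notMem,
    card_insert_of_notMem, card_singleton]
  all_goals
    simp only [mem_insert, mem_singleton, Prod.mk.injEq, true_and, not_or, not_and]
    tauto

lemma card_fam (k : ℕ) : 2 * (fam k).card ≤ 3 ^ k * 3 ^ k := by
  have h1 := six_fibre k
  have h2 := card_par k
  omega

end Pool.Agent.Lib.MP_e42343_co
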