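import Pool.Agent.Lib.MP_e42343_co.Upper

/-!
Transfer of the construction to `Fin n`.
-/

namespace Pool.Agent.Lib.MP_e42343_co

open Finset Classical

lemma card_Pt (k : ℕ) : Fintype.card (Pt k) = 3 ^ (k + 1) + 2 := by
  unfold Pt
  simp only [Fintype.card_sum, Fintype.card_bool, Fintype.card_prod, Fintype.card_fin,
    Fintype.card_pi, ZMod.card, prod_const, card_univ]
  ring

theorem upper_fin (k : ℕ) (hk : 0 < k) (n : ℕ) (hn : n = 3 ^ (k + 1) + 2) :
    ∃ F : Finset (Finset (Fin n)), (∀ A ∈ F, A.card = 5) ∧ 18 * F.card ≤ n ^ 2 ∧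
      ∀ c : ZMod n ≃ Fin n, ¬ (Acceptable F [3, 1, 1] c ∧ Acceptable F [2, 2, 1] c) := by
  have hn3 : 3 ≤ n := by
    have : 1 ≤ 3 ^ (k + 1) := Nat.one_le_pow _ _ (by norm_num)
    omega
  let e : Pt k ≃ Fin n := Fintype.equivFinOfCardEq (by rw [card_Pt, hn])
  let F : Finset (Finset (Fin n)) := (fam k).image (fun A => A.map e.toEmbedding)
  have hF5 : ∀ A ∈ F, A.card = 5 := by
    intro A hA
    obtain ⟨B, hB, rfl⟩ := mem_image.mp hA
    rw [card_map]
    exact fam_card5 B hB
  refine ⟨F, hF5, ?_, ?_⟩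
  · have h1 : F.card ≤ (fam k).card := card_image_le
    have h2 := card_fam k
    have h3 : 3 ^ (k + 1) * 3 ^ (k + 1) = 9 * (3 ^ k * 3 ^ k) := by ring
    have h4 : 3 ^ (k + 1) * 3 ^ (k + 1) ≤ n ^ 2 := by
      rw [hn]
      nlinarith
    omega
  · intro c hc
    obtain ⟨hc1, hc2⟩ := hc
    let d : ZMod n ≃ Pt k := c.trans e.symm
    have hcd : ∀ t, c t = e (d t) := fun t => by simp [d]
    let p := d.symm (Sum.inl true)
    let q := d.symm (Sum.inl false)
    have hp : d p = Sum.inl true := d.apply_symm_apply _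
    have hq : d q = Sum.inl false := d.apply_symm_apply _
    have hpq : p ≠ q := by
      intro h
      have := congrArg d h
      rw [hp, hq] at this
      simp at this
    let part : ZMod n → Fin 3 := fun s => Sum.elim (fun _ => 0) (fun u => u.1) (d s)
    have hgen : ∀ s, s ≠ p → s ≠ q → ∃ x, d s = Sum.inr (part s, x) := by
      intro s hsp hsq
      rcases hds : d s with b | ⟨i, x⟩
      · exfalso
        cases b
        · exact hsq (by rw [← d.symm_apply_apply s, hds])
        · exact hsp (by rw [← d.symm_apply_apply s, hds])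
      · refine ⟨x, ?_⟩
        simp only [part, hds, Sum.elim_inr]
    have h2 : ∀ s s', s ≠ p → s ≠ q → s' ≠ p → s' ≠ q → part s = part s' →
        ∃ A ∈ fam k, d p ∈ A ∧ d q ∈ A ∧ d s ∈ A ∧ d s' ∈ A := by
      intro s s' h1 h2 h3 h4 h5
      obtain ⟨x, hx⟩ := hgen s h1 h2
      obtain ⟨y, hy⟩ := hgen s' h3 h4
      rw [hp, hq, hx, hy, ← h5]
      exact fam_cover' hk _ x y
    rcases cyc_upper hn3 (fam k) d p q hpq part h2 with ⟨t, A, hA, a1, a2, a3⟩ |
      ⟨t, t', ⟨g1, g2, g3, g4, g5, g6⟩, A, hA, a1, a2, a3, a4⟩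
    · have hA' : A.map e.toEmbedding ∈ F := mem_image_of_mem _ hA
      refine not_acc311 c hn3 F _ hA' (hF5 _ hA') t ⟨?_, ?_, ?_⟩ hc1
      · rw [hcd]; exact mem_map_of_mem e.toEmbedding a1
      · rw [hcd]; exact mem_map_of_mem e.toEmbedding a2
      · rw [hcd]; exact mem_map_of_mem e.toEmbedding a3
    · have hA' : A.map e.toEmbedding ∈ F := mem_image_of_mem _ hA
      refine not_acc221 c F _ hA' (hF5 _ hA') t t' ⟨?_, ?_, ?_, ?_, ?_, ?_⟩ ⟨?_, ?_, ?_, ?_⟩ hc2
      · rw [hcd, hcd]; exact e.injective.ne g1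
      · rw [hcd, hcd]; exact e.injective.ne g2
      · rw [hcd, hcd]; exact e.injective.ne g3
      · rw [hcd, hcd]; exact e.injective.ne g4
      · rw [hcd, hcd]; exact e.injective.ne g5
      · rw [hcd, hcd]; exact e.injective.ne g6
      · rw [hcd]; exact mem_map_of_mem e.toEmbedding a1
      · rw [hcd]; exact mem_map_of_mem e.toEmbedding a2
      · rw [hcd]; exact mem_map_of_mem e.toEmbedding a3
      · rw [hcd]; exact mem_map_of_mem e.toEmbedding a4

end Pool.Agent.Lib.MP_e42343_co
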